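import Pool.Agent.Lib.MP_1b9c20_nt.Val

/-! Cartier operators on `K[T]`, root counts for additive polynomials, small determinants. -/

set_option autoImplicit false

namespace Pool.Agent.Lib.MP_1b9c20_nt

open Polynomial

section frob
variable {K : Type} [Field K] [Fintype K] {R : Type} [CommRing R] [Algebra K R]

theorem fr_add (a b : R) : (a + b) ^ Fintype.card K = a ^ Fintype.card K + b ^ Fintype.card K :=
  map_add (FiniteField.frobeniusAlgHom K R) a b

theorem fr_sub (a b : R) : (a - b) ^ Fintype.card K = a ^ Fintype.card K - b ^ Fintype.card K :=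
  map_sub (FiniteField.frobeniusAlgHom K R) a b

theorem fr_alg (c : K) : (algebraMap K R c) ^ Fintype.card K = algebraMap K R c := by
  rw [← map_pow, FiniteField.pow_card]

end frob

variable {K : Type} [Field K]

/-- The Cartier operator: coefficient `i` of `cart q k f` is coefficient `q i + k` of `f`. -/
noncomputable def cart (q k : ℕ) (f : K[X]) : K[X] := divX (contract q (X ^ (q - k) * f))

theorem coeff_cart {q k : ℕ} (hk : k < q) (f : K[X]) (i : ℕ) :
    (cart q k f).coeff i = f.coeff (q * i + k) := by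
  have hq : q ≠ 0 := by omega
  rw [cart, coeff_divX, coeff_contract hq, coeff_X_pow_mul']
  have h1 : q - k ≤ (i + 1) * q := by nlinarith [Nat.sub_le q k]
  rw [if_pos h1]
  congr 1
  have : (i + 1) * q = q * i + q := by ring
  omega

theorem cart_add {q k : ℕ} (hk : k < q) (f g : K[X]) :
    cart q k (f + g) = cart q k f + cart q k g := by
  ext i; simp [coeff_cart hk]

theorem X_mul_cart {q k : ℕ} (hk : k < q) (f : K[X]) :
    X * cart q k f = contract q (X ^ (q - k) * f) := by
  have hq : q ≠ 0 := by omega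
  have := X_mul_divX_add (contract q (X ^ (q - k) * f))
  rw [coeff_contract hq, coeff_X_pow_mul', if_neg (by omega)] at this
  simpa [cart] using this

theorem cart_mul_expand {q k : ℕ} (hk : k < q) (f h : K[X]) :
    cart q k (f * expand K q h) = cart q k f * h := by
  have hq : q ≠ 0 := by omega
  apply mul_left_cancel₀ (X_ne_zero (R := K))
  rw [X_mul_cart hk, ← mul_assoc, ← mul_assoc, X_mul_cart hk, contract_mul_expand hq]

theorem cart_mul_pow [Fintype K] {k : ℕ} (hk : k < Fintype.card K) (f h : K[X]) :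
    cart (Fintype.card K) k (f * h ^ Fintype.card K) = cart (Fintype.card K) k f * h := by
  rw [← FiniteField.expand_card, cart_mul_expand hk]

theorem natDegree_cart {q k : ℕ} (hk : k < q) {f : K[X]} {n : ℕ} (hf : f.natDegree ≤ n) :
    (cart q k f).natDegree ≤ (n - k) / q := by
  by_cases h0 : cart q k f = 0
  · simp [h0]
  have h1 : (cart q k f).coeff (cart q k f).natDegree ≠ 0 := leadingCoeff_ne_zero.2 h0
  rw [coeff_cart hk] at h1
  have h2 := le_natDegree_of_ne_zero h1
  rw [Nat.le_div_iff_mul_le (by omega)]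
  have : (cart q k f).natDegree * q = q * (cart q k f).natDegree := by ring
  omega

theorem cart_ext {q : ℕ} (hq : 0 < q) {f g : K[X]} (h : ∀ k < q, cart q k f = cart q k g) :
    f = g := by
  ext n
  have hk : n % q < q := Nat.mod_lt _ hq
  have h1 := congrArg (fun p => coeff p (n / q)) (h _ hk)
  simp only [coeff_cart hk, Nat.div_add_mod] at h1
  exact h1

section roots
variable {R : Type} [CommRing R] [IsDomain R]

/-- An additive polynomial with more roots than its degree has zero coefficients. -/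
theorem add_roots (S : Finset R) {n₁ n₂ n₃ : ℕ} (h₁ : 1 < n₁) (h₂ : n₁ < n₂) (h₃ : n₂ < n₃)
    {c₀ c₁ c₂ c₃ : R} {N : ℕ} (hN : N < S.card) (hN₁ : 1 ≤ N)
    (e₁ : c₁ = 0 ∨ n₁ ≤ N) (e₂ : c₂ = 0 ∨ n₂ ≤ N) (e₃ : c₃ = 0 ∨ n₃ ≤ N)
    (h : ∀ t ∈ S, c₀ * t + c₁ * t ^ n₁ + c₂ * t ^ n₂ + c₃ * t ^ n₃ = 0) :
    c₀ = 0 ∧ c₁ = 0 ∧ c₂ = 0 ∧ c₃ = 0 := by
  have hb : ∀ (c : R) (n : ℕ), (c = 0 ∨ n ≤ N) → (monomial n c).natDegree ≤ N := by
    intro c n hc
    rcases hc with rfl | hc
    · simp
    · exact (natDegree_monomial_le _).trans hc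
  set P : R[X] := monomial 1 c₀ + monomial n₁ c₁ + monomial n₂ c₂ + monomial n₃ c₃ with hP
  have hdeg : P.natDegree ≤ N :=
    natDegree_add_le_of_degree_le (natDegree_add_le_of_degree_le
      (natDegree_add_le_of_degree_le (hb _ _ (Or.inr hN₁)) (hb _ _ e₁)) (hb _ _ e₂)) (hb _ _ e₃)
  have h0 : P = 0 := eq_zero_of_natDegree_lt_card_of_eval_eq_zero' P S (by
    intro t ht
    have := h t ht
    simpa [hP, eval_monomial] using this) (by omega)
  have k : ∀ n, (if 1 = n then c₀ else 0) + (if n₁ = n then c₁ else 0) + (if n₂ = n then c₂ else 0)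
      + (if n₃ = n then c₃ else 0) = 0 := by
    intro n
    have := congrArg (fun p => coeff p n) h0
    simpa [hP, coeff_monomial] using this
  refine ⟨?_, ?_, ?_, ?_⟩
  · have := k 1
    rwa [if_pos rfl, if_neg (by omega), if_neg (by omega), if_neg (by omega), add_zero, add_zero,
      add_zero] at this
  · have := k n₁
    rwa [if_neg (by omega), if_pos rfl, if_neg (by omega), if_neg (by omega), add_zero, add_zero,
      zero_add] at this
  · have := k n₂
    rwa [if_neg (by omega), if_neg (by omega), if_pos rfl, if_neg (by omega), add_zero, add_zero,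
      zero_add] at this
  · have := k n₃
    rwa [if_neg (by omega), if_neg (by omega), if_neg (by omega), if_pos rfl, add_zero, add_zero,
      zero_add] at this

theorem exists_moore2 (S : Finset R) {q : ℕ} (hq : 1 < q) (hS : q < S.card) :
    ∃ x ∈ S, ∃ y ∈ S, x * y ^ q - x ^ q * y ≠ 0 := by
  obtain ⟨x, hx, hx0⟩ : ∃ x ∈ S, x ≠ 0 := by
    by_contra hcon
    push Not at hcon
    have : S ⊆ {0} := fun x hx => by simpa using hcon x hx
    have := Finset.card_le_card this
    simp at this; omega
  by_contra hcon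
  push Not at hcon
  have := add_roots S hq (Nat.lt_succ_self q) (Nat.lt_succ_self (q + 1)) (c₀ := - x ^ q) (c₁ := x)
    (c₂ := 0) (c₃ := 0) hS hq.le (Or.inr le_rfl) (Or.inl rfl) (Or.inl rfl) (by
      intro t ht
      have := hcon x hx t ht
      linear_combination this)
  exact hx0 this.2.1

end roots

/-- A three by three determinant whose rows are three functions evaluated at three points. -/
def det3 {α R : Type} [CommRing R] (a b c : α → R) (x y z : α) : R :=
  a x * (b y * c z - b z * c y) - a y * (b x * c z - b z * c x) + a z * (b x * c y - b y * c x)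

theorem exists_moore3 {R : Type} [CommRing R] [IsDomain R] (S : Finset R) {q : ℕ} (hq : 1 < q)
    (hS : q ^ 2 < S.card) :
    ∃ x ∈ S, ∃ y ∈ S, ∃ z ∈ S,
      det3 (fun t => t) (fun t => t ^ q) (fun t => (t ^ q) ^ q) x y z ≠ 0 := by
  have hqq : q < q ^ 2 := by nlinarith
  obtain ⟨x, hx, y, hy, hxy⟩ := exists_moore2 S hq (hqq.trans hS)
  by_contra hcon
  push Not at hcon
  have := add_roots S hq hqq (Nat.lt_succ_self (q ^ 2))
    (c₀ := x ^ q * (y ^ q) ^ q - y ^ q * (x ^ q) ^ q) (c₁ := y * (x ^ q) ^ q - x * (y ^ q) ^ q)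
    (c₂ := x * y ^ q - x ^ q * y) (c₃ := 0) hS (by omega) (Or.inr hqq.le) (Or.inr le_rfl)
    (Or.inl rfl) (by
      intro t ht
      have := hcon x hx y hy t ht
      simp only [det3] at this
      rw [sq, pow_mul]
      linear_combination this)
  exact hxy this.2.2.1

theorem natDegree_det3 {α : Type} {a b c : α → K[X]} {x y z : α} {A B C : ℕ}
    (hax : (a x).natDegree ≤ A) (hay : (a y).natDegree ≤ A) (haz : (a z).natDegree ≤ A)
    (hbx : (b x).natDegree ≤ B) (hby : (b y).natDegree ≤ B) (hbz : (b z).natDegree ≤ B)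
    (hcx : (c x).natDegree ≤ C) (hcy : (c y).natDegree ≤ C) (hcz : (c z).natDegree ≤ C) :
    (det3 a b c x y z).natDegree ≤ A + B + C := by
  have m : ∀ {f g : K[X]} {i j : ℕ}, f.natDegree ≤ i → g.natDegree ≤ j →
      (f * g).natDegree ≤ i + j := fun hf hg => natDegree_mul_le.trans (add_le_add hf hg)
  have s : ∀ {f g : K[X]} {i : ℕ}, f.natDegree ≤ i → g.natDegree ≤ i →
      (f - g).natDegree ≤ i := fun hf hg => (natDegree_sub_le _ _).trans (max_le hf hg)
  rw [add_assoc]
  exact natDegree_add_le_of_degree_le (s (m hax (s (m hby hcz) (m hbz hcy)))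
    (m hay (s (m hbx hcz) (m hbz hcx)))) (m haz (s (m hbx hcy) (m hby hcx)))

/-- Height lemma: if `β / α` times the `m`-th powers of a primitive family are polynomials `r`,
then the degrees of the `r` dominate. -/
theorem height_lemma (S : Finset K[X]) (hprim : ∀ π : K[X], Prime π → ∃ x ∈ S, ¬ π ∣ x)
    {α β : K[X]} (hβ : β ≠ 0) {m : ℕ} (r : K[X] → K[X])
    (h : ∀ x ∈ S, α * r x = β * x ^ m) {x : K[X]} (hx : x ∈ S) (hx0 : x ≠ 0) :
    m * x.natDegree ≤ (r x).natDegree := by
  have hα : α ≠ 0 := by
    rintro rfl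
    have := h x hx
    rw [zero_mul] at this
    exact mul_ne_zero hβ (pow_ne_zero _ hx0) this.symm
  have hα' : algebraMap K[X] (RatFunc K) α ≠ 0 := by simpa using hα
  obtain ⟨l, hl⟩ := poly_of_ge (f := algebraMap K[X] (RatFunc K) β / algebraMap K[X] (RatFunc K) α)
    (by
      intro π hπ
      obtain ⟨y, hy, hπy⟩ := hprim π hπ
      have h1 := (fin_is_zero hπ hπy).pow m
      have h2 := fin_ge_poly hπ (r y)
      have e : algebraMap K[X] (RatFunc K) (r y) = algebraMap K[X] (RatFunc K) y ^ m *
          (algebraMap K[X] (RatFunc K) β / algebraMap K[X] (RatFunc K) α) := by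
        have := congrArg (algebraMap K[X] (RatFunc K)) (h y hy)
        rw [map_mul, map_mul, map_pow] at this
        field_simp
        linear_combination this
      rw [e] at h2
      simpa using h2.of_mul h1)
  have hβl : β = α * l := by
    apply IsFractionRing.injective K[X] (RatFunc K)
    rw [map_mul, ← hl]; field_simp
  have hl0 : l ≠ 0 := by rintro rfl; exact hβ (by simpa using hβl)
  have e : r x = l * x ^ m := by
    apply mul_left_cancel₀ hα
    rw [h x hx, hβl]; ring
  rw [e, natDegree_mul hl0 (pow_ne_zero _ hx0), natDegree_pow]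
  omega

end Pool.Agent.Lib.MP_1b9c20_nt
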