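import Pool.Agent.Lib.MP_1b9c20_nt.Cart

/-! The separable case: the plane spanned by `v` and its Frobenius twist has small height. -/

set_option autoImplicit false

namespace Pool.Agent.Lib.MP_1b9c20_nt

open Polynomial

variable {K : Type} [Field K] [Fintype K]

/-- Data of a primitive stable family of polynomials together with two independent
Cartier components. -/
structure Setup (K : Type) [Field K] [Fintype K] where
  S : Finset K[X]
  Φ : K[X] → K[X]
  e : K[X]
  G : K[X]
  D : K[X]
  he : e ≠ 0
  hD : D ≠ 0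
  hΦ : ∀ x ∈ S, Φ x ∈ S
  heq : ∀ x ∈ S, e ^ Fintype.card K * (Φ x - X * x)
    = G * x ^ Fintype.card K + D * (x ^ Fintype.card K) ^ Fintype.card K
  hcard : Fintype.card K ^ 2 < S.card
  hprim : ∀ π : K[X], Prime π → ∃ x ∈ S, ¬ π ∣ x

namespace Setup

variable (W : Setup K)

theorem exists_top : ∃ d : ℕ, 1 ≤ d ∧ (∀ x ∈ W.S, x.natDegree ≤ d) ∧
    ∃ x ∈ W.S, x ≠ 0 ∧ x.natDegree = d := by
  have hq : 1 < Fintype.card K := Fintype.one_lt_card
  have hqq : Fintype.card K < Fintype.card K ^ 2 := by nlinarith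
  obtain ⟨x, hx, y, hy, hxy⟩ := exists_moore2 W.S hq (hqq.trans W.hcard)
  obtain ⟨t, ht, hmax⟩ := Finset.exists_max_image W.S natDegree ⟨x, hx⟩
  have hd : 1 ≤ t.natDegree := by
    by_contra hcon
    have h1 : x.natDegree = 0 := by have := hmax x hx; omega
    have h2 : y.natDegree = 0 := by have := hmax y hy; omega
    rw [eq_C_of_natDegree_eq_zero h1, eq_C_of_natDegree_eq_zero h2, ← map_pow, ← map_pow,
      FiniteField.pow_card, FiniteField.pow_card] at hxy
    exact hxy (sub_self _)
  exact ⟨t.natDegree, hd, hmax, t, ht, by rintro rfl; simp at hd, rfl⟩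

/-- The `k`-th Cartier component of `Φ x - T x`. -/
noncomputable def comp (k : ℕ) (x : K[X]) : K[X] := cart (Fintype.card K) k (W.Φ x - X * x)

theorem comp_eq {k : ℕ} (hk : k < Fintype.card K) {x : K[X]} (hx : x ∈ W.S) :
    W.e * W.comp k x = cart (Fintype.card K) k W.G * x
      + cart (Fintype.card K) k W.D * x ^ Fintype.card K := by
  have := congrArg (cart (Fintype.card K) k) (W.heq x hx)
  rw [mul_comm (W.e ^ _), cart_mul_pow hk, cart_add hk, cart_mul_pow hk, cart_mul_pow hk] at this
  rw [comp, mul_comm, this]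

theorem comp_deg {k d : ℕ} (hk : k < Fintype.card K) (hd : ∀ x ∈ W.S, x.natDegree ≤ d)
    {x : K[X]} (hx : x ∈ W.S) : (W.comp k x).natDegree ≤ (d + 1 - k) / Fintype.card K := by
  apply natDegree_cart hk
  refine (natDegree_sub_le _ _).trans (max_le ((hd _ (W.hΦ x hx)).trans (by omega)) ?_)
  refine natDegree_mul_le.trans ?_
  have := hd x hx
  rw [natDegree_X]; omega

theorem deg_sum {q k l d : ℕ} (hq : 1 < q) (hkl : k ≠ l) (hd : 1 ≤ d) :
    q * ((d + 1 - k) / q + (d + 1 - l) / q) ≤ 2 * d := by
  have h1 := Nat.mul_div_le (d + 1 - k) q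
  have h2 := Nat.mul_div_le (d + 1 - l) q
  set A := (d + 1 - k) / q
  set B := (d + 1 - l) / q
  by_contra hcon
  rw [mul_add] at hcon
  have key : ∀ a b : ℕ, q * a = d + 1 → q * b = d → False := by
    intro a b ha hb
    have : q ∣ 1 := by
      have h3 : q ∣ d + 1 := ⟨a, ha.symm⟩
      have h4 : q ∣ d := ⟨b, hb.symm⟩
      exact (Nat.dvd_add_right h4).1 h3
    have := Nat.le_of_dvd one_pos this
    omega
  rcases Nat.lt_or_gt_of_ne hkl with h | h
  · exact key A B (by omega) (by omega)
  · exact key B A (by omega) (by omega)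

/-- The separable case for `q ≥ 3`. -/
theorem caseI_big (hq : 3 ≤ Fintype.card K) {k l : ℕ} (hk : k < Fintype.card K)
    (hl : l < Fintype.card K)
    (h0 : cart (Fintype.card K) k W.G * cart (Fintype.card K) l W.D
      ≠ cart (Fintype.card K) l W.G * cart (Fintype.card K) k W.D) : False := by
  set q := Fintype.card K with hqdef
  have hq1 : 1 < q := by omega
  have hkl : k ≠ l := by rintro rfl; exact h0 rfl
  obtain ⟨d, hd1, hd, t, ht, ht0, htd⟩ := W.exists_top
  set Gk := cart q k W.G
  set Gl := cart q l W.G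
  set Dk := cart q k W.D
  set Dl := cart q l W.D
  set D0 := Gk * Dl - Gl * Dk with hD0
  have hD00 : D0 ≠ 0 := sub_ne_zero.2 h0
  set a := W.comp k
  set b := W.comp l
  set A := (d + 1 - k) / q
  set B := (d + 1 - l) / q
  have ha : ∀ x ∈ W.S, W.e * a x = Gk * x + Dk * x ^ q := fun x hx => W.comp_eq hk hx
  have hb : ∀ x ∈ W.S, W.e * b x = Gl * x + Dl * x ^ q := fun x hx => W.comp_eq hl hx
  have hA : ∀ x ∈ W.S, (a x).natDegree ≤ A := fun x hx => W.comp_deg hk hd hx
  have hB : ∀ x ∈ W.S, (b x).natDegree ≤ B := fun x hx => W.comp_deg hl hd hx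
  have haq : ∀ x ∈ W.S, W.e ^ q * a x ^ q = Gk ^ q * x ^ q + Dk ^ q * (x ^ q) ^ q := by
    intro x hx
    rw [← mul_pow, ha x hx, fr_add (K := K), mul_pow, mul_pow]
  have hbq : ∀ x ∈ W.S, W.e ^ q * b x ^ q = Gl ^ q * x ^ q + Dl ^ q * (x ^ q) ^ q := by
    intro x hx
    rw [← mul_pow, hb x hx, fr_add (K := K), mul_pow, mul_pow]
  have hD0q : D0 ^ q = Gk ^ q * Dl ^ q - Gl ^ q * Dk ^ q := by
    rw [hD0, fr_sub (K := K), mul_pow, mul_pow]
  have hAq : ∀ x ∈ W.S, (a x ^ q).natDegree ≤ q * A := fun x hx =>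
    natDegree_pow_le.trans (Nat.mul_le_mul_left _ (hA x hx))
  have hBq : ∀ x ∈ W.S, (b x ^ q).natDegree ≤ q * B := fun x hx =>
    natDegree_pow_le.trans (Nat.mul_le_mul_left _ (hB x hx))
  obtain ⟨x, hx, y, hy, z, hz, hM⟩ := exists_moore3 W.S hq1 W.hcard
  set P := det3 b (fun t => a t ^ q) (fun t => b t ^ q) x y z with hP
  set Q := det3 a (fun t => a t ^ q) (fun t => b t ^ q) x y z with hQ
  set M := det3 (fun t => t) (fun t => t ^ q) (fun t => (t ^ q) ^ q) x y z with hMdef
  have heq0 : W.e ^ q ≠ 0 := pow_ne_zero _ W.he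
  -- express `P` and `Q` through the Moore determinant
  have hPM : W.e * (W.e ^ q * (W.e ^ q * P)) = Gl * D0 ^ q * M := by
    have : W.e * (W.e ^ q * (W.e ^ q * P)) = det3 (fun t => W.e * b t)
        (fun t => W.e ^ q * a t ^ q) (fun t => W.e ^ q * b t ^ q) x y z := by
      simp only [hP, det3]; ring
    rw [this]
    simp only [det3]
    rw [hb x hx, hb y hy, hb z hz, haq x hx, haq y hy, haq z hz, hbq x hx, hbq y hy, hbq z hz,
      hD0q, hMdef]
    simp only [det3]; ring
  have hQM : W.e * (W.e ^ q * (W.e ^ q * Q)) = Gk * D0 ^ q * M := by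
    have : W.e * (W.e ^ q * (W.e ^ q * Q)) = det3 (fun t => W.e * a t)
        (fun t => W.e ^ q * a t ^ q) (fun t => W.e ^ q * b t ^ q) x y z := by
      simp only [hQ, det3]; ring
    rw [this]
    simp only [det3]
    rw [ha x hx, ha y hy, ha z hz, haq x hx, haq y hy, haq z hz, hbq x hx, hbq y hy, hbq z hz,
      hD0q, hMdef]
    simp only [det3]; ring
  have hPd : P.natDegree ≤ B + q * A + q * B :=
    natDegree_det3 (hB x hx) (hB y hy) (hB z hz) (hAq x hx) (hAq y hy) (hAq z hz)
      (hBq x hx) (hBq y hy) (hBq z hz)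
  have hQd : Q.natDegree ≤ A + q * A + q * B :=
    natDegree_det3 (hA x hx) (hA y hy) (hA z hz) (hAq x hx) (hAq y hy) (hAq z hz)
      (hBq x hx) (hBq y hy) (hBq z hz)
  have hr : ∀ s ∈ W.S, (W.e * (W.e * (W.e ^ q * W.e ^ q))) * (Q * b s - P * a s)
      = (D0 * D0 ^ q * M) * s ^ q := by
    intro s hs
    have : (W.e * (W.e * (W.e ^ q * W.e ^ q))) * (Q * b s - P * a s)
        = (W.e * (W.e ^ q * (W.e ^ q * Q))) * (W.e * b s)
          - (W.e * (W.e ^ q * (W.e ^ q * P))) * (W.e * a s) := by ring
    rw [this, hPM, hQM, ha s hs, hb s hs, hD0]; ring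
  have hh := height_lemma W.S W.hprim
    (mul_ne_zero (mul_ne_zero hD00 (pow_ne_zero q hD00)) hM) (fun s => Q * b s - P * a s) hr ht ht0
  have hrd : (Q * b t - P * a t).natDegree ≤ (q + 1) * (A + B) := by
    refine (natDegree_sub_le _ _).trans (max_le ?_ ?_)
    · refine natDegree_mul_le.trans ?_
      have := hB t ht
      nlinarith
    · refine natDegree_mul_le.trans ?_
      have := hA t ht
      nlinarith
  have hs : q * (A + B) ≤ 2 * d := deg_sum hq1 hkl hd1
  rw [htd] at hh
  have h1 : q * (q * d) ≤ (q + 1) * (2 * d) := by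
    calc q * (q * d) ≤ q * ((q + 1) * (A + B)) := Nat.mul_le_mul_left _ (hh.trans hrd)
      _ = (q + 1) * (q * (A + B)) := by ring
      _ ≤ (q + 1) * (2 * d) := Nat.mul_le_mul_left _ hs
  have h2 : q * q ≤ (q + 1) * 2 := by
    apply Nat.le_of_mul_le_mul_right (c := d) _ hd1
    nlinarith
  nlinarith

/-- The separable case for `q = 2`: the family solves a common Bernoulli equation. -/
theorem caseI_two_ode (hq : Fintype.card K = 2) {k l : ℕ} (hk : k < Fintype.card K)
    (hl : l < Fintype.card K)
    (h0 : cart (Fintype.card K) k W.G * cart (Fintype.card K) l W.D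
      ≠ cart (Fintype.card K) l W.G * cart (Fintype.card K) k W.D) :
    ∃ c κ ρ : K[X], c ≠ 0 ∧ ∀ t ∈ W.S, c * derivative t = κ * t + ρ * t ^ 2 := by
  have : Fact (Nat.Prime 2) := ⟨Nat.prime_two⟩
  have : CharP K 2 := charP_of_card_eq_prime hq
  have h2 : (2 : K[X]) = 0 := by
    have := CharP.cast_eq_zero K[X] 2
    exact_mod_cast this
  have hq1 : 1 < Fintype.card K := by omega
  have hkl : k ≠ l := by rintro rfl; exact h0 rfl
  obtain ⟨d, hd1, hd, t, ht, ht0, htd⟩ := W.exists_top
  set Gk := cart (Fintype.card K) k W.G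
  set Gl := cart (Fintype.card K) l W.G
  set Dk := cart (Fintype.card K) k W.D
  set Dl := cart (Fintype.card K) l W.D
  set D0 := Gk * Dl - Gl * Dk with hD0
  have hD00 : D0 ≠ 0 := sub_ne_zero.2 h0
  set a := W.comp k
  set b := W.comp l
  set A := (d + 1 - k) / Fintype.card K
  set B := (d + 1 - l) / Fintype.card K
  have ha : ∀ x ∈ W.S, W.e * a x = Gk * x + Dk * x ^ 2 := fun x hx => hq ▸ W.comp_eq hk hx
  have hb : ∀ x ∈ W.S, W.e * b x = Gl * x + Dl * x ^ 2 := fun x hx => hq ▸ W.comp_eq hl hx
  have hA : ∀ x ∈ W.S, (a x).natDegree ≤ A := fun x hx => W.comp_deg hk hd hx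
  have hB : ∀ x ∈ W.S, (b x).natDegree ≤ B := fun x hx => W.comp_deg hl hd hx
  have hs : A + B ≤ d := by
    have := deg_sum (q := Fintype.card K) hq1 hkl hd1
    rw [show Fintype.card K * (A + B) = 2 * (A + B) by rw [hq]] at this
    omega
  clear_value A B
  set α := W.e * D0 * Gk with hα
  set β := W.e * D0 * Gl with hβ
  have hsq : ∀ x ∈ W.S, α * b x - β * a x = D0 ^ 2 * x ^ 2 := by
    intro x hx
    have : α * b x - β * a x = D0 * Gk * (W.e * b x) - D0 * Gl * (W.e * a x) := by
      rw [hα, hβ]; ring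
    rw [this, ha x hx, hb x hx, hD0]; ring
  have hder : ∀ x ∈ W.S, α * derivative (b x) - β * derivative (a x)
      = derivative β * a x - derivative α * b x := by
    intro x hx
    have := congrArg derivative (hsq x hx)
    rw [← mul_pow, sq, derivative_mul (f := D0 * x), derivative_sub, derivative_mul (f := α),
      derivative_mul (f := β)] at this
    linear_combination this + (derivative (D0 * x) * (D0 * x)) * h2
  -- the two determinants vanish
  have hPQ : ∀ x ∈ W.S, ∀ y ∈ W.S, ∀ z ∈ W.S,
      det3 a b (fun s => derivative (a s)) x y z = 0 ∧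
        det3 a b (fun s => derivative (b s)) x y z = 0 := by
    intro x hx y hy z hz
    set P := det3 a b (fun s => derivative (a s)) x y z with hP
    set Q := det3 a b (fun s => derivative (b s)) x y z with hQ
    have hrel : α * Q = β * P := by
      have e1 := hder x hx
      have e2 := hder y hy
      have e3 := hder z hz
      simp only [hP, hQ, det3]
      linear_combination (a y * b z - a z * b y) * e1 - (a x * b z - a z * b x) * e2
        + (a x * b y - a y * b x) * e3
    have hP0 : A = 0 → P = 0 := by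
      intro h
      have z0 : ∀ s ∈ W.S, derivative (a s) = 0 := fun s hs =>
        derivative_of_natDegree_zero (by have := hA s hs; omega)
      simp only [hP, det3, z0 x hx, z0 y hy, z0 z hz]; ring
    have hQ0 : B = 0 → Q = 0 := by
      intro h
      have z0 : ∀ s ∈ W.S, derivative (b s) = 0 := fun s hs =>
        derivative_of_natDegree_zero (by have := hB s hs; omega)
      simp only [hQ, det3, z0 x hx, z0 y hy, z0 z hz]; ring
    have hA' : ∀ s ∈ W.S, (derivative (a s)).natDegree ≤ A - 1 := fun s hs =>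
      (natDegree_derivative_le _).trans (by have := hA s hs; omega)
    have hB' : ∀ s ∈ W.S, (derivative (b s)).natDegree ≤ B - 1 := fun s hs =>
      (natDegree_derivative_le _).trans (by have := hB s hs; omega)
    have hPd : P.natDegree ≤ A + B + (A - 1) :=
      natDegree_det3 (hA x hx) (hA y hy) (hA z hz) (hB x hx) (hB y hy) (hB z hz)
        (hA' x hx) (hA' y hy) (hA' z hz)
    have hQd : Q.natDegree ≤ A + B + (B - 1) :=
      natDegree_det3 (hA x hx) (hA y hy) (hA z hz) (hB x hx) (hB y hy) (hB z hz)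
        (hB' x hx) (hB' y hy) (hB' z hz)
    have hrd : (P * b t - Q * a t).natDegree ≤ 2 * d - 1 := by
      refine (natDegree_sub_le _ _).trans (max_le ?_ ?_)
      · by_cases h : A = 0
        · rw [hP0 h]; simp
        · refine natDegree_mul_le.trans ?_
          have := hB t ht
          omega
      · by_cases h : B = 0
        · rw [hQ0 h]; simp
        · refine natDegree_mul_le.trans ?_
          have := hA t ht
          omega
    constructor
    · by_contra hne
      have hh := height_lemma W.S W.hprim (α := α) (mul_ne_zero hne (pow_ne_zero 2 hD00))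
        (m := 2) (fun s => P * b s - Q * a s) (by
          intro s hs
          have := hsq s hs
          linear_combination P * this - a s * hrel) ht ht0
      simp only [htd] at hh
      omega
    · by_contra hne
      have hh := height_lemma W.S W.hprim (α := β) (mul_ne_zero hne (pow_ne_zero 2 hD00))
        (m := 2) (fun s => P * b s - Q * a s) (by
          intro s hs
          have := hsq s hs
          linear_combination Q * this - b s * hrel) ht ht0
      simp only [htd] at hh
      omega
  obtain ⟨x, hx, y, hy, hxy⟩ := exists_moore2 W.S (q := 2) (by norm_num)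
    (by have := W.hcard; rw [hq] at this; omega)
  set m := a x * b y - a y * b x with hm
  have hm0 : m ≠ 0 := by
    intro h
    have : W.e * W.e * m = D0 * (x * y ^ 2 - x ^ 2 * y) := by
      have : W.e * W.e * m = (W.e * a x) * (W.e * b y) - (W.e * a y) * (W.e * b x) := by
        rw [hm]; ring
      rw [this, ha x hx, ha y hy, hb x hx, hb y hy, hD0]; ring
    rw [h, mul_zero] at this
    exact mul_ne_zero hD00 hxy this.symm
  -- `D0 t = e (Dl a - Dk b)` and its derivative
  set a1 := b x * derivative (a y) - b y * derivative (a x)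
  set a2 := a y * derivative (a x) - a x * derivative (a y)
  set b1 := b x * derivative (b y) - b y * derivative (b x)
  set b2 := a y * derivative (b x) - a x * derivative (b y)
  set c1 := m * derivative (W.e * Dl) - W.e * Dl * a1 + W.e * Dk * b1
  set c2 := - m * derivative (W.e * Dk) - W.e * Dl * a2 + W.e * Dk * b2
  refine ⟨W.e * m * D0, c1 * Gk + c2 * Gl - W.e * m * derivative D0, c1 * Dk + c2 * Dl,
    mul_ne_zero (mul_ne_zero W.he hm0) hD00, ?_⟩
  intro s hs
  obtain ⟨e1, e2⟩ := hPQ x hx y hy s hs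
  simp only [det3] at e1 e2
  have f1 : m * derivative (a s) = - a1 * a s - a2 * b s := by
    linear_combination e1
  have f2 : m * derivative (b s) = - b1 * a s - b2 * b s := by
    linear_combination e2
  have g1 : D0 * s = W.e * Dl * a s - W.e * Dk * b s := by
    have : W.e * Dl * a s - W.e * Dk * b s = Dl * (W.e * a s) - Dk * (W.e * b s) := by ring
    rw [this, ha s hs, hb s hs, hD0]; ring
  have g2 : derivative D0 * s + D0 * derivative s =
      derivative (W.e * Dl) * a s + W.e * Dl * derivative (a s)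
        - (derivative (W.e * Dk) * b s + W.e * Dk * derivative (b s)) := by
    rw [← derivative_mul, ← derivative_mul, ← derivative_mul, ← derivative_sub, g1]
  have g3 : m * D0 * derivative s = c1 * a s + c2 * b s - m * derivative D0 * s := by
    linear_combination m * g2 + W.e * Dl * f1 - W.e * Dk * f2
  linear_combination W.e * g3 + c1 * ha s hs + c2 * hb s hs

/-- Consequences of the Bernoulli equation. -/
theorem ode_conseq (hq : Fintype.card K = 2) {c κ ρ : K[X]} (hc : c ≠ 0)
    (h : ∀ t ∈ W.S, c * derivative t = κ * t + ρ * t ^ 2) : W.S.card ≤ 8 ∧ ρ ≠ 0 := by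
  have : Fact (Nat.Prime 2) := ⟨Nat.prime_two⟩
  have : CharP K 2 := charP_of_card_eq_prime hq
  have h2 : (2 : K[X]) = 0 := by
    have := CharP.cast_eq_zero K[X] 2
    exact_mod_cast this
  set E := W.e ^ 2 with hE
  have hL : ∀ t ∈ W.S, (c * E ^ 2) * t
      + (E ^ 2 * X * ρ + c * E * derivative W.G - κ * E * W.G - ρ * E ^ 2 * X ^ 2) * t ^ 2
      + (c * E * derivative W.D - κ * E * W.D - ρ * W.G ^ 2) * t ^ 4
      + (- ρ * W.D ^ 2) * t ^ 8 = 0 := by
    intro t ht
    have e1 := W.heq t ht
    rw [hq] at e1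
    have e2 := congrArg derivative e1
    have d1 : derivative (W.e ^ 2) = 0 := by
      rw [sq, derivative_mul]; linear_combination (derivative W.e * W.e) * h2
    have d2 : derivative (t ^ 2) = 0 := by
      rw [sq, derivative_mul]; linear_combination (derivative t * t) * h2
    have d3 : derivative ((t ^ 2) ^ 2) = 0 := by
      rw [sq, derivative_mul, d2]; ring
    rw [derivative_mul, d1, derivative_add, derivative_mul (f := W.G), d2, derivative_mul (f := W.D), d3,
      derivative_sub, derivative_mul (f := X), derivative_X] at e2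
    have e3 := h t ht
    have e4 := h _ (W.hΦ t ht)
    rw [← hE] at e1 e2
    have e5 : E * W.Φ t = E * X * t + W.G * t ^ 2 + W.D * t ^ 4 := by linear_combination e1
    have e6 : (E * W.Φ t) ^ 2 = E ^ 2 * X ^ 2 * t ^ 2 + W.G ^ 2 * t ^ 4 + W.D ^ 2 * t ^ 8 := by
      rw [e5]
      linear_combination (E * X * t * (W.G * t ^ 2) + E * X * t * (W.D * t ^ 4)
        + W.G * t ^ 2 * (W.D * t ^ 4)) * h2
    linear_combination (-(c * E)) * e2 + E ^ 2 * e4 - E ^ 2 * X * e3 + κ * E * e5 + ρ * e6
  have hc0 : c * E ^ 2 ≠ 0 := mul_ne_zero hc (pow_ne_zero _ (pow_ne_zero _ W.he))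
  constructor
  · by_contra hcon
    exact hc0 (add_roots W.S (by norm_num) (by norm_num) (by norm_num) (N := 8) (by omega)
      (by norm_num) (Or.inr (by norm_num)) (Or.inr (by norm_num)) (Or.inr le_rfl) hL).1
  · rintro rfl
    exact hc0 (add_roots W.S (by norm_num) (by norm_num) (by norm_num) (N := 4)
      (by have := W.hcard; rw [hq] at this; omega)
      (by norm_num) (Or.inr (by norm_num)) (Or.inr (by norm_num)) (Or.inl (by simp)) hL).1

end Setup

theorem sq_of_derivative (hq : Fintype.card K = 2) {f : K[X]} (hf : derivative f = 0) :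
    ∃ g : K[X], f = g ^ 2 := by
  have : Fact (Nat.Prime 2) := ⟨Nat.prime_two⟩
  have : CharP K 2 := charP_of_card_eq_prime hq
  refine ⟨contract 2 f, ?_⟩
  have := FiniteField.expand_card (contract 2 f)
  rw [hq, expand_contract 2 hf two_ne_zero] at this
  exact this

end Pool.Agent.Lib.MP_1b9c20_nt
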