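import Pool.Agent.Lib.MP_1b9c20_nt.Scale

/-! Cartier operators over a perfect field of constants, and the separable case. -/

set_option autoImplicit false

namespace Pool.Agent.Lib.MP_1b9c20_nt

open Polynomial

variable {k : Type} [Field k]

/-- Maps that are additive and undo the `q`-th power. -/
structure Semi (q : ℕ) (l : k[X] → k[X]) : Prop where
  add : ∀ f g, l (f + g) = l f + l g
  mul : ∀ f h, l (f * h ^ q) = l f * h

/-- A system of Cartier operators. -/
structure Car (k : Type) [Field k] (q : ℕ) where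
  c : ℕ → k[X] → k[X]
  fr : ∀ f g : k[X], (f + g) ^ q = f ^ q + g ^ q
  der : ∀ f : k[X], derivative (f ^ q) = 0
  two : (2 : k[X]) = 0 → ∃ m, q = 2 * m ∧ ∀ f : k[X], derivative (f ^ m) = 0
  semi : ∀ j < q, Semi q (c j)
  deg : ∀ j < q, ∀ (f : k[X]) (n : ℕ), f.natDegree ≤ n → (c j f).natDegree ≤ (n - j) / q
  ext : ∀ f g : k[X], (∀ j < q, c j f = c j g) → f = g
  sur : ∀ P : ℕ → k[X], ∃ f, ∀ j < q, c j f = P j

theorem Semi.zero {q : ℕ} {l : k[X] → k[X]} (h : Semi q l) : l 0 = 0 := by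
  have := h.add 0 0
  rw [add_zero] at this
  exact left_eq_add.1 this

theorem Semi.sub {q : ℕ} {l : k[X] → k[X]} (h : Semi q l) (f g : k[X]) :
    l (f - g) = l f - l g := by
  have := h.add (f - g) g
  rw [sub_add_cancel] at this
  rw [this]; ring

theorem Car.fs {q : ℕ} (C : Car k q) (f g : k[X]) : (f - g) ^ q = f ^ q - g ^ q := by
  have := C.fr (f - g) g
  rw [sub_add_cancel] at this
  rw [this]; ring

theorem exists_car (p n : ℕ) [Fact p.Prime] [CharP k p] [PerfectRing k p] (hq : 3 ≤ p ^ n) :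
    Nonempty (Car k (p ^ n)) := by
  classical
  have hp : p.Prime := Fact.out
  have hn : n ≠ 0 := by rintro rfl; simp at hq
  set q := p ^ n with hqd
  set σ := iterateFrobeniusEquiv k p n with hσ
  have hder : ∀ m : ℕ, p ∣ m → ∀ f : k[X], derivative (f ^ m) = 0 := by
    intro m hm f
    rw [derivative_pow, (CharP.cast_eq_zero_iff k p m).2 hm]
    simp
  have hmul : ∀ j < q, ∀ f h : k[X], (cart q j (f * h ^ q)).map (σ.symm : k →+* k)
      = (cart q j f).map (σ.symm : k →+* k) * h := by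
    intro j hj f h
    rw [← map_iterateFrobenius_expand p h n, map_expand, cart_mul_expand hj, Polynomial.map_mul,
      Polynomial.map_map]
    congr 1
    have : (σ.symm : k →+* k).comp (iterateFrobenius k p n) = RingHom.id k :=
      RingHom.ext fun x => σ.symm_apply_apply x
    rw [this, map_id]
  have hadd : ∀ j < q, ∀ f g : k[X], (cart q j (f + g)).map (σ.symm : k →+* k)
      = (cart q j f).map (σ.symm : k →+* k) + (cart q j g).map (σ.symm : k →+* k) := by
    intro j hj f g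
    rw [cart_add hj, Polynomial.map_add]
  refine ⟨⟨fun j f => (cart q j f).map (σ.symm : k →+* k), fun f g => add_pow_char_pow f g p n,
    hder q (dvd_pow_self p hn), fun h2 => ?_, fun j hj => ⟨hadd j hj, hmul j hj⟩,
    fun j hj f m hf => natDegree_map_le.trans (natDegree_cart hj hf), fun f g h => ?_,
    fun P => ?_⟩⟩
  · have h3 : p ∣ 2 := (CharP.cast_eq_zero_iff k[X] p 2).1 (by exact_mod_cast h2)
    obtain rfl : p = 2 := (Nat.prime_dvd_prime_iff_eq hp Nat.prime_two).1 h3
    obtain ⟨m, rfl⟩ : ∃ m, n = m + 1 := ⟨n - 1, by omega⟩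
    refine ⟨2 ^ m, by rw [hqd, pow_succ, mul_comm], hder _ (dvd_pow_self 2 ?_)⟩
    rintro rfl
    simp [hqd] at hq
  · refine cart_ext (q := q) (by omega) fun j hj => ?_
    exact map_injective (σ.symm : k →+* k) σ.symm.injective (h j hj)
  · have key : ∀ s : Finset ℕ, (∀ i ∈ s, i < q) → ∀ j < q,
        (cart q j (∑ i ∈ s, X ^ i * P i ^ q)).map (σ.symm : k →+* k)
          = if j ∈ s then P j else 0 := by
      intro s
      induction s using Finset.induction_on with
      | empty => intro _ j _; simp [cart, contract]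
      | insert i s hi ih =>
        intro hs j hj
        have hiq : i < q := hs i (Finset.mem_insert_self _ _)
        have e : cart q j (X ^ i : k[X]) = if j = i then 1 else 0 := by
          ext m
          rw [coeff_cart hj, coeff_X_pow]
          by_cases hji : j = i
          · subst hji
            rw [if_pos rfl, coeff_one]
            by_cases hm : m = 0
            · simp [hm]
            · rw [if_neg hm, if_neg]
              have : 0 < q * m := Nat.mul_pos (by omega) (by omega)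
              omega
          · rw [if_neg hji, coeff_zero, if_neg]
            intro h
            rcases Nat.eq_zero_or_pos m with rfl | hm
            · omega
            · have : q * 1 ≤ q * m := Nat.mul_le_mul_left _ hm
              omega
        rw [Finset.sum_insert hi, hadd j hj, hmul j hj,
          ih (fun a ha => hs a (Finset.mem_insert_of_mem ha)) j hj, e]
        by_cases hji : j = i
        · subst hji; simp [hi]
        · simp [hji]
    refine ⟨∑ i ∈ Finset.range q, X ^ i * P i ^ q, fun j hj => ?_⟩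
    rw [key _ (fun i hi => Finset.mem_range.1 hi) j hj, if_pos (Finset.mem_range.2 hj)]

/-- A multiple of the powers of a primitive family that is polynomial is a polynomial multiple. -/
theorem height_gen {ι : Type} (S : Finset ι) (a : ι → k[X])
    (hprim : ∀ π : k[X], Prime π → ∃ x ∈ S, ¬ π ∣ a x)
    {α β : k[X]} (hα : α ≠ 0) (hβ : β ≠ 0) {m : ℕ} (r : ι → k[X])
    (h : ∀ x ∈ S, α * r x = β * a x ^ m) : ∃ l : k[X], l ≠ 0 ∧ ∀ x ∈ S, r x = l * a x ^ m := by
  have hα' : algebraMap k[X] (RatFunc k) α ≠ 0 := by simpa using hα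
  obtain ⟨l, hl⟩ := poly_of_ge (f := algebraMap k[X] (RatFunc k) β / algebraMap k[X] (RatFunc k) α)
    (by
      intro π hπ
      obtain ⟨y, hy, hπy⟩ := hprim π hπ
      have h1 := (fin_is_zero hπ hπy).pow m
      have h2 := fin_ge_poly hπ (r y)
      have e : algebraMap k[X] (RatFunc k) (r y) = algebraMap k[X] (RatFunc k) (a y) ^ m *
          (algebraMap k[X] (RatFunc k) β / algebraMap k[X] (RatFunc k) α) := by
        have := congrArg (algebraMap k[X] (RatFunc k)) (h y hy)
        rw [map_mul, map_mul, map_pow] at this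
        field_simp
        linear_combination this
      rw [e] at h2
      simpa using h2.of_mul h1)
  have hβl : β = α * l := by
    apply IsFractionRing.injective k[X] (RatFunc k)
    rw [map_mul, ← hl]; field_simp
  refine ⟨l, by rintro rfl; exact hβ (by simpa using hβl), fun x hx => ?_⟩
  apply mul_left_cancel₀ hα
  rw [h x hx, hβl]; ring

/-- A primitive stable family of polynomials. -/
structure Geo (k : Type) [Field k] (q δ : ℕ) where
  S : Finset k[X]
  Φ : k[X] → k[X]
  u : k[X]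
  v : k[X]
  e : k[X]
  G : k[X]
  D : k[X]
  hq : 3 ≤ q
  hu : u.natDegree ≤ δ
  hv : v.natDegree ≤ δ
  hW : derivative u * v ≠ u * derivative v
  he : e ≠ 0
  hD : D ≠ 0
  hΦ : ∀ x ∈ S, Φ x ∈ S
  heq : ∀ x ∈ S, e ^ q * (v * Φ x - u * x) = G * x ^ q + D * (x ^ q) ^ q
  hcard : q ^ 2 < S.card
  hprim : ∀ π : k[X], Prime π → ∃ x ∈ S, ¬ π ∣ x

namespace Geo

variable {q δ : ℕ} (W : Geo k q δ)

theorem indep {c₀ c₁ c₂ : k[X]} (h : ∀ t ∈ W.S, c₀ * t + c₁ * t ^ q + c₂ * (t ^ q) ^ q = 0) :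
    c₀ = 0 ∧ c₁ = 0 ∧ c₂ = 0 := by
  have hq := W.hq
  have hqq : q < q ^ 2 := by nlinarith
  have := add_roots W.S (by omega : 1 < q) hqq (Nat.lt_succ_self (q ^ 2)) (c₀ := c₀) (c₁ := c₁)
    (c₂ := c₂) (c₃ := 0) W.hcard (by omega) (Or.inr hqq.le) (Or.inr le_rfl) (Or.inl rfl) (by
      intro t ht
      rw [sq, pow_mul]
      linear_combination h t ht)
  exact ⟨this.1, this.2.1, this.2.2.1⟩

theorem exists_top : ∃ d : ℕ, 1 ≤ d ∧ (∀ x ∈ W.S, x.natDegree ≤ d) ∧
    ∃ x ∈ W.S, x ≠ 0 ∧ x.natDegree = d := by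
  have hq := W.hq
  obtain ⟨x, hx, y, hy, z, hz, hM⟩ := exists_moore3 W.S (by omega : 1 < q) W.hcard
  obtain ⟨t, ht, hmax⟩ := Finset.exists_max_image W.S natDegree ⟨x, hx⟩
  have hd : 1 ≤ t.natDegree := by
    by_contra hcon
    have h0 : ∀ s ∈ W.S, s.natDegree ≤ 0 := fun s hs => by have := hmax s hs; omega
    have h1 : ∀ s ∈ W.S, (s ^ q).natDegree ≤ 0 := fun s hs =>
      natDegree_pow_le.trans (by have := h0 s hs; nlinarith)
    have h2 : ∀ s ∈ W.S, ((s ^ q) ^ q).natDegree ≤ 0 := fun s hs =>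
      natDegree_pow_le.trans (by have := h1 s hs; nlinarith)
    set M := det3 (fun t => t) (fun t => t ^ q) (fun t => (t ^ q) ^ q) x y z with hMd
    set N := det3 W.Φ (fun t => t ^ q) (fun t => (t ^ q) ^ q) x y z with hNd
    have dM : derivative M = 0 := derivative_of_natDegree_zero (Nat.le_zero.1
      (natDegree_det3 (A := 0) (B := 0) (C := 0) (h0 x hx) (h0 y hy) (h0 z hz) (h1 x hx) (h1 y hy)
        (h1 z hz) (h2 x hx) (h2 y hy) (h2 z hz)))
    have dN : derivative N = 0 := derivative_of_natDegree_zero (Nat.le_zero.1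
      (natDegree_det3 (A := 0) (B := 0) (C := 0) (h0 _ (W.hΦ x hx)) (h0 _ (W.hΦ y hy))
        (h0 _ (W.hΦ z hz)) (h1 x hx) (h1 y hy) (h1 z hz) (h2 x hx) (h2 y hy) (h2 z hz)))
    have e1 : W.v * N = W.u * M := by
      apply mul_left_cancel₀ (pow_ne_zero q W.he)
      simp only [hMd, hNd, det3]
      linear_combination (y ^ q * (z ^ q) ^ q - z ^ q * (y ^ q) ^ q) * W.heq x hx
        - (x ^ q * (z ^ q) ^ q - z ^ q * (x ^ q) ^ q) * W.heq y hy
        + (x ^ q * (y ^ q) ^ q - y ^ q * (x ^ q) ^ q) * W.heq z hz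
    have e2 := congrArg derivative e1
    rw [derivative_mul, derivative_mul, dM, dN] at e2
    apply W.hW
    apply mul_left_cancel₀ hM
    linear_combination derivative W.v * e1 - W.v * e2
  exact ⟨t.natDegree, hd, hmax, t, ht, by rintro rfl; simp at hd, rfl⟩

theorem deg_R {d : ℕ} (hd : ∀ x ∈ W.S, x.natDegree ≤ d) {x : k[X]} (hx : x ∈ W.S) :
    (W.v * W.Φ x - W.u * x).natDegree ≤ d + δ := by
  have h1 := W.hu
  have h2 := W.hv
  have h3 := hd x hx
  have h4 := hd _ (W.hΦ x hx)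
  refine (natDegree_sub_le _ _).trans (max_le (natDegree_mul_le.trans ?_)
    (natDegree_mul_le.trans ?_)) <;> omega

theorem arith_one {q d j l : ℕ} (hq : 3 ≤ q) (hd : 1 ≤ d) (hjl : j ≠ l)
    (h : q * d ≤ (q + 1) * ((d + (q - 2) - j) / q + (d + (q - 2) - l) / q)) : False := by
  have h1 := Nat.mul_div_le (d + (q - 2) - j) q
  have h2 := Nat.mul_div_le (d + (q - 2) - l) q
  generalize (d + (q - 2) - j) / q = A at *
  generalize (d + (q - 2) - l) / q = B at *
  obtain ⟨r, rfl⟩ : ∃ r, q = r + 3 := ⟨q - 3, by omega⟩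
  have key : ∀ t s : ℕ, (r + 3) * t + s ≤ d → 2 ≤ s →
      (r + 3) * d ≤ (r + 3 + 1) * (2 * t + (s - 1)) → s ≤ 3 → False := by
    intro t s h3 h4 h5 h6
    have h7 := Nat.mul_le_mul_left (r + 3) h3
    rcases (by omega : s = 2 ∨ s = 3) with rfl | rfl
    · simp only [Nat.add_one_sub_one] at h5
      nlinarith [Nat.zero_le (r * r * t), Nat.zero_le (r * t)]
    · simp only [Nat.add_one_sub_one] at h5
      nlinarith [Nat.zero_le (r * r * t), Nat.zero_le (r * t)]
  rcases lt_trichotomy A B with hAB | hAB | hAB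
  · obtain ⟨t, rfl⟩ : ∃ t, B = t + 1 := ⟨B - 1, by omega⟩
    rw [mul_add] at h2
    exact key t 2 (by omega) le_rfl (h.trans (Nat.mul_le_mul_left _ (by omega))) (by omega)
  · subst hAB
    rcases Nat.eq_zero_or_pos A with rfl | hA
    · nlinarith
    · obtain ⟨t, rfl⟩ : ∃ t, A = t + 1 := ⟨A - 1, by omega⟩
      rw [mul_add] at h1 h2
      exact key t 3 (by omega) (by omega) (h.trans (Nat.mul_le_mul_left _ (by omega))) le_rfl
  · obtain ⟨t, rfl⟩ : ∃ t, A = t + 1 := ⟨A - 1, by omega⟩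
    rw [mul_add] at h1
    exact key t 2 (by omega) le_rfl (h.trans (Nat.mul_le_mul_left _ (by omega))) (by omega)

/-- The bound on the height of the family. -/
def Bd (q δ d : ℕ) : Prop := q ≤ δ + 1 ∧ q * (q * d) ≤ (q + 1) * (2 * d + 2 * δ)

theorem bd_one {q δ d j l : ℕ} (hq : 3 ≤ q) (hd : 1 ≤ d) (hjl : j ≠ l)
    (h : q * d ≤ (q + 1) * ((d + δ - j) / q + (d + δ - l) / q)) : Bd q δ d := by
  refine ⟨by_contra fun hc => arith_one hq hd hjl (h.trans (Nat.mul_le_mul_left _
    (add_le_add (Nat.div_le_div_right (by omega)) (Nat.div_le_div_right (by omega))))), ?_⟩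
  have h1 := Nat.mul_div_le (d + δ - j) q
  have h2 := Nat.mul_div_le (d + δ - l) q
  calc q * (q * d) ≤ q * ((q + 1) * ((d + δ - j) / q + (d + δ - l) / q)) := Nat.mul_le_mul_left _ h
    _ = (q + 1) * (q * ((d + δ - j) / q) + q * ((d + δ - l) / q)) := by ring
    _ ≤ _ := Nat.mul_le_mul_left _ (by omega)

theorem Bd.le {q δ d : ℕ} (hq : 3 ≤ q) (h : Bd q δ d) : d ≤ 32 * (δ / (q - 1)) := by
  obtain ⟨h1, h2⟩ := h
  obtain ⟨r, rfl⟩ : ∃ r, q = r + 3 := ⟨q - 3, by omega⟩
  rw [show r + 3 - 1 = r + 2 by omega]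
  have h3 : 1 ≤ δ / (r + 2) := (Nat.le_div_iff_mul_le (by omega)).2 (by omega)
  have h4 : δ < (r + 2) * (δ / (r + 2) + 1) := Nat.lt_mul_div_succ δ (by omega)
  generalize δ / (r + 2) = m at *
  have h5 : δ ≤ (r + 2) * (2 * m) := h4.le.trans (Nat.mul_le_mul_left _ (by omega))
  have h6 : (r * r + 4 * r + 1) * d ≤ (r + 4) * (2 * ((r + 2) * (2 * m))) := by
    have := Nat.mul_le_mul_left ((r + 4) * 2) h5
    nlinarith
  refine Nat.le_of_mul_le_mul_left (c := r * r + 4 * r + 1) (h6.trans ?_) (by omega)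
  nlinarith [Nat.zero_le (r * r * m), Nat.zero_le (r * m)]

/-- The separable case. -/
theorem case_one (C : Car k q) {j l : ℕ} (hj : j < q) (hl : l < q)
    (h0 : C.c j W.G * C.c l W.D ≠ C.c l W.G * C.c j W.D) {d : ℕ} (hd1 : 1 ≤ d)
    (hd : ∀ x ∈ W.S, x.natDegree ≤ d) {t : k[X]} (ht : t ∈ W.S) (ht0 : t ≠ 0)
    (htd : t.natDegree = d) : Bd q δ d := by
  have hq := W.hq
  have hq1 : 1 < q := by omega
  have hjl : j ≠ l := by rintro rfl; exact h0 rfl
  have hcomp : ∀ i < q, ∀ x ∈ W.S, W.e * C.c i (W.v * W.Φ x - W.u * x)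
      = C.c i W.G * x + C.c i W.D * x ^ q := by
    intro i hi x hx
    have := congrArg (C.c i) (W.heq x hx)
    rw [mul_comm (W.e ^ _), (C.semi i hi).mul, (C.semi i hi).add, (C.semi i hi).mul,
      (C.semi i hi).mul] at this
    rw [mul_comm, this]
  set Gk := C.c j W.G
  set Gl := C.c l W.G
  set Dk := C.c j W.D
  set Dl := C.c l W.D
  set D0 := Gk * Dl - Gl * Dk with hD0
  have hD00 : D0 ≠ 0 := sub_ne_zero.2 h0
  set a : k[X] → k[X] := fun x => C.c j (W.v * W.Φ x - W.u * x)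
  set b : k[X] → k[X] := fun x => C.c l (W.v * W.Φ x - W.u * x)
  have har := bd_one (δ := δ) hq hd1 hjl
  set A := (d + δ - j) / q
  set B := (d + δ - l) / q
  have ha : ∀ x ∈ W.S, W.e * a x = Gk * x + Dk * x ^ q := hcomp j hj
  have hb : ∀ x ∈ W.S, W.e * b x = Gl * x + Dl * x ^ q := hcomp l hl
  have hA : ∀ x ∈ W.S, (a x).natDegree ≤ A := fun x hx => C.deg j hj _ _ (W.deg_R hd hx)
  have hB : ∀ x ∈ W.S, (b x).natDegree ≤ B := fun x hx => C.deg l hl _ _ (W.deg_R hd hx)
  have haq : ∀ x ∈ W.S, W.e ^ q * a x ^ q = Gk ^ q * x ^ q + Dk ^ q * (x ^ q) ^ q := by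
    intro x hx
    rw [← mul_pow, ha x hx, C.fr, mul_pow, mul_pow]
  have hbq : ∀ x ∈ W.S, W.e ^ q * b x ^ q = Gl ^ q * x ^ q + Dl ^ q * (x ^ q) ^ q := by
    intro x hx
    rw [← mul_pow, hb x hx, C.fr, mul_pow, mul_pow]
  have hD0q : D0 ^ q = Gk ^ q * Dl ^ q - Gl ^ q * Dk ^ q := by
    rw [hD0, C.fs, mul_pow, mul_pow]
  have hAq : ∀ x ∈ W.S, (a x ^ q).natDegree ≤ q * A := fun x hx =>
    natDegree_pow_le.trans (Nat.mul_le_mul_left _ (hA x hx))
  have hBq : ∀ x ∈ W.S, (b x ^ q).natDegree ≤ q * B := fun x hx =>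
    natDegree_pow_le.trans (Nat.mul_le_mul_left _ (hB x hx))
  obtain ⟨x, hx, y, hy, z, hz, hM⟩ := exists_moore3 W.S hq1 W.hcard
  set P := det3 b (fun t => a t ^ q) (fun t => b t ^ q) x y z with hP
  set Q := det3 a (fun t => a t ^ q) (fun t => b t ^ q) x y z with hQ
  set M := det3 (fun t => t) (fun t => t ^ q) (fun t => (t ^ q) ^ q) x y z with hMdef
  have hPM : W.e * (W.e ^ q * (W.e ^ q * P)) = Gl * D0 ^ q * M := by
    have : W.e * (W.e ^ q * (W.e ^ q * P)) = det3 (fun t => W.e * b t)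
        (fun t => W.e ^ q * a t ^ q) (fun t => W.e ^ q * b t ^ q) x y z := by
      simp only [hP, det3]; ring
    rw [this]
    simp only [det3]
    rw [hb x hx, hb y hy, hb z hz, haq x hx, haq y hy, haq z hz, hbq x hx, hbq y hy, hbq z hz,
      hD0q, hMdef]
    simp only [det3]; ring
  have hQM : W.e * (W.e ^ q * (W.e ^ q * Q)) = Gk * D0 ^ q * M := by
    have : W.e * (W.e ^ q * (W.e ^ q * Q)) = det3 (fun t => W.e * a t)
        (fun t => W.e ^ q * a t ^ q) (fun t => W.e ^ q * b t ^ q) x y z := by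
      simp only [hQ, det3]; ring
    rw [this]
    simp only [det3]
    rw [ha x hx, ha y hy, ha z hz, haq x hx, haq y hy, haq z hz, hbq x hx, hbq y hy, hbq z hz,
      hD0q, hMdef]
    simp only [det3]; ring
  have hPd : P.natDegree ≤ B + q * A + q * B :=
    natDegree_det3 (hB x hx) (hB y hy) (hB z hz) (hAq x hx) (hAq y hy) (hAq z hz)
      (hBq x hx) (hBq y hy) (hBq z hz)
  have hQd : Q.natDegree ≤ A + q * A + q * B :=
    natDegree_det3 (hA x hx) (hA y hy) (hA z hz) (hAq x hx) (hAq y hy) (hAq z hz)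
      (hBq x hx) (hBq y hy) (hBq z hz)
  have hr : ∀ s ∈ W.S, (W.e * (W.e * (W.e ^ q * W.e ^ q))) * (Q * b s - P * a s)
      = (D0 * D0 ^ q * M) * s ^ q := by
    intro s hs
    have : (W.e * (W.e * (W.e ^ q * W.e ^ q))) * (Q * b s - P * a s)
        = (W.e * (W.e ^ q * (W.e ^ q * Q))) * (W.e * b s)
          - (W.e * (W.e ^ q * (W.e ^ q * P))) * (W.e * a s) := by ring
    rw [this, hPM, hQM, ha s hs, hb s hs, hD0]; ring
  have hh := height_lemma W.S W.hprim
    (mul_ne_zero (mul_ne_zero hD00 (pow_ne_zero q hD00)) hM) (fun s => Q * b s - P * a s) hr ht ht0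
  have hrd : (Q * b t - P * a t).natDegree ≤ (q + 1) * (A + B) := by
    refine (natDegree_sub_le _ _).trans (max_le ?_ ?_)
    · refine natDegree_mul_le.trans ?_
      have := hB t ht
      nlinarith
    · refine natDegree_mul_le.trans ?_
      have := hA t ht
      nlinarith
  rw [htd] at hh
  exact har (hh.trans hrd)

end Geo

end Pool.Agent.Lib.MP_1b9c20_nt
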