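import Pool.Agent.Lib.MP_1b9c20_nt.GeoA

/-! The inseparable case over a perfect field of constants. -/

set_option autoImplicit false

namespace Pool.Agent.Lib.MP_1b9c20_nt

open Polynomial

variable {k : Type} [Field k] {q : ℕ}

theorem Semi.comb {l l' : k[X] → k[X]} (h : Semi q l) (h' : Semi q l') (a b : k[X]) :
    Semi q fun f => a * l f + b * l' f :=
  ⟨fun f g => by rw [h.add, h'.add]; ring, fun f g => by rw [h.mul, h'.mul]; ring⟩

theorem Car.exists_minor (C : Car k q) {u v : k[X]} (hW : derivative u * v ≠ u * derivative v) :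
    ∃ i < q, ∃ j < q, C.c i v * C.c j u - C.c j v * C.c i u ≠ 0 := by
  by_contra hcon
  push Not at hcon
  have hv : v ≠ 0 := by rintro rfl; simp at hW
  obtain ⟨j, hj, hvj⟩ : ∃ j < q, C.c j v ≠ 0 := by
    by_contra h
    push Not at h
    exact hv (C.ext _ _ fun i hi => by rw [h i hi, (C.semi i hi).zero])
  have e1 : u * C.c j v ^ q = v * C.c j u ^ q := C.ext _ _ fun i hi => by
    rw [(C.semi i hi).mul, (C.semi i hi).mul]
    linear_combination -hcon i hi j hj
  have e2 := congrArg derivative e1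
  rw [derivative_mul, derivative_mul, C.der, C.der] at e2
  apply hW
  apply mul_left_cancel₀ (pow_ne_zero q hvj)
  linear_combination v * e2 - derivative v * e1

theorem Car.quad (C : Car k q) {u v a b c d : k[X]} (hW : derivative u * v ≠ u * derivative v)
    (h : u * (v * a ^ q + u * b ^ q) = v * (v * c ^ q + u * d ^ q)) : b = 0 := by
  by_contra hb
  have hW' := sub_ne_zero.2 hW
  have e1 := congrArg derivative h
  simp only [derivative_mul, derivative_add, C.der] at e1
  have e2 : 2 * b ^ q * u + (a ^ q - d ^ q) * v = 0 := by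
    apply mul_left_cancel₀ hW'
    linear_combination v * e1 - 2 * derivative v * h
  have e3 := congrArg derivative e2
  simp only [derivative_mul, derivative_add, derivative_sub, C.der, derivative_ofNat,
    derivative_zero] at e3
  have e4 : 2 * b ^ q = 0 := by
    apply mul_left_cancel₀ hW'
    linear_combination v * e3 - derivative v * e2
  have e5 : a ^ q - d ^ q = 0 := by
    apply mul_left_cancel₀ hW'
    linear_combination derivative u * e2 - u * e3
  obtain ⟨m, hm, hder⟩ := C.two ((mul_eq_zero.1 e4).resolve_right (pow_ne_zero _ hb))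
  have e6 : (b ^ m * u) ^ 2 = (c ^ m * v) ^ 2 := by
    have hb2 : b ^ q = (b ^ m) ^ 2 := by rw [hm, mul_comm, pow_mul]
    have hc2 : c ^ q = (c ^ m) ^ 2 := by rw [hm, mul_comm, pow_mul]
    rw [mul_pow, mul_pow, ← hb2, ← hc2]
    linear_combination h - u * v * e5
  rcases sq_eq_sq_iff_eq_or_eq_neg.1 e6 with e7 | e7
  · have e8 := congrArg derivative e7
    rw [derivative_mul, derivative_mul, hder, hder] at e8
    refine mul_ne_zero (pow_ne_zero m hb) hW' ?_
    linear_combination v * e8 - derivative v * e7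
  · have e8 := congrArg derivative e7
    rw [derivative_neg, derivative_mul, derivative_mul, hder, hder] at e8
    refine mul_ne_zero (pow_ne_zero m hb) hW' ?_
    linear_combination v * e8 - derivative v * e7

namespace Geo

variable {δ : ℕ} (W : Geo k q δ) (C : Car k q) {a : k[X] → k[X]} {lam g₁ d₁ ρ : k[X]}

include C in
theorem indep_two (hlam : lam ≠ 0) (hd : d₁ ≠ 0) (hρ : ρ ≠ 0)
    (ha : ∀ x ∈ W.S, lam * a x = g₁ * x + d₁ * x ^ q)
    (hR : ∀ x ∈ W.S, W.v * W.Φ x - W.u * x = ρ * a x ^ q) {c₀ c₁ c₂ : k[X]}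
    (h : ∀ t ∈ W.S, c₀ * t + c₁ * a t + c₂ * W.Φ t = 0) : c₀ = 0 ∧ c₂ = 0 := by
  have hv : W.v ≠ 0 := fun h0 => W.hW (by simp [h0])
  have hlq := pow_ne_zero q hlam
  obtain ⟨e0, e1, e2⟩ := W.indep
    (c₀ := c₀ * W.v * lam ^ q * lam + c₁ * W.v * lam ^ q * g₁ + c₂ * lam * lam ^ q * W.u)
    (c₁ := c₁ * W.v * lam ^ q * d₁ + c₂ * lam * ρ * g₁ ^ q) (c₂ := c₂ * lam * ρ * d₁ ^ q)
    (fun t ht => by
      have h1 := congrArg (· ^ q) (ha t ht)
      simp only [C.fr, mul_pow] at h1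
      linear_combination W.v * lam ^ q * lam * h t ht - c₁ * W.v * lam ^ q * ha t ht
        - c₂ * lam * lam ^ q * hR t ht - c₂ * lam * ρ * h1)
  have h2 : c₂ = 0 := by
    simpa [hlam, hρ, pow_ne_zero q hd] using e2
  subst h2
  have h1 : c₁ = 0 := by
    simpa [hv, hlq, hd] using e1
  subst h1
  exact ⟨by simpa [hv, hlq, hlam] using e0, rfl⟩

include C in
theorem case_fin (hlam : lam ≠ 0) (hd : d₁ ≠ 0) (hρ : ρ ≠ 0)
    (ha : ∀ x ∈ W.S, lam * a x = g₁ * x + d₁ * x ^ q)
    (hR : ∀ x ∈ W.S, W.v * W.Φ x - W.u * x = ρ * a x ^ q) {μ α β : k[X]} (hμ : μ ≠ 0)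
    (U : k[X] → k[X]) (hU : ∀ s ∈ W.S, μ * s = α * s ^ q + β * U s ^ q) : False := by
  have hq := W.hq
  have hβ : β ≠ 0 := by
    rintro rfl
    exact hμ (W.indep (c₀ := μ) (c₁ := -α) (c₂ := 0) fun t ht => by
      linear_combination hU t ht).1
  obtain ⟨n, hn⟩ : ∃ n, q = n + 1 := ⟨q - 1, by omega⟩
  have hβq : β ^ q = β ^ n * β := by rw [hn, pow_succ]
  set α' := α * β ^ n with hα'
  set ρ' := μ * ρ * β ^ n with hρ'
  have rel : ∀ l : k[X] → k[X], Semi q l → ∀ s ∈ W.S,
      l (W.u * α') * s + l W.u * (β * U s) + l ρ' * a s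
        = l (W.v * α') * W.Φ s + l W.v * (β * U (W.Φ s)) := by
    intro l hl s hs
    rw [← hl.mul, ← hl.mul, ← hl.mul, ← hl.mul, ← hl.mul, ← hl.add, ← hl.add, ← hl.add]
    congr 1
    rw [mul_pow, mul_pow, hβq, hα', hρ']
    linear_combination β ^ n * W.v * hU _ (W.hΦ s hs) - β ^ n * W.u * hU s hs
      - β ^ n * μ * hR s hs
  obtain ⟨i, hi, j, hj, hm⟩ := C.exists_minor W.hW
  set m := C.c i W.v * C.c j W.u - C.c j W.v * C.c i W.u with hmd
  set bb : k[X] → k[X] := fun f => C.c i W.v * C.c j f + -C.c j W.v * C.c i f with hbb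
  set aa : k[X] → k[X] := fun f => C.c j W.u * C.c i f + -C.c i W.u * C.c j f with haa
  have sb : Semi q bb := (C.semi j hj).comb (C.semi i hi) _ _
  have sa : Semi q aa := (C.semi i hi).comb (C.semi j hj) _ _
  have bv : bb W.v = 0 := by simp only [hbb]; ring
  have bu : bb W.u = m := by simp only [hbb, hmd]; ring
  have av : aa W.v = m := by simp only [haa, hmd]; ring
  have au : aa W.u = 0 := by simp only [haa]; ring
  have hl : ∀ l < q,
      m * C.c l (W.u * α') = C.c l W.v * aa (W.u * α') + C.c l W.u * bb (W.u * α') ∧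
      m * C.c l (W.v * α') = C.c l W.v * aa (W.v * α') + C.c l W.u * bb (W.v * α') := by
    intro l hl
    have s1 := (C.semi l hl).comb (sa.comb sb (C.c l W.v) (C.c l W.u)) m (-1)
    have s2 := rel _ s1
    simp only [bv, bu, av, au] at s2
    obtain ⟨e0, e2⟩ := W.indep_two C hlam hd hρ ha hR
      (c₀ := m * C.c l (W.u * α') - (C.c l W.v * aa (W.u * α') + C.c l W.u * bb (W.u * α')))
      (c₁ := m * C.c l ρ' - (C.c l W.v * aa ρ' + C.c l W.u * bb ρ'))
      (c₂ := -(m * C.c l (W.v * α') - (C.c l W.v * aa (W.v * α') + C.c l W.u * bb (W.v * α'))))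
      fun t ht => by linear_combination s2 t ht
    exact ⟨sub_eq_zero.1 e0, sub_eq_zero.1 (neg_eq_zero.1 e2)⟩
  have e1 : W.u * α' * m ^ q = W.v * aa (W.u * α') ^ q + W.u * bb (W.u * α') ^ q :=
    C.ext _ _ fun l hl' => by
      rw [(C.semi l hl').add, (C.semi l hl').mul, (C.semi l hl').mul, (C.semi l hl').mul,
        ← (hl l hl').1, mul_comm]
  have e2 : W.v * α' * m ^ q = W.v * aa (W.v * α') ^ q + W.u * bb (W.v * α') ^ q :=
    C.ext _ _ fun l hl' => by
      rw [(C.semi l hl').add, (C.semi l hl').mul, (C.semi l hl').mul, (C.semi l hl').mul,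
        ← (hl l hl').2, mul_comm]
  have b0 : bb (W.v * α') = 0 := C.quad (a := aa (W.v * α')) (c := aa (W.u * α'))
    (d := bb (W.u * α')) W.hW (by rw [← e1, ← e2]; ring)
  have e3 := (W.indep (c₀ := lam ^ q * m ^ q * β ^ n * μ)
    (c₁ := lam ^ q * (bb (W.u * α') ^ q - m ^ q * α') + bb ρ' ^ q * g₁ ^ q)
    (c₂ := bb ρ' ^ q * d₁ ^ q) fun t ht => by
      have h1 := congrArg (· ^ q) (ha t ht)
      simp only [C.fr, mul_pow] at h1
      have h2 := rel bb sb t ht
      rw [b0, bv, bu, zero_mul, zero_mul, add_zero] at h2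
      have h3 := congrArg (· ^ q) h2
      simp only [C.fr, mul_pow, zero_pow (by omega : q ≠ 0)] at h3
      rw [hβq] at h3
      rw [hα']
      linear_combination lam ^ q * m ^ q * β ^ n * hU t ht + lam ^ q * h3 - bb ρ' ^ q * h1).1
  exact mul_ne_zero (mul_ne_zero (mul_ne_zero (pow_ne_zero _ hlam) (pow_ne_zero _ hm))
    (pow_ne_zero _ hβ)) hμ e3

theorem arith_two {q d A j l : ℕ} (hq : 3 ≤ q) (hd : 1 ≤ d) (hjl : j ≠ l)
    (hA : q * A ≤ d + (q - 2)) (h : 1 * d ≤ (A + d - j) / q + (A + d - l) / q) : False := by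
  have h1 := Nat.mul_div_le (A + d - j) q
  have h2 := Nat.mul_div_le (A + d - l) q
  have h3 := Nat.mul_le_mul_left q h
  rw [mul_add, one_mul] at h3
  have h4 : q * d + 1 ≤ 2 * A + 2 * d := by omega
  obtain ⟨r, rfl⟩ : ∃ r, q = r + 3 := ⟨q - 3, by omega⟩
  obtain ⟨s, rfl⟩ : ∃ s, d = s + 1 := ⟨d - 1, by omega⟩
  have h5 : (r + 3) * A ≤ s + r + 2 := by omega
  have h6 := Nat.mul_le_mul_left (r + 3) h4
  nlinarith [Nat.zero_le (r * r * s), Nat.zero_le (r * s), Nat.zero_le (r * r)]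

theorem bd_two {q δ d A j l : ℕ} (hq : 3 ≤ q) (hd : 1 ≤ d) (hjl : j ≠ l)
    (hA : q * A ≤ d + δ) (h : 1 * d ≤ (A + d - j) / q + (A + d - l) / q) : Bd q δ d := by
  refine ⟨by_contra fun hc => arith_two hq hd hjl (hA.trans (by omega)) h, ?_⟩
  have h1 := Nat.mul_div_le (A + d - j) q
  have h2 := Nat.mul_div_le (A + d - l) q
  have h3 := Nat.mul_le_mul_left q h
  rw [mul_add, one_mul] at h3
  have h4 : q * d ≤ 2 * A + 2 * d := by omega
  have h6 := Nat.mul_le_mul_left q h4
  nlinarith [Nat.zero_le (q * δ)]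

include C in
theorem case_two_core (hlam : lam ≠ 0) (hd : d₁ ≠ 0) (hρ : ρ ≠ 0)
    (ha : ∀ x ∈ W.S, lam * a x = g₁ * x + d₁ * x ^ q)
    (hR : ∀ x ∈ W.S, W.v * W.Φ x - W.u * x = ρ * a x ^ q) {d : ℕ} (hd1 : 1 ≤ d)
    (hdS : ∀ x ∈ W.S, x.natDegree ≤ d) {t : k[X]} (ht : t ∈ W.S) (ht0 : t ≠ 0)
    (htd : t.natDegree = d) : Bd q δ d := by
  have hq := W.hq
  set A := (d + δ) / q with hA
  have hdeg : ∀ x ∈ W.S, (a x).natDegree ≤ A := by
    intro x hx
    by_cases h0 : a x = 0
    · simp [h0]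
    have h1 := W.deg_R hdS hx
    rw [hR x hx, natDegree_mul hρ (pow_ne_zero _ h0), natDegree_pow] at h1
    rw [hA, Nat.le_div_iff_mul_le (by omega), mul_comm]
    omega
  set ω : k[X] → k[X] → k[X] := fun x y => a x * y - a y * x with hω
  have hωd : ∀ x ∈ W.S, ∀ y ∈ W.S, (ω x y).natDegree ≤ A + d := fun x hx y hy =>
    (natDegree_sub_le _ _).trans (max_le
      (natDegree_mul_le.trans (add_le_add (hdeg x hx) (hdS y hy)))
      (natDegree_mul_le.trans (add_le_add (hdeg y hy) (hdS x hx))))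
  have hrel : ∀ j < q, ∀ y ∈ W.S, ∀ z ∈ W.S,
      t * C.c j (ω y z) = y * C.c j (ω t z) - z * C.c j (ω t y) := by
    intro j hj y hy z hz
    have e : ω y z * t ^ q = ω t z * y ^ q - ω t y * z ^ q := by
      apply mul_left_cancel₀ hd
      simp only [hω]
      linear_combination (a t * z - a z * t) * ha y hy - (a y * z - a z * y) * ha t ht
        - (a t * y - a y * t) * ha z hz
    have := congrArg (C.c j) e
    rw [(C.semi j hj).sub, (C.semi j hj).mul, (C.semi j hj).mul, (C.semi j hj).mul] at this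
    linear_combination this
  by_cases hcase : ∃ j < q, ∃ l < q, ∃ x ∈ W.S, ∃ y ∈ W.S, ∃ z ∈ W.S,
      det3 (fun s => C.c j (ω t s)) (fun s => s) (fun s => C.c l (ω t s)) x y z ≠ 0
  · obtain ⟨j, hj, l, hl, x, hx, y, hy, z, hz, hne⟩ := hcase
    have hjl : j ≠ l := by
      rintro rfl
      exact hne (by simp only [det3]; ring)
    have hh := height_lemma W.S W.hprim (α := t * t) hne (m := 1)
      (fun s => C.c j (ω s x) * C.c l (ω y z) + C.c j (ω s y) * C.c l (ω z x)
        + C.c j (ω s z) * C.c l (ω x y)) (fun s hs => by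
        have : t * t * (C.c j (ω s x) * C.c l (ω y z) + C.c j (ω s y) * C.c l (ω z x)
            + C.c j (ω s z) * C.c l (ω x y))
            = (t * C.c j (ω s x)) * (t * C.c l (ω y z)) + (t * C.c j (ω s y)) * (t * C.c l (ω z x))
              + (t * C.c j (ω s z)) * (t * C.c l (ω x y)) := by ring
        rw [this, hrel j hj s hs x hx, hrel j hj s hs y hy, hrel j hj s hs z hz,
          hrel l hl y hy z hz, hrel l hl z hz x hx, hrel l hl x hx y hy]
        simp only [det3]; ring) ht ht0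
    have hb : ∀ x ∈ W.S, ∀ y ∈ W.S, ∀ z ∈ W.S, (C.c j (ω t x) * C.c l (ω y z)).natDegree
        ≤ (A + d - j) / q + (A + d - l) / q := fun x hx y hy z hz =>
      natDegree_mul_le.trans (add_le_add (C.deg j hj _ _ (hωd t ht x hx))
        (C.deg l hl _ _ (hωd y hy z hz)))
    rw [htd] at hh
    exact bd_two hq hd1 hjl (Nat.mul_div_le _ _) (hh.trans (natDegree_add_le_of_degree_le
      (natDegree_add_le_of_degree_le (hb x hx y hy z hz) (hb y hy z hz x hx)) (hb z hz x hx y hy)))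
  exfalso
  push Not at hcase
  obtain ⟨j, hj, y, hy, z, hz, hne⟩ : ∃ j < q, ∃ y ∈ W.S, ∃ z ∈ W.S, C.c j (ω y z) ≠ 0 := by
    by_contra hcon
    push Not at hcon
    refine mul_ne_zero hd ht0 (W.indep (c₀ := -(d₁ * t ^ q)) (c₁ := d₁ * t) (c₂ := 0)
      fun s hs => ?_).2.1
    have e : ω s t = 0 := C.ext _ _ fun i hi => by rw [hcon i hi s hs t ht, (C.semi i hi).zero]
    simp only [hω] at e
    linear_combination lam * e - t * ha s hs + s * ha t ht
  set U : k[X] → k[X] := fun s => C.c j (ω t s) with hU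
  have hN : y * U z - z * U y ≠ 0 := by
    simp only [hU]
    rw [← hrel j hj y hy z hz]
    exact mul_ne_zero ht0 hne
  set N := y * U z - z * U y with hNd
  obtain ⟨P, hP⟩ := C.sur fun l => C.c l (ω t y) * U z - C.c l (ω t z) * U y
  obtain ⟨Q, hQ⟩ := C.sur fun l => y * C.c l (ω t z) - z * C.c l (ω t y)
  refine W.case_fin C hlam hd hρ ha hR (μ := N ^ q * d₁ * t ^ q) (α := lam * P + N ^ q * d₁ * t)
    (β := lam * Q) (mul_ne_zero (mul_ne_zero (pow_ne_zero _ hN) hd) (pow_ne_zero _ ht0)) U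
    fun s hs => ?_
  have e : ω t s * N ^ q = P * s ^ q + Q * U s ^ q := C.ext _ _ fun l hl => by
    rw [(C.semi l hl).add, (C.semi l hl).mul, (C.semi l hl).mul, (C.semi l hl).mul, hP l hl,
      hQ l hl]
    have := hcase j hj l hl y hy z hz s hs
    simp only [det3] at this
    simp only [hNd, hU]
    linear_combination -this
  simp only [hω] at e
  linear_combination lam * e - N ^ q * s * ha t ht + N ^ q * t * ha s hs

include C in
theorem exists_bd : ∃ d ≤ 32 * (δ / (q - 1)), ∀ x ∈ W.S, x.natDegree ≤ d := by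
  classical
  obtain ⟨d, hd1, hd, t, ht, ht0, htd⟩ := W.exists_top
  refine ⟨d, Bd.le W.hq ?_, hd⟩
  by_cases hI : ∃ j < q, ∃ l < q, C.c j W.G * C.c l W.D ≠ C.c l W.G * C.c j W.D
  · obtain ⟨j, hj, l, hl, h0⟩ := hI
    exact W.case_one C hj hl h0 hd1 hd ht ht0 htd
  push Not at hI
  obtain ⟨l, hl, hDl⟩ : ∃ l < q, C.c l W.D ≠ 0 := by
    by_contra h
    push Not at h
    exact W.hD (C.ext _ _ fun i hi => by rw [h i hi, (C.semi i hi).zero])
  have e1 : W.G * C.c l W.D ^ q = W.D * C.c l W.G ^ q := C.ext _ _ fun i hi => by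
    rw [(C.semi i hi).mul, (C.semi i hi).mul, hI i hi l hl, mul_comm]
  obtain ⟨a, ha, hg⟩ := Finset.extract_gcd (s := W.S)
    (fun x => C.c l W.G * x + C.c l W.D * x ^ q)
    (Finset.card_pos.1 (lt_of_le_of_lt (Nat.zero_le _) W.hcard))
  set lam := W.S.gcd fun x => C.c l W.G * x + C.c l W.D * x ^ q with hlam
  have hlam0 : lam ≠ 0 := fun h0 => hDl (W.indep (c₀ := C.c l W.G) (c₁ := C.c l W.D) (c₂ := 0)
    fun t ht => by rw [zero_mul, add_zero, ha t ht, h0, zero_mul]).2.1
  obtain ⟨ρ, hρ, hR⟩ := height_gen W.S a (fun π hπ => by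
      by_contra hcon
      push Not at hcon
      have : π ∣ W.S.gcd a := Finset.dvd_gcd hcon
      rw [hg] at this
      exact hπ.not_dvd_one this)
    (α := W.e ^ q * C.c l W.D ^ q) (β := W.D * lam ^ q) (m := q)
    (mul_ne_zero (pow_ne_zero _ W.he) (pow_ne_zero _ hDl)) (mul_ne_zero W.hD (pow_ne_zero _ hlam0))
    (fun x => W.v * W.Φ x - W.u * x) fun x hx => by
      have h1 := congrArg (· ^ q) (ha x hx)
      simp only [C.fr, mul_pow] at h1
      linear_combination C.c l W.D ^ q * W.heq x hx + x ^ q * e1 + W.D * h1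
  exact W.case_two_core C hlam0 hDl hρ (fun x hx => (ha x hx).symm) hR hd1 hd ht ht0 htd

end Geo

end Pool.Agent.Lib.MP_1b9c20_nt
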