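import Pool.Agent.Lib.MP_1b9c20_nt.GeoB

/-! A stable family of bounded height has bounded size. -/

set_option autoImplicit false

namespace Pool.Agent.Lib.MP_1b9c20_nt

open Polynomial

variable {k : Type} [Field k] {q : ℕ}

theorem Car.fr_pow (C : Car k q) (i : ℕ) (f g : k[X]) :
    (f + g) ^ q ^ i = f ^ q ^ i + g ^ q ^ i := by
  induction i with
  | zero => simp
  | succ i ih => rw [pow_succ, pow_mul, pow_mul, pow_mul, ih, C.fr]

theorem Car.fr_sum (C : Car k q) (hq : q ≠ 0) (i : ℕ) {α : Type} (s : Finset α) (f : α → k[X]) :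
    (∑ a ∈ s, f a) ^ q ^ i = ∑ a ∈ s, f a ^ q ^ i := by
  classical
  induction s using Finset.induction_on with
  | empty => simp [hq]
  | insert a s ha ih => rw [Finset.sum_insert ha, Finset.sum_insert ha, C.fr_pow, ih]

theorem Car.fr_const (C : Car k q) (hq : q ≠ 0) {α : Type} (s : Finset α) (f : α → k) :
    (∑ a ∈ s, f a) ^ q = ∑ a ∈ s, f a ^ q := by
  apply Polynomial.C_injective
  have := C.fr_sum hq 1 s fun a => Polynomial.C (f a)
  simpa [map_sum] using this

/-- The number of fixed points of a semilinear map. -/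
theorem Car.card_fixed (C : Car k q) (hq : 1 < q) {ι : Type} [Fintype ι] (μ : ι → ι → k)
    (T : Finset (ι → k)) (hT : ∀ w ∈ T, ∀ a, w a = ∑ b, μ a b * w b ^ q) :
    T.card ≤ q ^ Fintype.card ι := by
  classical
  obtain ⟨B, hBT, hspan, hli⟩ := exists_linearIndependent k (T : Set (ι → k))
  have hfin : B.Finite := T.finite_toSet.subset hBT
  have : Fintype B := hfin.fintype
  have hc : Fintype.card B ≤ Fintype.card ι := by
    simpa using hli.fintype_card_le_finrank
  set R : Finset k := (X ^ q - X : k[X]).roots.toFinset with hR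
  have hne : (X ^ q - X : k[X]) ≠ 0 := FiniteField.X_pow_card_sub_X_ne_zero k hq
  have hRc : R.card ≤ q := (Multiset.toFinset_card_le _).trans ((card_roots' _).trans
    (FiniteField.X_pow_card_sub_X_natDegree_eq k hq).le)
  have hsub : T ⊆ (Fintype.piFinset fun _ : B => R).image fun c => ∑ b : B, c b • (b : ι → k) := by
    intro w hw
    have h1 : w ∈ Submodule.span k (Set.range ((↑) : B → ι → k)) := by
      rw [Subtype.range_coe, hspan]
      exact Submodule.subset_span hw
    obtain ⟨c, hcw⟩ := (Submodule.mem_span_range_iff_exists_fun k).1 h1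
    refine Finset.mem_image.2 ⟨c, Fintype.mem_piFinset.2 fun b => ?_, hcw⟩
    have h2 : ∑ b : B, (c b ^ q - c b) • (b : ι → k) = 0 := by
      funext a
      have h3 : ∀ e, w e = ∑ b : B, c b * (b : ι → k) e := fun e => by
        rw [← hcw]; simp [Finset.sum_apply]
      have h4 : w a = ∑ b : B, c b ^ q * (b : ι → k) a := by
        rw [hT w hw a]
        simp only [h3, C.fr_const (by omega : q ≠ 0), mul_pow, Finset.mul_sum]
        rw [Finset.sum_comm]
        refine Finset.sum_congr rfl fun b _ => ?_
        rw [hT b (hBT b.2) a, Finset.mul_sum]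
        exact Finset.sum_congr rfl fun e _ => by ring
      simp only [Finset.sum_apply, Pi.smul_apply, smul_eq_mul, sub_mul, Finset.sum_sub_distrib,
        Pi.zero_apply]
      rw [← h4, ← h3, sub_self]
    have h5 := Fintype.linearIndependent_iff.1 hli _ h2 b
    rw [hR, Multiset.mem_toFinset, mem_roots hne]
    simpa using h5
  calc T.card ≤ (Fintype.piFinset fun _ : B => R).card :=
        (Finset.card_le_card hsub).trans Finset.card_image_le
    _ = R.card ^ Fintype.card B := by simp
    _ ≤ q ^ Fintype.card B := Nat.pow_le_pow_left hRc _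
    _ ≤ _ := Nat.pow_le_pow_right (by omega) hc

/-- Multiplication by a nonconstant function leaves the polynomials of bounded degree. -/
theorem no_chain {u v : k[X]} (hW : derivative u * v ≠ u * derivative v) {d : ℕ} (y : ℕ → k[X])
    (hy : ∀ m, (y m).natDegree ≤ d) (hr : ∀ m ≤ d, v * y (m + 1) = u * y m) : y 0 = 0 := by
  by_contra h0
  have hv : v ≠ 0 := by rintro rfl; simp at hW
  have hne : ∀ c : k, u - C c * v ≠ 0 := by
    intro c h
    apply hW
    rw [sub_eq_zero.1 h, derivative_C_mul]
    ring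
  obtain ⟨c, hc⟩ : ∃ c : k, (u - C c * v).natDegree ≠ v.natDegree := by
    by_cases h : u.natDegree = v.natDegree
    · have hu : u ≠ 0 := by simpa using hne 0
      have hl : u.leadingCoeff / v.leadingCoeff ≠ 0 :=
        div_ne_zero (leadingCoeff_ne_zero.2 hu) (leadingCoeff_ne_zero.2 hv)
      refine ⟨u.leadingCoeff / v.leadingCoeff, ne_of_lt ?_⟩
      rw [← h]
      refine natDegree_lt_natDegree (hne _) (degree_sub_lt_left ?_ hu ?_)
      · rw [degree_C_mul hl, degree_eq_natDegree hu, degree_eq_natDegree hv, h]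
      · rw [leadingCoeff_mul, leadingCoeff_C, div_mul_cancel₀ _ (leadingCoeff_ne_zero.2 hv)]
    · exact ⟨0, by simpa using h⟩
  set w := u - C c * v with hw
  have key : ∀ r m, m + r ≤ d + 1 → ∃ z : k[X], z.natDegree ≤ d ∧ v ^ r * z = w ^ r * y m := by
    intro r
    induction r with
    | zero => exact fun m _ => ⟨y m, hy m, by simp⟩
    | succ r ih =>
      intro m hm
      obtain ⟨z1, h1, e1⟩ := ih (m + 1) (by omega)
      obtain ⟨z2, h2, e2⟩ := ih m (by omega)
      refine ⟨z1 - C c * z2, (natDegree_sub_le _ _).trans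
        (max_le h1 ((natDegree_C_mul_le _ _).trans h2)), ?_⟩
      rw [pow_succ, pow_succ]
      linear_combination v * e1 - C c * v * e2 + w ^ r * hr m (by omega) - w ^ r * y m * hw
  obtain ⟨z, hz, e⟩ := key (d + 1) 0 (by omega)
  have hz0 : z ≠ 0 := by
    rintro rfl
    exact mul_ne_zero (pow_ne_zero _ (hne c)) h0 (by rw [← e, mul_zero])
  have e1 := congrArg natDegree e
  rw [natDegree_mul (pow_ne_zero _ hv) hz0, natDegree_mul (pow_ne_zero _ (hne c)) h0,
    natDegree_pow, natDegree_pow, ← hw] at e1
  have h3 := hy 0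
  rcases lt_or_gt_of_ne hc with h | h
  · have := Nat.mul_le_mul_left (d + 1) (Nat.succ_le_of_lt h)
    rw [Nat.mul_succ] at this
    omega
  · have := Nat.mul_le_mul_left (d + 1) (Nat.succ_le_of_lt h)
    rw [Nat.mul_succ] at this
    omega

namespace Geo

variable {δ : ℕ} (W : Geo k q δ) (C : Car k q)

include C in
theorem weights {d : ℕ} (hd : ∀ x ∈ W.S, x.natDegree ≤ d) (l : W.S → k)
    (hl : ∀ i, 1 ≤ i → i ≤ 2 * d + 2 → ∑ s : W.S, Polynomial.C (l s) * (s : k[X]) ^ q ^ i = 0) :
    ∑ s : W.S, Polynomial.C (l s) * (s : k[X]) = 0 := by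
  have hv : W.v ≠ 0 := fun h0 => W.hW (by simp [h0])
  have hit : ∀ m, ∀ s ∈ W.S, W.Φ^[m] s ∈ W.S := by
    intro m s hs
    induction m with
    | zero => exact hs
    | succ m ih => rw [Function.iterate_succ_apply']; exact W.hΦ _ ih
  set Λ : ℕ → ℕ → k[X] := fun i m => ∑ s : W.S, Polynomial.C (l s) * (W.Φ^[m] s) ^ q ^ i with hΛ
  have step : ∀ i m, (W.e ^ q * W.v) ^ q ^ i * Λ i (m + 1) = (W.e ^ q * W.u) ^ q ^ i * Λ i m
      + W.G ^ q ^ i * Λ (i + 1) m + W.D ^ q ^ i * Λ (i + 2) m := by
    intro i m
    simp only [hΛ, Finset.mul_sum, ← Finset.sum_add_distrib]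
    refine Finset.sum_congr rfl fun s _ => ?_
    rw [Function.iterate_succ_apply']
    set t := W.Φ^[m] s
    have h1 : W.e ^ q * W.v * W.Φ t = W.e ^ q * W.u * t + W.G * t ^ q + W.D * (t ^ q) ^ q := by
      linear_combination W.heq t (hit m s s.2)
    have h2 := congrArg (· ^ q ^ i) h1
    simp only [C.fr_pow] at h2
    rw [mul_pow _ (W.Φ t), mul_pow _ t, mul_pow W.G, mul_pow W.D] at h2
    rw [show t ^ q ^ (i + 1) = (t ^ q) ^ q ^ i by rw [← pow_mul, pow_succ'],
      show t ^ q ^ (i + 2) = ((t ^ q) ^ q) ^ q ^ i by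
        rw [← pow_mul, ← pow_mul, pow_succ', pow_succ']]
    linear_combination Polynomial.C (l s) * h2
  have van : ∀ m i, 1 ≤ i → i + 2 * m ≤ 2 * d + 2 → Λ i m = 0 := by
    intro m
    induction m with
    | zero => exact fun i h1 h2 => hl i h1 (by omega)
    | succ m ih =>
      intro i h1 h2
      have := step i m
      rw [ih i h1 (by omega), ih (i + 1) (by omega) (by omega), ih (i + 2) (by omega) (by omega)]
        at this
      simp only [mul_zero, add_zero] at this
      exact (mul_eq_zero.1 this).resolve_left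
        (pow_ne_zero _ (mul_ne_zero (pow_ne_zero _ W.he) hv))
  have := no_chain W.hW (d := d) (Λ 0) (fun m => natDegree_sum_le_of_forall_le _ _ fun s _ =>
    (natDegree_C_mul_le _ _).trans (by simpa using hd _ (hit m s s.2))) fun m hm => by
      have := step 0 m
      rw [van m (0 + 1) (by omega) (by omega), van m (0 + 2) (by omega) (by omega)] at this
      apply mul_left_cancel₀ (pow_ne_zero q W.he)
      simp only [pow_zero, pow_one] at this
      linear_combination this
  simpa [hΛ] using this

include C in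
theorem card_le {d : ℕ} (hd : ∀ x ∈ W.S, x.natDegree ≤ d) : W.S.card ≤ q ^ (2 * (d + 1) ^ 2) := by
  classical
  have hq := W.hq
  set f : Fin (2 * d + 2) × Fin (d + 1) → W.S → k :=
    fun a s => (s : k[X]).coeff a.2 ^ q ^ (a.1 : ℕ) with hf
  have hmem : ∀ a, f a ∈ Submodule.span k (Set.range fun b s => f b s ^ q) := by
    rintro ⟨⟨i, hi⟩, j⟩
    rcases i with _ | i
    · by_contra hcon
      obtain ⟨φ, h1, h2⟩ := Submodule.exists_dual_map_eq_bot_of_notMem hcon inferInstance
      set l : W.S → k := fun s => φ fun s' => if s = s' then 1 else 0 with hl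
      have hφ : ∀ g : W.S → k, φ g = ∑ s, l s * g s := fun g => by
        rw [LinearMap.pi_apply_eq_sum_univ]
        exact Finset.sum_congr rfl fun s _ => mul_comm _ _
      have h3 := W.weights C hd l fun i h3 h4 => by
        obtain ⟨i, rfl⟩ : ∃ i', i = i' + 1 := ⟨i - 1, by omega⟩
        have h5 : ∀ s : W.S, (s : k[X]) ^ q ^ (i + 1) = ∑ n ∈ Finset.range (d + 1),
            Polynomial.C ((s : k[X]).coeff n ^ q ^ (i + 1)) * (X ^ n) ^ q ^ (i + 1) := by
          intro s
          conv_lhs => rw [as_sum_range' (s : k[X]) (d + 1) (Nat.lt_succ_of_le (hd s s.2))]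
          rw [C.fr_sum (by omega)]
          refine Finset.sum_congr rfl fun n _ => ?_
          rw [← C_mul_X_pow_eq_monomial, mul_pow, map_pow]
        simp only [h5, Finset.mul_sum]
        rw [Finset.sum_comm]
        refine Finset.sum_eq_zero fun n hn => ?_
        have h6 : φ (fun s => f (⟨i, by omega⟩, ⟨n, Finset.mem_range.1 hn⟩) s ^ q) = 0 := by
          rw [← Submodule.mem_bot k, ← h2]
          exact Submodule.mem_map_of_mem (Submodule.subset_span ⟨_, rfl⟩)
        rw [hφ] at h6
        simp only [hf, ← pow_mul, ← pow_succ] at h6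
        simp only [← mul_assoc, ← map_mul, ← Finset.sum_mul, ← map_sum]
        rw [h6, map_zero, zero_mul]
      apply h1
      have h4 := congrArg (fun p => coeff p j) h3
      rw [hφ]
      simpa [hf, finsetSum_coeff] using h4
    · refine Submodule.subset_span ⟨(⟨i, by omega⟩, j), ?_⟩
      funext s
      simp only [hf, ← pow_mul, ← pow_succ]
  choose μ hμ using fun a => (Submodule.mem_span_range_iff_exists_fun k).1 (hmem a)
  have hinj : Function.Injective fun (s : W.S) a => f a s := by
    intro s s' h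
    refine Subtype.ext (Polynomial.ext fun n => ?_)
    by_cases hn : n < d + 1
    · simpa [hf] using congrFun h (⟨0, by omega⟩, ⟨n, hn⟩)
    · rw [coeff_eq_zero_of_natDegree_lt (by have := hd s s.2; omega),
        coeff_eq_zero_of_natDegree_lt (by have := hd s' s'.2; omega)]
  have h1 := C.card_fixed (by omega) μ (Finset.univ.image fun (s : W.S) a => f a s) fun w hw a => by
    obtain ⟨s, -, rfl⟩ := Finset.mem_image.1 hw
    have := congrFun (hμ a) s
    simpa [Finset.sum_apply] using this.symm
  rw [Finset.card_image_of_injective _ hinj, Finset.card_univ, Fintype.card_coe, Fintype.card_prod,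
    Fintype.card_fin, Fintype.card_fin] at h1
  rwa [show 2 * (d + 1) ^ 2 = (2 * d + 2) * (d + 1) by ring]

include C in
theorem bound : W.S.card ≤ q ^ (2 * (32 * (δ / (q - 1)) + 1) ^ 2) := by
  have hq := W.hq
  obtain ⟨d, h1, hd⟩ := W.exists_bd C
  exact (W.card_le C hd).trans (Nat.pow_le_pow_right (by omega) (by gcongr))

end Geo

/-- Finite stable sets of rational functions have bounded size. -/
theorem Car.no_stable (C : Car k q) (hq : 3 ≤ q) {δ : ℕ} {u v : k[X]} (hu : u.natDegree ≤ δ)
    (hv : v.natDegree ≤ δ) (hW : derivative u * v ≠ u * derivative v) {g Δ : RatFunc k}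
    (hΔ : Δ ≠ 0) (f : RatFunc k → RatFunc k)
    (hf : ∀ x, f x = algebraMap k[X] (RatFunc k) u / algebraMap k[X] (RatFunc k) v * x
      + g * x ^ q + Δ * (x ^ q) ^ q)
    (S : Finset (RatFunc k)) (hstab : ∀ x ∈ S, f x ∈ S) :
    S.card ≤ q ^ (2 * (32 * (δ / (q - 1)) + 1) ^ 2) := by
  classical
  rcases le_or_gt S.card (q ^ 2) with hcard | hcard
  · exact hcard.trans (Nat.pow_le_pow_right (by omega)
      (Nat.le_mul_of_pos_right _ (by positivity)))
  obtain ⟨c, hc, P, hP, hprim⟩ := exists_scale S (by
    by_contra hcon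
    push Not at hcon
    have : S ⊆ {0} := fun x hx => by simpa using hcon x hx
    have := Finset.card_le_card this
    simp at this; nlinarith)
  have hv0 : v ≠ 0 := by rintro rfl; simp at hW
  have hv' : algebraMap k[X] (RatFunc k) v ≠ 0 := by simpa using hv0
  obtain ⟨e, G, D, he, hG, hD⟩ := exists_clear (algebraMap k[X] (RatFunc k) v * g * c / c ^ q)
    (algebraMap k[X] (RatFunc k) v * Δ * c / (c ^ q) ^ q) (q := q) (by omega)
  have he' : algebraMap k[X] (RatFunc k) e ≠ 0 := by simpa using he
  have hinj := IsFractionRing.injective k[X] (RatFunc k)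
  have hD0 : D ≠ 0 := by
    rintro rfl
    rw [map_zero] at hD
    exact mul_ne_zero (pow_ne_zero _ he') (div_ne_zero (mul_ne_zero (mul_ne_zero hv' hΔ) hc)
      (pow_ne_zero _ (pow_ne_zero _ hc))) hD.symm
  have hPinj : Set.InjOn P S := by
    intro x hx y hy hxy
    apply mul_left_cancel₀ hc
    rw [← hP x hx, ← hP y hy, hxy]
  have hback : ∀ x ∈ S, algebraMap k[X] (RatFunc k) (P x) / c = x := by
    intro x hx; rw [hP x hx]; field_simp
  rw [← Finset.card_image_of_injOn hPinj]
  exact Geo.bound
    { S := S.image P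
      Φ := fun p => P (f (algebraMap k[X] (RatFunc k) p / c))
      u := u, v := v, e := e, G := G, D := D, hq := hq, hu := hu, hv := hv, hW := hW
      he := he, hD := hD0
      hΦ := by
        intro p hp
        obtain ⟨x, hx, rfl⟩ := Finset.mem_image.1 hp
        rw [hback x hx]
        exact Finset.mem_image_of_mem _ (hstab x hx)
      heq := by
        intro p hp
        obtain ⟨x, hx, rfl⟩ := Finset.mem_image.1 hp
        apply hinj
        rw [hback x hx]
        simp only [map_mul, map_pow, map_sub, map_add, hG, hD, hP x hx, hP _ (hstab x hx)]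
        simp only [hf, mul_pow]
        field_simp
        ring
      hcard := by rw [Finset.card_image_of_injOn hPinj]; exact hcard
      hprim := by
        intro π hπ
        obtain ⟨x, hx, h⟩ := hprim π hπ
        exact ⟨P x, Finset.mem_image_of_mem _ hx, h⟩ } C

/-- The same over any field of constants. -/
theorem geo_stable (p n : ℕ) [Fact p.Prime] [CharP k p] (hq : 3 ≤ p ^ n) {δ : ℕ} {u v : k[X]}
    (hu : u.natDegree ≤ δ) (hv : v.natDegree ≤ δ)
    (hW : derivative u * v ≠ u * derivative v) {g Δ : RatFunc k}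
    (hΔ : Δ ≠ 0) (f : RatFunc k → RatFunc k)
    (hf : ∀ x, f x = algebraMap k[X] (RatFunc k) u / algebraMap k[X] (RatFunc k) v * x
      + g * x ^ p ^ n + Δ * (x ^ p ^ n) ^ p ^ n)
    (S : Finset (RatFunc k)) (hstab : ∀ x ∈ S, f x ∈ S) :
    S.card ≤ (p ^ n) ^ (2 * (32 * (δ / (p ^ n - 1)) + 1) ^ 2) := by
  classical
  let L := AlgebraicClosure k
  obtain ⟨C⟩ := exists_car (k := L) p n hq
  have hi : Function.Injective (mapRingHom (algebraMap k L)) :=
    map_injective _ (algebraMap k L).injective
  have hj : Function.Injective ((algebraMap L[X] (RatFunc L)).comp (mapRingHom (algebraMap k L))) :=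
    (IsFractionRing.injective L[X] (RatFunc L)).comp hi
  let ι : RatFunc k →+* RatFunc L := IsFractionRing.lift hj
  have hι : ∀ w : k[X], ι (algebraMap k[X] (RatFunc k) w)
      = algebraMap L[X] (RatFunc L) (w.map (algebraMap k L)) := fun w =>
    IsFractionRing.lift_algebraMap hj w
  rw [← Finset.card_image_of_injective S ι.injective]
  refine C.no_stable hq (u := u.map (algebraMap k L)) (v := v.map (algebraMap k L))
    (natDegree_map_le.trans hu) (natDegree_map_le.trans hv) (fun h => hW (hi ?_)) (g := ι g)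
    (Δ := ι Δ) (fun h => hΔ (ι.injective (h.trans (map_zero ι).symm))) _ (fun _ => rfl) _ ?_
  · simpa [derivative_map] using h
  · intro y hy
    obtain ⟨x, hx, rfl⟩ := Finset.mem_image.1 hy
    refine Finset.mem_image.2 ⟨f x, hstab x hx, ?_⟩
    rw [hf]
    simp only [map_add, map_mul, map_pow, map_div₀, hι]

end Pool.Agent.Lib.MP_1b9c20_nt
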