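import Pool.Agent.Lib.MP_1b9c20_nt.GeoC

/-! Moore determinants and spaces of additive functions on a finite set of polynomials. -/

set_option autoImplicit false

namespace Pool.Agent.Lib.MP_1b9c20_nt

open Polynomial

variable {k : Type} [Field k] {q : ℕ}

/-- The `q`-th power map as a ring homomorphism. -/
noncomputable def Car.hom (C : Car k q) (hq : q ≠ 0) : k[X] →+* k[X] where
  toFun f := f ^ q
  map_one' := one_pow q
  map_mul' f g := mul_pow f g q
  map_zero' := zero_pow hq
  map_add' := C.fr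

theorem Semi.sum {l : k[X] → k[X]} (h : Semi q l) {α : Type} (s : Finset α) (f : α → k[X]) :
    l (∑ a ∈ s, f a) = ∑ a ∈ s, l (f a) := by
  classical
  induction s using Finset.induction_on with
  | empty => simpa using h.zero
  | insert a s ha ih => rw [Finset.sum_insert ha, Finset.sum_insert ha, h.add, ih]

theorem Semi.sign {l : k[X] → k[X]} (h : Semi q l) (n : ℕ) (f : k[X]) :
    l ((-1) ^ n * f) = (-1) ^ n * l f := by
  rcases neg_one_pow_eq_or k[X] n with e | e <;> rw [e]
  · simp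
  · have := h.sub 0 f
    rw [h.zero] at this
    simpa using this

/-- The Moore determinant. -/
noncomputable def Mo (q n : ℕ) (I : Fin n → k[X]) : k[X] :=
  (Matrix.of fun i a : Fin n => I a ^ q ^ (i : ℕ)).det

theorem mo_lap (n : ℕ) (I f : Fin (n + 1) → k[X]) :
    ((Matrix.of fun i a : Fin (n + 1) => I a ^ q ^ (i : ℕ)).updateRow (Fin.last n) f).det
      = (-1) ^ n * ∑ a : Fin (n + 1), (-1) ^ (a : ℕ) * f a * Mo q n (I ∘ a.succAbove) := by
  rw [Matrix.det_succ_row _ (Fin.last n), Finset.mul_sum]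
  refine Finset.sum_congr rfl fun a _ => ?_
  have : ((Matrix.of fun i a : Fin (n + 1) => I a ^ q ^ (i : ℕ)).updateRow (Fin.last n) f).submatrix
      (Fin.last n).succAbove a.succAbove
      = Matrix.of fun i b : Fin n => (I ∘ a.succAbove) b ^ q ^ (i : ℕ) := by
    ext i b : 2
    simp
  rw [this, Matrix.updateRow_self, Fin.val_last, pow_add, Mo]
  ring

theorem mo_low {n m : ℕ} (hm : m < n) (I : Fin (n + 1) → k[X]) :
    ∑ a : Fin (n + 1), (-1) ^ (a : ℕ) * I a ^ q ^ m * Mo q n (I ∘ a.succAbove) = 0 := by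
  have h := mo_lap (q := q) n I fun a => I a ^ q ^ m
  have h2 := Matrix.det_updateRow_eq_zero
    (M := Matrix.of fun i a : Fin (n + 1) => I a ^ q ^ (i : ℕ)) (i := ⟨m, by omega⟩)
    (j := Fin.last n) (fun e => by have := congrArg Fin.val e; simp at this; omega)
  exact (mul_eq_zero.1 (h.symm.trans h2)).resolve_left (pow_ne_zero _ (by simp))

theorem mo_top (n : ℕ) (I : Fin (n + 1) → k[X]) :
    (-1) ^ n * ∑ a : Fin (n + 1), (-1) ^ (a : ℕ) * I a ^ q ^ n * Mo q n (I ∘ a.succAbove)
      = Mo q (n + 1) I := by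
  rw [← mo_lap (q := q) n I fun a => I a ^ q ^ n, Mo]
  congr 1
  exact Matrix.updateRow_eq_self _ (Fin.last n)

theorem Car.mo_col (C : Car k q) (hq : q ≠ 0) (n : ℕ) (J : Fin n → k[X]) :
    ∃ c : Fin (n + 1) → k[X], c 0 = Mo q n J ^ q ∧ c (Fin.last n) = (-1) ^ n * Mo q n J ∧
      ∀ s, Mo q (n + 1) (Fin.cons s J) = ∑ i, c i * s ^ q ^ (i : ℕ) := by
  refine ⟨fun i => (-1) ^ (i : ℕ) *
    (Matrix.of fun j a : Fin n => J a ^ q ^ (i.succAbove j : ℕ)).det, ?_, ?_, fun s => ?_⟩
  · have := RingHom.map_det (C.hom hq) (Matrix.of fun i a : Fin n => J a ^ q ^ (i : ℕ))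
    simp only [Fin.val_zero, pow_zero, one_mul]
    refine Eq.trans ?_ this.symm
    congr 1
    ext i a : 2
    simp [Car.hom, pow_succ, pow_mul]
  · simp [Mo]
  · rw [Mo, Matrix.det_succ_column_zero]
    refine Finset.sum_congr rfl fun i _ => ?_
    have : (Matrix.of fun i a : Fin (n + 1) => (Fin.cons s J : Fin (n + 1) → k[X]) a ^ q ^ (i : ℕ)
        ).submatrix i.succAbove Fin.succ
        = Matrix.of fun j a : Fin n => J a ^ q ^ (i.succAbove j : ℕ) := by
      ext j a : 2
      simp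
    rw [this]
    simp only [Matrix.of_apply, Fin.cons_zero]
    ring

theorem exists_mo (C : Car k q) (hq : 1 < q) (S : Finset k[X]) (n : ℕ) (hS : q ^ n < S.card) :
    ∀ m ≤ n + 1, ∃ I : Fin m → k[X], (∀ a, I a ∈ S) ∧ Mo q m I ≠ 0 := by
  intro m
  induction m with
  | zero => exact fun _ => ⟨Fin.elim0, fun a => a.elim0, by simp [Mo]⟩
  | succ m ih =>
    intro hm
    obtain ⟨J, hJ, h0⟩ := ih (by omega)
    obtain ⟨c, -, hc, h⟩ := C.mo_col (by omega) m J
    by_contra hcon
    push Not at hcon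
    have hP : (∑ i : Fin (m + 1), monomial (q ^ (i : ℕ)) (c i) : k[X][X]) = 0 := by
      refine eq_zero_of_natDegree_lt_card_of_eval_eq_zero' _ S (fun s hs => ?_) ?_
      · have := hcon (Fin.cons s J) fun a => Fin.cases hs hJ a
        rw [h] at this
        simpa [eval_finsetSum] using this
      · refine lt_of_le_of_lt (natDegree_sum_le_of_forall_le _ _ fun i _ =>
          (natDegree_monomial_le _).trans (Nat.pow_le_pow_right (by omega) ?_)) hS
        omega
    have h1 := congrArg (fun p => coeff p (q ^ m)) hP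
    simp only [finsetSum_coeff, coeff_monomial, coeff_zero] at h1
    rw [Finset.sum_eq_single (Fin.last m)] at h1
    · rw [Fin.val_last, if_pos rfl, hc] at h1
      exact mul_ne_zero (pow_ne_zero _ (by simp)) h0 h1
    · intro i _ hi
      rw [if_neg]
      intro e
      exact hi (Fin.ext (Nat.pow_right_injective hq e))
    · simp

section spaces

variable (q) (S : Finset k[X])

/-- The functions `s ↦ s ^ q ^ i`. -/
noncomputable def gen (i : ℕ) : S → k[X] := fun s => (s : k[X]) ^ q ^ i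

/-- The span of the functions with `a ≤ i < b`. -/
noncomputable def Sp0 (a b : ℕ) : Submodule k[X] (S → k[X]) :=
  Submodule.span k[X] (gen q S '' Set.Ico a b)

/-- Its saturation. -/
noncomputable def Sp (a b : ℕ) : Submodule k[X] (S → k[X]) where
  carrier := {f | ∃ ε : k[X], ε ≠ 0 ∧ ε • f ∈ Sp0 q S a b}
  add_mem' := by
    rintro f g ⟨ε, h0, hf⟩ ⟨ε', h0', hg⟩
    refine ⟨ε * ε', mul_ne_zero h0 h0', ?_⟩
    rw [smul_add, mul_smul ε ε' g, mul_comm, mul_smul]
    exact Submodule.add_mem _ (Submodule.smul_mem _ _ hf) (Submodule.smul_mem _ _ hg)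
  zero_mem' := ⟨1, one_ne_zero, by simp⟩
  smul_mem' := by
    rintro c f ⟨ε, h0, hf⟩
    exact ⟨ε, h0, by rw [smul_comm]; exact Submodule.smul_mem _ _ hf⟩

variable {q S}

theorem sp_of {a b : ℕ} {f : S → k[X]} (h : f ∈ Sp0 q S a b) : f ∈ Sp q S a b :=
  ⟨1, one_ne_zero, by simpa using h⟩

theorem gen_mem0 {a b i : ℕ} (h1 : a ≤ i) (h2 : i < b) : gen q S i ∈ Sp0 q S a b :=
  Submodule.subset_span ⟨i, ⟨h1, h2⟩, rfl⟩

theorem gen_mem {a b i : ℕ} (h1 : a ≤ i) (h2 : i < b) : gen q S i ∈ Sp q S a b :=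
  sp_of (gen_mem0 h1 h2)

theorem sp_cancel {a b : ℕ} {f : S → k[X]} {c : k[X]} (hc : c ≠ 0) (h : c • f ∈ Sp q S a b) :
    f ∈ Sp q S a b := by
  obtain ⟨ε, h0, hf⟩ := h
  exact ⟨ε * c, mul_ne_zero h0 hc, by rwa [mul_smul]⟩

theorem sp_mono {a b b' : ℕ} (hb : b ≤ b') {f : S → k[X]} (h : f ∈ Sp q S a b) :
    f ∈ Sp q S a b' := by
  obtain ⟨ε, h0, hf⟩ := h
  exact ⟨ε, h0, Submodule.span_mono (Set.image_mono (Set.Ico_subset_Ico_right hb)) hf⟩

theorem Car.sp_pow (C : Car k q) (hq : q ≠ 0) {b : ℕ} {f : S → k[X]} (h : f ∈ Sp q S 0 b) :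
    (fun s => f s ^ q) ∈ Sp q S 1 (b + 1) := by
  obtain ⟨ε, h0, hf⟩ := h
  have key : ∀ g ∈ Sp0 q S 0 b, (fun s => g s ^ q) ∈ Sp0 q S 1 (b + 1) := by
    intro g hg
    induction hg using Submodule.span_induction with
    | mem x hx =>
      obtain ⟨i, hi, rfl⟩ := hx
      have := gen_mem0 (q := q) (S := S) (a := 1) (b := b + 1) (i := i + 1) (by omega)
        (by have := hi.2; omega)
      convert this using 1
      funext s
      simp [gen, pow_succ, pow_mul]
    | zero =>
      convert Submodule.zero_mem (Sp0 q S 1 (b + 1)) using 1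
      funext s
      simp [zero_pow hq]
    | add x y _ _ hx hy =>
      convert Submodule.add_mem _ hx hy using 1
      funext s
      simp [C.fr]
    | smul c x _ hx =>
      convert Submodule.smul_mem _ (c ^ q) hx using 1
      funext s
      simp [mul_pow]
  refine ⟨ε ^ q, pow_ne_zero _ h0, ?_⟩
  convert key _ hf using 1
  funext s
  simp [mul_pow]

theorem Semi.sp {l : k[X] → k[X]} (hl : Semi q l) (hq : q ≠ 0) {b : ℕ} {f : S → k[X]}
    (h : f ∈ Sp q S 1 (b + 1)) : (fun s => l (f s)) ∈ Sp q S 0 b := by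
  obtain ⟨ε, h0, hf⟩ := h
  have key : ∀ g ∈ Sp0 q S 1 (b + 1), ∀ c, (fun s => l (c * g s)) ∈ Sp0 q S 0 b := by
    intro g hg
    induction hg using Submodule.span_induction with
    | mem x hx =>
      obtain ⟨i, hi, rfl⟩ := hx
      obtain ⟨i, rfl⟩ : ∃ j, i = j + 1 := ⟨i - 1, by have := hi.1; omega⟩
      intro c
      have := gen_mem0 (q := q) (S := S) (a := 0) (b := b) (i := i) (by omega)
        (by have := hi.2; omega)
      convert Submodule.smul_mem _ (l c) this using 1
      funext s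
      simp [gen, pow_succ, pow_mul, hl.mul]
    | zero =>
      intro c
      convert Submodule.zero_mem (Sp0 q S 0 b) using 1
      funext s
      simp [hl.zero]
    | add x y _ _ hx hy =>
      intro c
      convert Submodule.add_mem _ (hx c) (hy c) using 1
      funext s
      simp [mul_add, hl.add]
    | smul a x _ hx =>
      intro c
      convert hx (c * a) using 1
      funext s
      simp [mul_assoc]
  obtain ⟨n, rfl⟩ : ∃ n, q = n + 1 := ⟨q - 1, by omega⟩
  refine ⟨ε, h0, ?_⟩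
  convert key _ hf (ε ^ n) using 1
  funext s
  simp only [Pi.smul_apply, smul_eq_mul]
  rw [mul_comm, ← hl.mul]
  congr 1
  ring

theorem card_le_of_mem (hq : 1 < q) {b : ℕ} (h : gen q S 0 ∈ Sp q S 1 (b + 1)) :
    S.card ≤ q ^ b := by
  obtain ⟨ε, h0, hf⟩ := h
  have key : ∀ g ∈ Sp0 q S 1 (b + 1), ∃ P : k[X][X], P.natDegree ≤ q ^ b ∧ P.coeff 1 = 0 ∧
      ∀ s : S, g s = P.eval (s : k[X]) := by
    intro g hg
    induction hg using Submodule.span_induction with
    | mem x hx =>
      obtain ⟨i, hi, rfl⟩ := hx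
      refine ⟨X ^ q ^ i, ?_, ?_, fun s => by simp [gen]⟩
      · rw [natDegree_X_pow]
        exact Nat.pow_le_pow_right (by omega) (by have := hi.2; omega)
      · rw [coeff_X_pow, if_neg]
        exact (Nat.one_lt_pow (by have := hi.1; omega) hq).ne
    | zero => exact ⟨0, by simp, by simp, by simp⟩
    | add x y _ _ hx hy =>
      obtain ⟨P, h1, h2, h3⟩ := hx
      obtain ⟨Q, h4, h5, h6⟩ := hy
      exact ⟨P + Q, natDegree_add_le_of_degree_le h1 h4, by simp [h2, h5], by simp [h3, h6]⟩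
    | smul a x _ hx =>
      obtain ⟨P, h1, h2, h3⟩ := hx
      exact ⟨C a * P, (natDegree_C_mul_le _ _).trans h1, by simp [h2], by simp [h3]⟩
  obtain ⟨P, h1, h2, h3⟩ := key _ hf
  by_contra hcon
  have hP : P - monomial 1 ε = 0 := by
    refine eq_zero_of_natDegree_lt_card_of_eval_eq_zero' _ S (fun s hs => ?_)
      (lt_of_le_of_lt ((natDegree_sub_le _ _).trans (max_le h1 ((natDegree_monomial_le _).trans
        (Nat.one_le_pow _ _ (by omega))))) (not_le.1 hcon))
    have := h3 ⟨s, hs⟩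
    simp only [gen, Pi.smul_apply, smul_eq_mul, pow_zero, pow_one] at this
    simp [← this]
  have := congrArg (fun p => coeff p 1) hP
  simp [h2, h0] at this

end spaces

end Pool.Agent.Lib.MP_1b9c20_nt
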