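import Pool.Agent.Lib.MP_1b9c20_nt.GeoD

/-! Heights of Moore determinants of a stable family, in any rank. -/

set_option autoImplicit false

namespace Pool.Agent.Lib.MP_1b9c20_nt

open Polynomial

variable {k : Type} [Field k] {q : ℕ}

/-- A primitive stable family of polynomials for a module of rank `r + 1`. -/
structure GeoR (k : Type) [Field k] (q δ r : ℕ) where
  S : Finset k[X]
  Φ : k[X] → k[X]
  u : k[X]
  v : k[X]
  e : k[X]
  G : ℕ → k[X]
  hq : 3 ≤ q
  hu : u.natDegree ≤ δ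
  hv : v.natDegree ≤ δ
  hW : derivative u * v ≠ u * derivative v
  he : e ≠ 0
  hD : G r ≠ 0
  hΦ : ∀ x ∈ S, Φ x ∈ S
  heq : ∀ x ∈ S, e ^ q * (v * Φ x - u * x) = ∑ m ∈ Finset.range (r + 1), G m * x ^ q ^ (m + 1)
  hcard : q ^ (2 * r + 1) < S.card
  hprim : ∀ π : k[X], Prime π → ∃ x ∈ S, ¬ π ∣ x

/-- The primitive form of the Moore determinants of a set, and their height. -/
structure Ht (q : ℕ) (S : Finset k[X]) (n : ℕ) where
  g : k[X]
  ω : (Fin n → k[X]) → k[X]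
  H : ℕ
  hg : g ≠ 0
  eq : ∀ I, (∀ a, I a ∈ S) → g * ω I = Mo q n I
  prim : ∀ π : k[X], Prime π → ∃ I ∈ Fintype.piFinset fun _ : Fin n => S, ¬ π ∣ ω I
  le : ∀ I, (∀ a, I a ∈ S) → (ω I).natDegree ≤ H
  top : ∃ I, (∀ a, I a ∈ S) ∧ ω I ≠ 0 ∧ (ω I).natDegree = H

theorem exists_ht {S : Finset k[X]} {n : ℕ} (h : ∃ I : Fin n → k[X], (∀ a, I a ∈ S) ∧ Mo q n I ≠ 0) :
    Nonempty (Ht q S n) := by
  classical
  obtain ⟨I0, hI0, h0⟩ := h
  set T := Fintype.piFinset fun _ : Fin n => S with hT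
  have hm : ∀ I : Fin n → k[X], I ∈ T ↔ ∀ a, I a ∈ S := fun I => Fintype.mem_piFinset
  obtain ⟨ω, hω, hg⟩ := Finset.extract_gcd (s := T) (Mo q n) ⟨I0, (hm _).2 hI0⟩
  have hω0 : ω I0 ≠ 0 := fun e => h0 (by rw [hω I0 ((hm _).2 hI0), e, mul_zero])
  obtain ⟨I1, hI1, hmax⟩ := Finset.exists_max_image (T.filter fun I => ω I ≠ 0)
    (fun I => (ω I).natDegree) ⟨I0, Finset.mem_filter.2 ⟨(hm _).2 hI0, hω0⟩⟩
  rw [Finset.mem_filter] at hI1
  refine ⟨⟨T.gcd (Mo q n), ω, (ω I1).natDegree, fun e => h0 (by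
    rw [hω I0 ((hm _).2 hI0), e, zero_mul]), fun I hI => (hω I ((hm _).2 hI)).symm, fun π hπ => ?_,
    fun I hI => ?_, I1, (hm _).1 hI1.1, hI1.2, rfl⟩⟩
  · by_contra hcon
    push Not at hcon
    have : π ∣ T.gcd ω := Finset.dvd_gcd hcon
    rw [hg] at this
    exact hπ.not_dvd_one this
  · by_cases e : ω I = 0
    · simp [e]
    · exact hmax I (Finset.mem_filter.2 ⟨(hm _).2 hI, e⟩)

theorem Ht.le_of {S : Finset k[X]} {n : ℕ} (A : Ht q S n) {α β : k[X]} (hα : α ≠ 0) (hβ : β ≠ 0)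
    (ρ : (Fin n → k[X]) → k[X]) {N : ℕ}
    (h : ∀ I, (∀ a, I a ∈ S) → α * ρ I = β * Mo q n I ∧ (ρ I).natDegree ≤ N) : A.H ≤ N := by
  obtain ⟨l, hl, e⟩ := height_gen (Fintype.piFinset fun _ : Fin n => S) A.ω A.prim (m := 1) hα
    (mul_ne_zero hβ A.hg) ρ fun I hI => by
      have hI' := Fintype.mem_piFinset.1 hI
      rw [(h I hI').1, ← A.eq I hI']; ring
  obtain ⟨I, hI, h0, hd⟩ := A.top
  have h1 := (h I hI).2
  rw [e I (Fintype.mem_piFinset.2 hI), pow_one, natDegree_mul hl h0] at h1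
  omega

theorem deg_alt {n A B : ℕ} {f g : Fin n → k[X]} (hf : ∀ a, (f a).natDegree ≤ A)
    (hg : ∀ a, (g a).natDegree ≤ B) :
    (∑ a : Fin n, (-1) ^ (a : ℕ) * f a * g a).natDegree ≤ A + B := by
  refine natDegree_sum_le_of_forall_le _ _ fun a _ => natDegree_mul_le.trans (add_le_add ?_ (hg a))
  rcases neg_one_pow_eq_or k[X] a with e | e <;> simpa [e] using hf a

namespace GeoR

variable {δ r : ℕ} (W : GeoR k q δ r) (C : Car k q)

theorem v_ne : W.v ≠ 0 := fun h0 => W.hW (by simp [h0])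

theorem rel_mem : (fun s : W.S => W.v * W.Φ s - W.u * s) ∈ Sp q W.S 1 (r + 2) := by
  refine sp_cancel (pow_ne_zero q W.he) ?_
  have := Submodule.sum_mem (Sp q W.S 1 (r + 2)) (t := Finset.range (r + 1))
    (f := fun m => W.G m • gen q W.S (m + 1)) fun m hm => Submodule.smul_mem _ _
      (gen_mem (by omega) (by have := Finset.mem_range.1 hm; omega))
  convert this using 1
  funext s
  simp [gen, W.heq s s.2, Finset.sum_apply]

include C in
theorem sp_phi {b : ℕ} {f : W.S → k[X]} (h : f ∈ Sp q W.S 1 b) :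
    (fun s : W.S => f ⟨W.Φ s, W.hΦ s s.2⟩) ∈ Sp q W.S 1 (b + r + 1) := by
  have hq := W.hq
  obtain ⟨ε, h0, hf⟩ := h
  have key : ∀ g ∈ Sp0 q W.S 1 b,
      (fun s : W.S => g ⟨W.Φ s, W.hΦ s s.2⟩) ∈ Sp q W.S 1 (b + r + 1) := by
    intro g hg
    induction hg using Submodule.span_induction with
    | mem x hx =>
      obtain ⟨i, hi, rfl⟩ := hx
      refine sp_cancel (c := (W.e ^ q * W.v) ^ q ^ i)
        (pow_ne_zero _ (mul_ne_zero (pow_ne_zero _ W.he) W.v_ne)) ?_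
      have h1 := Submodule.sum_mem (Sp q W.S 1 (b + r + 1)) (t := Finset.range (r + 1))
        (f := fun m => W.G m ^ q ^ i • gen q W.S (m + 1 + i)) fun m hm => Submodule.smul_mem _ _
          (gen_mem (by omega) (by have := Finset.mem_range.1 hm; have := hi.2; omega))
      have h2 := Submodule.smul_mem (Sp q W.S 1 (b + r + 1)) ((W.e ^ q * W.u) ^ q ^ i)
        (gen_mem (i := i) hi.1 (by have := hi.2; omega))
      convert Submodule.add_mem _ h2 h1 using 1
      funext s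
      have h3 : W.e ^ q * W.v * W.Φ s = W.e ^ q * W.u * s
          + ∑ m ∈ Finset.range (r + 1), W.G m * (s : k[X]) ^ q ^ (m + 1) := by
        linear_combination W.heq s s.2
      simp only [gen, Pi.smul_apply, smul_eq_mul, Pi.add_apply, Finset.sum_apply]
      rw [← mul_pow, h3, C.fr_pow, C.fr_sum (by omega), mul_pow]
      congr 1
      refine Finset.sum_congr rfl fun m _ => ?_
      rw [mul_pow, ← pow_mul, ← pow_add]
    | zero =>
      convert Submodule.zero_mem (Sp q W.S 1 (b + r + 1)) using 1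
      funext s
      simp
    | add x y _ _ hx hy =>
      convert Submodule.add_mem _ hx hy using 1
      funext s
      simp
    | smul a x _ hx =>
      convert Submodule.smul_mem _ a hx using 1
      funext s
      simp
  refine sp_cancel h0 ?_
  convert key _ hf using 1
  funext s
  simp

include C in
theorem no_root {n : ℕ} (hn : n ≤ r) {μ β : k[X]} (hμ : μ ≠ 0) (U : k[X] → k[X])
    (h : (fun s : W.S => μ * s - β * U s ^ q) ∈ Sp q W.S 1 (n + 1)) : False := by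
  have hq := W.hq
  have fin : gen q W.S 0 ∈ Sp q W.S 1 (2 * r + 1 + 1) → False := fun h =>
    absurd (card_le_of_mem (by omega) h) (not_le.2 W.hcard)
  have h' := sp_mono (b' := 2 * r + 1 + 1) (by omega) h
  by_cases hβ : β = 0
  · refine fin (sp_cancel hμ ?_)
    convert h' using 1
    funext s
    simp [gen, hβ]
  have h1 := sp_mono (b' := 2 * r + 1 + 1) (by omega) (W.sp_phi C h)
  have h2 := sp_mono (b' := 2 * r + 1 + 1) (by omega) W.rel_mem
  have h3 : (fun s : W.S => W.u * U s ^ q - W.v * U (W.Φ s) ^ q)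
      ∈ Sp q W.S 1 (2 * r + 1 + 1) := by
    refine sp_cancel hβ ?_
    convert Submodule.sub_mem _ (Submodule.sub_mem _ (Submodule.smul_mem _ W.v h1)
      (Submodule.smul_mem _ W.u h')) (Submodule.smul_mem _ μ h2) using 1
    funext s
    simp only [Pi.smul_apply, smul_eq_mul, Pi.sub_apply]
    ring
  obtain ⟨i, hi, j, hj, hm⟩ := C.exists_minor W.hW
  have sb := (C.semi j hj).comb (C.semi i hi) (C.c i W.v) (-C.c j W.v)
  have h4 : (fun s : W.S => U s) ∈ Sp q W.S 0 (2 * r + 1) := by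
    refine sp_cancel hm ?_
    convert sb.sp (by omega) h3 using 1
    funext s
    rw [sb.sub, sb.mul, sb.mul]
    simp only [Pi.smul_apply, smul_eq_mul]
    ring
  refine fin (sp_cancel hμ ?_)
  convert Submodule.add_mem _ h' (Submodule.smul_mem _ β (C.sp_pow (by omega) h4)) using 1
  funext s
  simp [gen]

include C in
theorem step_down {n : ℕ} (hn : n ≤ r) (A : Ht q W.S n) (B : Ht q W.S (n + 1)) :
    A.H ≤ 2 * (B.H / q) := by
  have hq := W.hq
  obtain ⟨p, hp⟩ : ∃ p, q = p + 1 := ⟨q - 1, by omega⟩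
  have hgq : B.g ^ q = B.g ^ p * B.g := by rw [← pow_succ, ← hp]
  set Y : ℕ → k[X] → k[X] := fun j s => C.c j (B.g ^ p * s) with hY
  have hcons : ∀ {m : ℕ} {J : Fin m → k[X]} {s : k[X]}, (∀ a, J a ∈ W.S) → s ∈ W.S →
      ∀ a, (Fin.cons s J : Fin (m + 1) → k[X]) a ∈ W.S := fun hJ hs a => Fin.cases hs hJ a
  have F1 : ∀ j < q, ∀ J : Fin n → k[X], (∀ a, J a ∈ W.S) → ∃ c : Fin n → k[X], ∀ s ∈ W.S,
      B.g * C.c j (B.ω (Fin.cons s J)) = Mo q n J * Y j s + ∑ i, c i * s ^ q ^ (i : ℕ) := by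
    intro j hj J hJ
    obtain ⟨c, c0, -, hc⟩ := C.mo_col (by omega) n J
    refine ⟨fun i => C.c j (B.g ^ p * c i.succ), fun s hs => ?_⟩
    have e : B.ω (Fin.cons s J) * B.g ^ q = B.g ^ p * s * Mo q n J ^ q
        + ∑ i : Fin n, B.g ^ p * c i.succ * (s ^ q ^ (i : ℕ)) ^ q := by
      rw [hgq, mul_comm, mul_assoc, B.eq _ (hcons hJ hs), hc, Fin.sum_univ_succ, c0, mul_add,
        Finset.mul_sum]
      simp only [Fin.val_zero, pow_zero, pow_one, Fin.val_succ, pow_succ q, pow_mul, mul_assoc]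
      ring
    have e1 := congrArg (C.c j) e
    rw [(C.semi j hj).mul, (C.semi j hj).add, (C.semi j hj).mul, (C.semi j hj).sum] at e1
    simp only [(C.semi j hj).mul] at e1
    rw [mul_comm, e1, mul_comm]
  have F2 : ∀ l < q, ∀ I : Fin (n + 2) → k[X], (∀ a, I a ∈ W.S) → ∀ i < n,
      ∑ a : Fin (n + 2), (-1) ^ (a : ℕ) * I a ^ q ^ i * C.c l (B.ω (I ∘ a.succAbove)) = 0 := by
    intro l hl I hI i hi
    have e : ∑ a : Fin (n + 2), (-1) ^ (a : ℕ) * (B.ω (I ∘ a.succAbove) * (I a ^ q ^ i) ^ q)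
        = 0 := by
      apply mul_left_cancel₀ B.hg
      rw [mul_zero, ← mo_low (q := q) (m := i + 1) (by omega) I, Finset.mul_sum]
      refine Finset.sum_congr rfl fun a _ => ?_
      rw [← B.eq (I ∘ a.succAbove) fun b => hI _, pow_succ q, pow_mul]
      ring
    have e1 := congrArg (C.c l) e
    rw [(C.semi l hl).sum, (C.semi l hl).zero] at e1
    rw [← e1]
    refine Finset.sum_congr rfl fun a _ => ?_
    rw [(C.semi l hl).sign, (C.semi l hl).mul]
    ring
  have hdeg : ∀ j < q, ∀ I : Fin (n + 1) → k[X], (∀ a, I a ∈ W.S) →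
      (C.c j (B.ω I)).natDegree ≤ B.H / q := fun j hj I hI =>
    (C.deg j hj _ _ (B.le I hI)).trans (Nat.div_le_div_right (Nat.sub_le _ _))
  by_cases hcase : ∃ j < q, ∃ l < q, ∃ I : Fin (n + 2) → k[X], (∀ a, I a ∈ W.S) ∧
      ∑ a : Fin (n + 2), (-1) ^ (a : ℕ) * Y j (I a) * C.c l (B.ω (I ∘ a.succAbove)) ≠ 0
  · obtain ⟨j, hj, l, hl, I, hI, hκ⟩ := hcase
    rw [two_mul]
    refine A.le_of B.hg hκ (fun J => ∑ a : Fin (n + 2), (-1) ^ (a : ℕ) *
      C.c j (B.ω (Fin.cons (I a) J)) * C.c l (B.ω (I ∘ a.succAbove))) fun J hJ =>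
      ⟨?_, deg_alt (fun a => hdeg j hj _ (hcons hJ (hI a))) fun a => hdeg l hl _ fun b => hI _⟩
    obtain ⟨c, hc⟩ := F1 j hj J hJ
    have e : ∀ a : Fin (n + 2), B.g * ((-1) ^ (a : ℕ) * C.c j (B.ω (Fin.cons (I a) J))
        * C.c l (B.ω (I ∘ a.succAbove)))
        = (-1) ^ (a : ℕ) * Y j (I a) * C.c l (B.ω (I ∘ a.succAbove)) * Mo q n J
          + ∑ i : Fin n, c i * ((-1) ^ (a : ℕ) * I a ^ q ^ (i : ℕ)
            * C.c l (B.ω (I ∘ a.succAbove))) := by
      intro a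
      have e2 : ∑ i : Fin n, c i * ((-1) ^ (a : ℕ) * I a ^ q ^ (i : ℕ)
          * C.c l (B.ω (I ∘ a.succAbove))) = (-1) ^ (a : ℕ) * C.c l (B.ω (I ∘ a.succAbove))
            * ∑ i : Fin n, c i * I a ^ q ^ (i : ℕ) := by
        rw [Finset.mul_sum]
        exact Finset.sum_congr rfl fun i _ => by ring
      rw [e2]
      linear_combination (-1) ^ (a : ℕ) * C.c l (B.ω (I ∘ a.succAbove)) * hc (I a) (hI a)
    rw [Finset.mul_sum, Finset.sum_congr rfl fun a _ => e a, Finset.sum_add_distrib,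
      Finset.sum_comm, ← Finset.sum_mul, Finset.sum_eq_zero (s := Finset.univ (α := Fin n))
        fun i _ => by rw [← Finset.mul_sum, F2 l hl I hI i i.2, mul_zero], add_zero]
  exfalso
  push Not at hcase
  obtain ⟨I', hI', h0, -⟩ := B.top
  obtain ⟨l, hl, hN⟩ : ∃ l < q, C.c l (B.ω I') ≠ 0 := by
    by_contra h
    push Not at h
    exact h0 (C.ext _ _ fun i hi => by rw [h i hi, (C.semi i hi).zero])
  choose c hc using fun a : Fin (n + 1) => F1 l hl (I' ∘ a.succAbove) fun b => hI' _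
  obtain ⟨Q, hQ⟩ := C.sur fun j =>
    ∑ a : Fin (n + 1), (-1) ^ (a : ℕ) * Y j (I' a) * Mo q n (I' ∘ a.succAbove)
  choose P hP using fun i : Fin n => C.sur fun j =>
    ∑ a : Fin (n + 1), (-1) ^ (a : ℕ) * Y j (I' a) * c a i
  refine W.no_root C hn (μ := B.g ^ p * (B.g * C.c l (B.ω I')) ^ q) (β := Q)
    (mul_ne_zero (pow_ne_zero _ B.hg) (pow_ne_zero _ (mul_ne_zero B.hg hN))) (Y l) ?_
  have h1 := Submodule.sum_mem (Sp q W.S 1 (n + 1)) (t := Finset.univ)
    (f := fun i : Fin n => P i • gen q W.S (i + 1)) fun i _ => Submodule.smul_mem _ _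
      (gen_mem (by omega) (by omega))
  convert h1 using 1
  funext s
  have e : B.g ^ p * s * (B.g * C.c l (B.ω I')) ^ q
      = Q * Y l s ^ q + ∑ i : Fin n, P i * ((s : k[X]) ^ q ^ (i : ℕ)) ^ q := by
    refine C.ext _ _ fun j hj => ?_
    rw [(C.semi j hj).mul, (C.semi j hj).add, (C.semi j hj).mul, (C.semi j hj).sum, hQ j hj]
    simp only [(C.semi j hj).mul, hP _ j hj]
    have e1 := hcase j hj l hl (Fin.cons (s : k[X]) I') (hcons hI' s.2)
    rw [Fin.sum_univ_succ] at e1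
    have e2 : ∀ a : Fin (n + 1), (Fin.cons (s : k[X]) I' : Fin (n + 2) → k[X]) ∘ a.succ.succAbove
        = Fin.cons (s : k[X]) (I' ∘ a.succAbove) := by
      intro a
      funext b
      refine Fin.cases ?_ (fun b => ?_) b <;> simp
    have e3 : (Fin.cons (s : k[X]) I' : Fin (n + 2) → k[X]) ∘ (0 : Fin (n + 2)).succAbove = I' := by
      funext b; simp
    simp only [e2, e3, Fin.cons_zero, Fin.cons_succ, Fin.val_zero, pow_zero, one_mul,
      Fin.val_succ] at e1
    have e4 : B.g * ∑ a : Fin (n + 1), (-1) ^ ((a : ℕ) + 1) * Y j (I' a)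
        * C.c l (B.ω (Fin.cons (s : k[X]) (I' ∘ a.succAbove)))
        = -((∑ a : Fin (n + 1), (-1) ^ (a : ℕ) * Y j (I' a) * Mo q n (I' ∘ a.succAbove)) * Y l s
          + ∑ i : Fin n, (∑ a : Fin (n + 1), (-1) ^ (a : ℕ) * Y j (I' a) * c a i)
            * (s : k[X]) ^ q ^ (i : ℕ)) := by
      simp only [Finset.sum_mul, Finset.mul_sum]
      rw [Finset.sum_comm, ← Finset.sum_add_distrib, ← Finset.sum_neg_distrib]
      refine Finset.sum_congr rfl fun a _ => ?_
      have e5 : ∑ i : Fin n, (-1) ^ (a : ℕ) * Y j (I' a) * c a i * (s : k[X]) ^ q ^ (i : ℕ)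
          = (-1) ^ (a : ℕ) * Y j (I' a) * ∑ i : Fin n, c a i * (s : k[X]) ^ q ^ (i : ℕ) := by
        rw [Finset.mul_sum]
        exact Finset.sum_congr rfl fun i _ => by ring
      rw [e5, pow_succ]
      linear_combination (-(-1) ^ (a : ℕ) * Y j (I' a)) * hc a s s.2
    change Y j s * _ = _
    linear_combination B.g * e1 - e4
  simp only [gen, Finset.sum_apply, Pi.smul_apply, smul_eq_mul, pow_succ q, pow_mul]
  linear_combination e

include C in
theorem step_up {d : ℕ} (hd : ∀ x ∈ W.S, x.natDegree ≤ d) (A : Ht q W.S r)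
    (B : Ht q W.S (r + 1)) : B.H ≤ (d + δ) / q + A.H := by
  obtain ⟨j, hj, hD⟩ : ∃ j < q, C.c j (W.G r) ≠ 0 := by
    by_contra h
    push Not at h
    exact W.hD (C.ext _ _ fun i hi => by rw [h i hi, (C.semi i hi).zero])
  set Y : k[X] → k[X] := fun s => C.c j (W.v * W.Φ s - W.u * s) with hY
  have hYe : ∀ s ∈ W.S, W.e * Y s = ∑ m ∈ Finset.range (r + 1), C.c j (W.G m) * s ^ q ^ m := by
    intro s hs
    have := congrArg (C.c j) (W.heq s hs)
    rw [mul_comm, (C.semi j hj).mul, (C.semi j hj).sum] at this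
    simp only [pow_succ q, pow_mul, (C.semi j hj).mul] at this
    rw [mul_comm, this]
  have hYd : ∀ s ∈ W.S, (Y s).natDegree ≤ (d + δ) / q := by
    intro s hs
    refine (C.deg j hj _ (d + δ) ?_).trans (Nat.div_le_div_right (Nat.sub_le _ _))
    have h1 := W.hu
    have h2 := W.hv
    have h3 := hd s hs
    have h4 := hd _ (W.hΦ s hs)
    refine (natDegree_sub_le _ _).trans (max_le (natDegree_mul_le.trans ?_)
      (natDegree_mul_le.trans ?_)) <;> omega
  refine B.le_of (α := (-1) ^ r * (W.e * A.g)) (mul_ne_zero (pow_ne_zero _ (by simp))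
    (mul_ne_zero W.he A.hg)) hD
    (fun I => ∑ a : Fin (r + 1), (-1) ^ (a : ℕ) * Y (I a) * A.ω (I ∘ a.succAbove)) fun I hI =>
    ⟨?_, deg_alt (fun a => hYd _ (hI a)) fun a => A.le _ fun b => hI _⟩
  have e : W.e * A.g * ∑ a : Fin (r + 1), (-1) ^ (a : ℕ) * Y (I a) * A.ω (I ∘ a.succAbove)
      = ∑ m ∈ Finset.range (r + 1), C.c j (W.G m) *
        ∑ a : Fin (r + 1), (-1) ^ (a : ℕ) * I a ^ q ^ m * Mo q r (I ∘ a.succAbove) := by
    simp only [Finset.mul_sum]
    rw [Finset.sum_comm]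
    refine Finset.sum_congr rfl fun a _ => ?_
    have e5 : ∑ m ∈ Finset.range (r + 1), C.c j (W.G m) *
        ((-1) ^ (a : ℕ) * I a ^ q ^ m * Mo q r (I ∘ a.succAbove))
        = (-1) ^ (a : ℕ) * Mo q r (I ∘ a.succAbove) *
          ∑ m ∈ Finset.range (r + 1), C.c j (W.G m) * I a ^ q ^ m := by
      rw [Finset.mul_sum]
      exact Finset.sum_congr rfl fun i _ => by ring
    rw [e5, ← hYe _ (hI a), ← A.eq (I ∘ a.succAbove) fun b => hI _]
    ring
  rw [mul_assoc, e, Finset.sum_range_succ, Finset.sum_eq_zero fun m hm => by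
    rw [mo_low (Finset.mem_range.1 hm), mul_zero], zero_add, ← mo_top]
  ring

theorem base {d : ℕ} {t : k[X]} (ht : t ∈ W.S) (ht0 : t ≠ 0) (htd : t.natDegree = d)
    (A : Ht q W.S 1) : d ≤ A.H := by
  have := height_lemma W.S W.hprim (α := A.g) (β := 1) one_ne_zero (m := 1)
    (fun s => A.ω fun _ => s) (fun s hs => by rw [A.eq _ fun _ => hs]; simp [Mo]) ht ht0
  have h2 := A.le (fun _ => t) fun _ => ht
  omega

end GeoR

end Pool.Agent.Lib.MP_1b9c20_nt
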