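import Pool.Agent.Lib.MP_1b9c20_nt.GeoE

/-! The bound in rank at least three, and the bound in every rank over any field of constants. -/

set_option autoImplicit false

namespace Pool.Agent.Lib.MP_1b9c20_nt

open Polynomial

variable {k : Type} [Field k] {q : ℕ}

theorem arith_rank {q δ d H y : ℕ} (hq : 3 ≤ q) (h1 : q * d ≤ 2 * H) (h2 : q * H ≤ 2 * (y + H))
    (h3 : q * y ≤ d + δ) : d ≤ 32 * (δ / (q - 1)) := by
  obtain ⟨s, rfl⟩ : ∃ s, q = s + 3 := ⟨q - 3, by omega⟩
  rw [show s + 3 - 1 = s + 2 by omega]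
  have h4 : δ < (s + 2) * (δ / (s + 2) + 1) := Nat.lt_mul_div_succ δ (by omega)
  generalize δ / (s + 2) = m at *
  have h5 : (s + 1) * H ≤ 2 * y := by nlinarith
  have h6 : (s + 3) * ((s + 1) * H) ≤ 2 * (d + δ) := by nlinarith
  have h7 : (s + 3) * (s + 1) * ((s + 3) * d) ≤ 4 * (d + δ) := by
    have := Nat.mul_le_mul_left ((s + 3) * (s + 1)) h1
    nlinarith
  have h8 : (4 * s + 5) * d ≤ 4 * δ := by
    nlinarith [Nat.zero_le (s * s * s * d), Nat.zero_le (s * s * d), Nat.zero_le (s * d)]
  rcases Nat.eq_zero_or_pos m with rfl | hm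
  · by_contra hcon
    have := Nat.mul_le_mul_left (4 * s + 5) (show 1 ≤ d by omega)
    omega
  · have h9 : δ ≤ (s + 2) * (2 * m) := h4.le.trans (Nat.mul_le_mul_left _ (by omega))
    refine Nat.le_of_mul_le_mul_left (c := 4 * s + 5) (h8.trans ?_) (by omega)
    nlinarith [Nat.zero_le (s * m)]

namespace GeoR

variable {δ r : ℕ} (W : GeoR k q δ r) (C : Car k q)

include C in
theorem exists_bd (hr : 2 ≤ r) : ∃ d ≤ 32 * (δ / (q - 1)), ∀ x ∈ W.S, x.natDegree ≤ d := by
  classical
  have hq := W.hq
  have hmo := exists_mo C (by omega) W.S _ W.hcard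
  obtain ⟨I0, hI0, h0⟩ := hmo 1 (by omega)
  have h1 : I0 0 ≠ 0 := by simpa [Mo] using h0
  obtain ⟨t, ht, hmax⟩ := Finset.exists_max_image (W.S.erase 0) natDegree
    ⟨I0 0, Finset.mem_erase.2 ⟨h1, hI0 0⟩⟩
  rw [Finset.mem_erase] at ht
  have hd : ∀ x ∈ W.S, x.natDegree ≤ t.natDegree := fun x hx => by
    by_cases e : x = 0
    · simp [e]
    · exact hmax x (Finset.mem_erase.2 ⟨e, hx⟩)
  refine ⟨t.natDegree, ?_, hd⟩
  have hA : ∀ n ≤ r + 1, Nonempty (Ht q W.S n) := fun n hn => exists_ht (hmo n (by omega))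
  have down : ∀ n ≤ r, ∀ (A : Ht q W.S n) (B : Ht q W.S (n + 1)), q * A.H ≤ 2 * B.H := by
    intro n hn A B
    have h2 := Nat.mul_le_mul_left q (W.step_down C hn A B)
    have h3 := Nat.mul_div_le B.H q
    nlinarith
  have grow : ∀ n, n + 2 ≤ r → ∀ A : Ht q W.S (n + 2), q * t.natDegree ≤ 2 * A.H := by
    intro n
    induction n with
    | zero =>
      intro _ A
      obtain ⟨B⟩ := hA 1 (by omega)
      exact (Nat.mul_le_mul_left q (W.base ht.2 ht.1 rfl B)).trans (down 1 (by omega) B A)
    | succ n ih =>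
      intro hn A
      obtain ⟨B⟩ := hA (n + 2) (by omega)
      have h2 := ih (by omega) B
      have h3 := down (n + 2) (by omega) B A
      nlinarith
  obtain ⟨n, rfl⟩ : ∃ n, r = n + 2 := ⟨r - 2, by omega⟩
  obtain ⟨A⟩ := hA (n + 2) (by omega)
  obtain ⟨B⟩ := hA (n + 2 + 1) le_rfl
  exact arith_rank hq (grow n le_rfl A) ((down _ le_rfl A B).trans
    (Nat.mul_le_mul_left _ (W.step_up C hd A B))) (Nat.mul_div_le _ _)

include C in
theorem weights {d : ℕ} (hd : ∀ x ∈ W.S, x.natDegree ≤ d) (l : W.S → k)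
    (hl : ∀ i, 1 ≤ i → i ≤ (r + 1) * (d + 1) → ∑ s : W.S, Polynomial.C (l s) * (s : k[X]) ^ q ^ i = 0) :
    ∑ s : W.S, Polynomial.C (l s) * (s : k[X]) = 0 := by
  have hq := W.hq
  have hv := W.v_ne
  have hit : ∀ m, ∀ s ∈ W.S, W.Φ^[m] s ∈ W.S := by
    intro m s hs
    induction m with
    | zero => exact hs
    | succ m ih => rw [Function.iterate_succ_apply']; exact W.hΦ _ ih
  set Λ : ℕ → ℕ → k[X] := fun i m => ∑ s : W.S, Polynomial.C (l s) * (W.Φ^[m] s) ^ q ^ i with hΛ
  have step : ∀ i m, (W.e ^ q * W.v) ^ q ^ i * Λ i (m + 1) = (W.e ^ q * W.u) ^ q ^ i * Λ i m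
      + ∑ j ∈ Finset.range (r + 1), W.G j ^ q ^ i * Λ (j + 1 + i) m := by
    intro i m
    simp only [hΛ, Finset.mul_sum]
    rw [Finset.sum_comm, ← Finset.sum_add_distrib]
    refine Finset.sum_congr rfl fun s _ => ?_
    rw [Function.iterate_succ_apply']
    set t := W.Φ^[m] s
    have h1 : W.e ^ q * W.v * W.Φ t = W.e ^ q * W.u * t
        + ∑ j ∈ Finset.range (r + 1), W.G j * t ^ q ^ (j + 1) := by
      linear_combination W.heq t (hit m s s.2)
    rw [mul_left_comm, ← mul_pow, h1, C.fr_pow, C.fr_sum (by omega), mul_add, Finset.mul_sum,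
      mul_pow _ t, mul_left_comm]
    congr 1
    refine Finset.sum_congr rfl fun j _ => ?_
    rw [mul_pow, ← pow_mul, ← pow_add, mul_left_comm]
  have van : ∀ m i, 1 ≤ i → i + (r + 1) * m ≤ (r + 1) * (d + 1) → Λ i m = 0 := by
    intro m
    induction m with
    | zero => exact fun i h1 h2 => hl i h1 (by omega)
    | succ m ih =>
      intro i h1 h2
      rw [Nat.mul_succ] at h2
      have := step i m
      rw [ih i h1 (by omega), Finset.sum_eq_zero fun j hj => by
        rw [ih _ (by omega) (by have := Finset.mem_range.1 hj; omega), mul_zero]] at this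
      simp only [mul_zero, add_zero] at this
      exact (mul_eq_zero.1 this).resolve_left
        (pow_ne_zero _ (mul_ne_zero (pow_ne_zero _ W.he) hv))
  have := no_chain W.hW (d := d) (Λ 0) (fun m => natDegree_sum_le_of_forall_le _ _ fun s _ =>
    (natDegree_C_mul_le _ _).trans (by simpa using hd _ (hit m s s.2))) fun m hm => by
      have := step 0 m
      have h9 := Nat.mul_le_mul_left (r + 1) hm
      rw [Finset.sum_eq_zero fun j hj => by
        rw [van m _ (by omega) (by
          have := Finset.mem_range.1 hj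
          rw [Nat.mul_succ]; omega), mul_zero]] at this
      apply mul_left_cancel₀ (pow_ne_zero q W.he)
      simp only [pow_zero, pow_one] at this
      linear_combination this
  simpa [hΛ] using this

include C in
theorem card_le {d : ℕ} (hd : ∀ x ∈ W.S, x.natDegree ≤ d) : 
    W.S.card ≤ q ^ ((r + 1) * (d + 1) ^ 2) := by
  classical
  have hq := W.hq
  set f : Fin ((r + 1) * (d + 1)) × Fin (d + 1) → W.S → k :=
    fun a s => (s : k[X]).coeff a.2 ^ q ^ (a.1 : ℕ) with hf
  have hmem : ∀ a, f a ∈ Submodule.span k (Set.range fun b s => f b s ^ q) := by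
    rintro ⟨⟨i, hi⟩, j⟩
    rcases i with _ | i
    · by_contra hcon
      obtain ⟨φ, h1, h2⟩ := Submodule.exists_dual_map_eq_bot_of_notMem hcon inferInstance
      set l : W.S → k := fun s => φ fun s' => if s = s' then 1 else 0 with hl
      have hφ : ∀ g : W.S → k, φ g = ∑ s, l s * g s := fun g => by
        rw [LinearMap.pi_apply_eq_sum_univ]
        exact Finset.sum_congr rfl fun s _ => mul_comm _ _
      have h3 := W.weights C hd l fun i h3 h4 => by
        obtain ⟨i, rfl⟩ : ∃ i', i = i' + 1 := ⟨i - 1, by omega⟩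
        have h5 : ∀ s : W.S, (s : k[X]) ^ q ^ (i + 1) = ∑ n ∈ Finset.range (d + 1),
            Polynomial.C ((s : k[X]).coeff n ^ q ^ (i + 1)) * (X ^ n) ^ q ^ (i + 1) := by
          intro s
          conv_lhs => rw [as_sum_range' (s : k[X]) (d + 1) (Nat.lt_succ_of_le (hd s s.2))]
          rw [C.fr_sum (by omega)]
          refine Finset.sum_congr rfl fun n _ => ?_
          rw [← C_mul_X_pow_eq_monomial, mul_pow, map_pow]
        simp only [h5, Finset.mul_sum]
        rw [Finset.sum_comm]
        refine Finset.sum_eq_zero fun n hn => ?_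
        have h6 : φ (fun s => f (⟨i, by omega⟩, ⟨n, Finset.mem_range.1 hn⟩) s ^ q) = 0 := by
          rw [← Submodule.mem_bot k, ← h2]
          exact Submodule.mem_map_of_mem (Submodule.subset_span ⟨_, rfl⟩)
        rw [hφ] at h6
        simp only [hf, ← pow_mul, ← pow_succ] at h6
        simp only [← mul_assoc, ← map_mul, ← Finset.sum_mul, ← map_sum]
        rw [h6, map_zero, zero_mul]
      apply h1
      have h4 := congrArg (fun p => coeff p j) h3
      rw [hφ]
      simpa [hf, finsetSum_coeff] using h4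
    · refine Submodule.subset_span ⟨(⟨i, by omega⟩, j), ?_⟩
      funext s
      simp only [hf, ← pow_mul, ← pow_succ]
  choose μ hμ using fun a => (Submodule.mem_span_range_iff_exists_fun k).1 (hmem a)
  have hinj : Function.Injective fun (s : W.S) a => f a s := by
    intro s s' h
    refine Subtype.ext (Polynomial.ext fun n => ?_)
    by_cases hn : n < d + 1
    · simpa [hf] using congrFun h (⟨0, by positivity⟩, ⟨n, hn⟩)
    · rw [coeff_eq_zero_of_natDegree_lt (by have := hd s s.2; omega),
        coeff_eq_zero_of_natDegree_lt (by have := hd s' s'.2; omega)]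
  have h1 := C.card_fixed (by omega) μ (Finset.univ.image fun (s : W.S) a => f a s) fun w hw a => by
    obtain ⟨s, -, rfl⟩ := Finset.mem_image.1 hw
    have := congrFun (hμ a) s
    simpa [Finset.sum_apply] using this.symm
  rw [Finset.card_image_of_injective _ hinj, Finset.card_univ, Fintype.card_coe, Fintype.card_prod,
    Fintype.card_fin, Fintype.card_fin] at h1
  rwa [show (r + 1) * (d + 1) ^ 2 = (r + 1) * (d + 1) * (d + 1) by ring]

include C in
theorem bound (hr : 2 ≤ r) : W.S.card ≤ q ^ ((r + 1) * (32 * (δ / (q - 1)) + 1) ^ 2) := by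
  have hq := W.hq
  obtain ⟨d, h1, hd⟩ := W.exists_bd C hr
  exact (W.card_le C hd).trans (Nat.pow_le_pow_right (by omega) (by gcongr))

end GeoR

theorem exists_clear_all (a : ℕ → RatFunc k) (n : ℕ) (hq : 0 < q) :
    ∃ (e : k[X]) (G : ℕ → k[X]), e ≠ 0 ∧ ∀ m < n,
      algebraMap k[X] (RatFunc k) (G m) = algebraMap k[X] (RatFunc k) e ^ q * a m := by
  obtain ⟨e, he⟩ := IsLocalization.exist_integer_multiples (nonZeroDivisors k[X])
    (Finset.range n) a
  have he' : ∀ m, ∃ G : k[X], m < n →
      algebraMap k[X] (RatFunc k) G = algebraMap k[X] (RatFunc k) e * a m := by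
    intro m
    by_cases hm : m < n
    · obtain ⟨G, hG⟩ := he m (Finset.mem_range.2 hm)
      exact ⟨G, fun _ => by rw [hG, Algebra.smul_def]⟩
    · exact ⟨0, fun h => absurd h hm⟩
  choose G hG using he'
  obtain ⟨p, rfl⟩ : ∃ p, q = p + 1 := ⟨q - 1, by omega⟩
  refine ⟨e, fun m => e ^ p * G m, nonZeroDivisors.coe_ne_zero e, fun m hm => ?_⟩
  rw [map_mul, map_pow, hG m hm]
  ring

/-- Finite stable sets of rational functions have bounded size, in rank `r + 1 ≥ 2`. -/
theorem Car.rank_stable (C : Car k q) (hq : 3 ≤ q) {δ r : ℕ} (hr : 1 ≤ r) {u v : k[X]}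
    (hu : u.natDegree ≤ δ) (hv : v.natDegree ≤ δ) (hW : derivative u * v ≠ u * derivative v)
    {g : ℕ → RatFunc k} (hg : g r ≠ 0) (f : RatFunc k → RatFunc k)
    (hf : ∀ x, f x = algebraMap k[X] (RatFunc k) u / algebraMap k[X] (RatFunc k) v * x
      + ∑ m ∈ Finset.range (r + 1), g m * x ^ q ^ (m + 1))
    (S : Finset (RatFunc k)) (hstab : ∀ x ∈ S, f x ∈ S) :
    S.card ≤ q ^ (min (2 * r + 1) (3 * r - 1) * (32 * (δ / (q - 1)) + 1) ^ 2) := by
  classical
  rcases hr.eq_or_lt with rfl | hr
  · refine C.no_stable hq hu hv hW (g := g 0) hg f (fun x => ?_) S hstab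
    rw [hf, Finset.sum_range_succ, Finset.sum_range_one, add_assoc, ← pow_mul, ← sq]
    simp
  rw [min_eq_left (by omega)]
  rcases le_or_gt S.card (q ^ (2 * r + 1)) with hcard | hcard
  · exact hcard.trans (Nat.pow_le_pow_right (by omega)
      (Nat.le_mul_of_pos_right _ (by positivity)))
  obtain ⟨c, hc, P, hP, hprim⟩ := exists_scale S (by
    by_contra hcon
    push Not at hcon
    have : S ⊆ {0} := fun x hx => by simpa using hcon x hx
    have h1 := Finset.card_le_card this
    have h2 : 0 < q ^ (2 * r + 1) := by positivity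
    simp at h1; omega)
  have hv0 : v ≠ 0 := by rintro rfl; simp at hW
  have hv' : algebraMap k[X] (RatFunc k) v ≠ 0 := by simpa using hv0
  obtain ⟨e, G, he, hG⟩ := exists_clear_all (q := q)
    (fun m => algebraMap k[X] (RatFunc k) v * g m * c / c ^ q ^ (m + 1)) (r + 1) (by omega)
  have he' : algebraMap k[X] (RatFunc k) e ≠ 0 := by simpa using he
  have hinj := IsFractionRing.injective k[X] (RatFunc k)
  have hD0 : G r ≠ 0 := by
    intro h0
    have h1 := hG r (by omega)
    rw [h0, map_zero] at h1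
    exact mul_ne_zero (pow_ne_zero _ he') (div_ne_zero (mul_ne_zero (mul_ne_zero hv' hg) hc)
      (pow_ne_zero _ hc)) h1.symm
  have hPinj : Set.InjOn P S := by
    intro x hx y hy hxy
    apply mul_left_cancel₀ hc
    rw [← hP x hx, ← hP y hy, hxy]
  have hback : ∀ x ∈ S, algebraMap k[X] (RatFunc k) (P x) / c = x := by
    intro x hx; rw [hP x hx]; field_simp
  rw [← Finset.card_image_of_injOn hPinj]
  refine (GeoR.bound (δ := δ)
    { S := S.image P
      Φ := fun p => P (f (algebraMap k[X] (RatFunc k) p / c))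
      u := u, v := v, e := e, G := G, hq := hq, hu := hu, hv := hv, hW := hW
      he := he, hD := hD0
      hΦ := by
        intro p hp
        obtain ⟨x, hx, rfl⟩ := Finset.mem_image.1 hp
        rw [hback x hx]
        exact Finset.mem_image_of_mem _ (hstab x hx)
      heq := by
        intro p hp
        obtain ⟨x, hx, rfl⟩ := Finset.mem_image.1 hp
        apply hinj
        rw [hback x hx, map_sum, Finset.sum_congr rfl (g := fun m =>
          algebraMap k[X] (RatFunc k) e ^ q * (algebraMap k[X] (RatFunc k) v * c)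
            * (g m * x ^ q ^ (m + 1))) fun m hm => by
          rw [map_mul, map_pow, hG m (Finset.mem_range.1 hm), hP x hx, mul_pow]
          field_simp, ← Finset.mul_sum]
        simp only [map_mul, map_pow, map_sub, hP x hx, hP _ (hstab x hx)]
        rw [hf]
        field_simp
        ring
      hcard := by rw [Finset.card_image_of_injOn hPinj]; exact hcard
      hprim := by
        intro π hπ
        obtain ⟨x, hx, h⟩ := hprim π hπ
        exact ⟨P x, Finset.mem_image_of_mem _ hx, h⟩ } C hr).trans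
    (Nat.pow_le_pow_right (by omega) (Nat.mul_le_mul_right _ (by omega)))

/-- The same over any field of constants. -/
theorem rank_stable (p n : ℕ) [Fact p.Prime] [CharP k p] (hq : 3 ≤ p ^ n) {δ r : ℕ} (hr : 1 ≤ r)
    {u v : k[X]} (hu : u.natDegree ≤ δ) (hv : v.natDegree ≤ δ)
    (hW : derivative u * v ≠ u * derivative v) {g : ℕ → RatFunc k} (hg : g r ≠ 0)
    (f : RatFunc k → RatFunc k)
    (hf : ∀ x, f x = algebraMap k[X] (RatFunc k) u / algebraMap k[X] (RatFunc k) v * x
      + ∑ m ∈ Finset.range (r + 1), g m * x ^ (p ^ n) ^ (m + 1))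
    (S : Finset (RatFunc k)) (hstab : ∀ x ∈ S, f x ∈ S) :
    S.card ≤ (p ^ n) ^ (min (2 * r + 1) (3 * r - 1) * (32 * (δ / (p ^ n - 1)) + 1) ^ 2) := by
  classical
  let L := AlgebraicClosure k
  obtain ⟨C⟩ := exists_car (k := L) p n hq
  have hi : Function.Injective (mapRingHom (algebraMap k L)) :=
    map_injective _ (algebraMap k L).injective
  have hj : Function.Injective ((algebraMap L[X] (RatFunc L)).comp (mapRingHom (algebraMap k L))) :=
    (IsFractionRing.injective L[X] (RatFunc L)).comp hi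
  let ι : RatFunc k →+* RatFunc L := IsFractionRing.lift hj
  have hι : ∀ w : k[X], ι (algebraMap k[X] (RatFunc k) w)
      = algebraMap L[X] (RatFunc L) (w.map (algebraMap k L)) := fun w =>
    IsFractionRing.lift_algebraMap hj w
  rw [← Finset.card_image_of_injective S ι.injective]
  refine C.rank_stable hq hr (u := u.map (algebraMap k L)) (v := v.map (algebraMap k L))
    (natDegree_map_le.trans hu) (natDegree_map_le.trans hv) (fun h => hW (hi ?_))
    (g := fun m => ι (g m)) (fun h => hg (ι.injective (h.trans (map_zero ι).symm))) _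
    (fun _ => rfl) _ ?_
  · simpa [derivative_map] using h
  · intro y hy
    obtain ⟨x, hx, rfl⟩ := Finset.mem_image.1 hy
    refine Finset.mem_image.2 ⟨f x, hstab x hx, ?_⟩
    rw [hf]
    simp only [map_add, map_mul, map_pow, map_div₀, map_sum, hι]

end Pool.Agent.Lib.MP_1b9c20_nt
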