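import Pool.Agent.Lib.MP_1b9c20_nt.Scale

/-! The inseparable case: local analysis at a place of degree one. -/

set_option autoImplicit false

namespace Pool.Agent.Lib.MP_1b9c20_nt

open Polynomial

variable {K : Type} [Field K] [Fintype K]

theorem C_pow_card (c : K) : (RatFunc.C c : RatFunc K) ^ Fintype.card K = RatFunc.C c := by
  rw [← map_pow, FiniteField.pow_card]

theorem phi_add (g Δ x y : RatFunc K) : phi g Δ (x + y) = phi g Δ x + phi g Δ y := by
  simp only [phi, fr_add (K := K)]; ring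

theorem phi_C_mul (g Δ : RatFunc K) (c : K) (x : RatFunc K) :
    phi g Δ (RatFunc.C c * x) = RatFunc.C c * phi g Δ x := by
  simp only [phi, mul_pow, C_pow_card]; ring

theorem phi_II (γ Δ x : RatFunc K) : phi (γ ^ Fintype.card K * Δ) Δ x - RatFunc.X * x
    = Δ * (γ * x + x ^ Fintype.card K) ^ Fintype.card K := by
  simp only [phi, fr_add (K := K), mul_pow]; ring

theorem locII {γ Δ : RatFunc K} (hΔ : Δ ≠ 0) (S : Finset (RatFunc K))
    (hadd : ∀ x ∈ S, ∀ y ∈ S, x + y ∈ S) (hsm : ∀ c : K, ∀ x ∈ S, RatFunc.C c * x ∈ S)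
    (hstab : ∀ x ∈ S, phi (γ ^ Fintype.card K * Δ) Δ x ∈ S) (hcard : Fintype.card K ^ 2 < S.card)
    (a : K) (ha : ∀ x ∈ S, x ≠ 0 → phi (γ ^ Fintype.card K * Δ) Δ x ≠ RatFunc.C a * x) :
    Fintype.card K = 2 ∧
      ∃ b : K, ∃ x ∈ S, x ≠ 0 ∧ phi (γ ^ Fintype.card K * Δ) Δ x = RatFunc.C b * x := by
  classical
  have hq1 : 1 < Fintype.card K := Fintype.one_lt_card
  have hu := phi_II γ Δ
  have hφadd := phi_add (γ ^ Fintype.card K * Δ) Δ
  have hφsm := phi_C_mul (γ ^ Fintype.card K * Δ) Δ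
  set φ := phi (γ ^ Fintype.card K * Δ) Δ with hφ
  set q := Fintype.card K with hq
  set ν := fin (X - C a) (prime_X_sub_C a) with hν
  have hsub : ∀ x ∈ S, ∀ c : K, ∀ y ∈ S, x - RatFunc.C c * y ∈ S := by
    intro x hx c y hy
    have := hadd x hx _ (hsm (-c) y hy)
    rwa [map_neg, neg_mul, ← sub_eq_add_neg] at this
  have hπ : ν.Is 1 (RatFunc.X - RatFunc.C a) := by
    have := fin_is_self (prime_X_sub_C a)
    rwa [map_sub, RatFunc.algebraMap_X, RatFunc.algebraMap_C] at this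
  have hT : ν.Ge 0 RatFunc.X := by
    have := fin_ge_poly (prime_X_sub_C a) X
    rwa [RatFunc.algebraMap_X] at this
  have hne : (S.erase 0).Nonempty := by
    rw [← Finset.card_pos]
    have := Finset.pred_card_le_card_erase (s := S) (a := 0)
    have : 1 < q ^ 2 := by nlinarith
    omega
  obtain ⟨x0, hx0, hmin⟩ := Finset.exists_min_image (S.erase 0) ν.v hne
  obtain ⟨xM, hxM, hmax⟩ := Finset.exists_max_image (S.erase 0) ν.v hne
  rw [Finset.mem_erase] at hx0 hxM
  set m0 := ν.v x0 with hm0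
  set M := ν.v xM with hM
  have i0 : ν.Is m0 x0 := Val.is_self hx0.1
  have iM : ν.Is M xM := Val.is_self hxM.1
  have P1 : ∀ x ∈ S, ν.Ge m0 x := by
    intro x hx
    by_cases h : x = 0
    · exact Or.inl h
    · exact Or.inr (hmin x (Finset.mem_erase.2 ⟨h, hx⟩))
  have P3 : ∀ x ∈ S, ν.Ge (M + 1) x → x = 0 := by
    intro x hx h
    by_contra h0
    have h1 := h.le_v h0
    have h2 := hmax x (Finset.mem_erase.2 ⟨h0, hx⟩)
    omega
  have hA : ((S.erase 0).filter fun x => m0 < ν.v x).Nonempty := by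
    by_contra hcon
    have hsubset : S ⊆ Finset.univ.image fun c : K => RatFunc.C c * x0 := by
      intro x hx
      obtain ⟨c, hc⟩ := fin_res a (P1 x hx) i0
      refine Finset.mem_image.2 ⟨c, Finset.mem_univ _, ?_⟩
      by_contra h0
      have h1 : x - RatFunc.C c * x0 ≠ 0 := fun h => h0 (sub_eq_zero.1 h).symm
      have h2 : m0 + 1 ≤ ν.v (x - RatFunc.C c * x0) := hc.le_v h1
      exact hcon ⟨_, Finset.mem_filter.2
        ⟨Finset.mem_erase.2 ⟨h1, hsub x hx c x0 hx0.2⟩, by omega⟩⟩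
    have h1 := (Finset.card_le_card hsubset).trans Finset.card_image_le
    rw [Finset.card_univ] at h1
    nlinarith
  obtain ⟨x1, hx1, hmin1⟩ := Finset.exists_min_image _ ν.v hA
  rw [Finset.mem_filter, Finset.mem_erase] at hx1
  set m1 := ν.v x1 with hm1
  have i1 : ν.Is m1 x1 := Val.is_self hx1.1.1
  have h01 : m0 < m1 := hx1.2
  have P2 : ∀ x ∈ S, ν.Ge (m0 + 1) x → ν.Ge m1 x := by
    intro x hx h
    by_cases h0 : x = 0
    · exact Or.inl h0
    · have := h.le_v h0
      exact Or.inr (hmin1 x (Finset.mem_filter.2 ⟨Finset.mem_erase.2 ⟨h0, hx⟩, by omega⟩))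
  have h1M : m1 < M := by
    by_contra hcon
    have hsubset : S ⊆ Finset.univ.image
        fun c : K × K => RatFunc.C c.1 * x0 + RatFunc.C c.2 * x1 := by
      intro x hx
      obtain ⟨c, hc⟩ := fin_res a (P1 x hx) i0
      have hy := hsub x hx c x0 hx0.2
      obtain ⟨c', hc'⟩ := fin_res a (P2 _ hy hc) i1
      have h0 := P3 _ (hsub _ hy c' x1 hx1.1.2) (hc'.mono (by omega))
      exact Finset.mem_image.2 ⟨(c, c'), Finset.mem_univ _, by linear_combination -h0⟩
    have h1 := (Finset.card_le_card hsubset).trans Finset.card_image_le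
    rw [Finset.card_univ, Fintype.card_prod] at h1
    nlinarith
  have iΔ : ν.Is (ν.v Δ) Δ := Val.is_self hΔ
  set δ := ν.v Δ with hδ
  have hq0 : q ≠ 0 := by omega
  have hq2 : (2 : ℤ) ≤ q := by exact_mod_cast hq1
  -- the top element
  have htop : ∀ j : ℤ, ν.Ge j (γ * xM + xM ^ q) → δ + q * j ≤ M := by
    intro j hj
    by_contra hcon
    have h1 : ν.Ge (M + 1) (φ xM - RatFunc.X * xM) := by
      rw [hu]; exact (iΔ.ge.mul (hj.pow hq0)).mono (by omega)
    have h2 := (h1.add ((hπ.mul iM).ge' (by omega)))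
    have h3 := P3 _ (hsub _ (hstab xM hxM.2) a xM hxM.2) (by convert h2 using 1; ring)
    exact ha xM hxM.2 hxM.1 (sub_eq_zero.1 h3)
  have hlow : ∀ x ∈ S, ν.Ge m0 (φ x - RatFunc.X * x) := fun x hx =>
    (P1 _ (hstab x hx)).sub (by simpa using hT.mul (P1 x hx))
  have hunit : ∀ j : ℤ, ν.Is j (γ * x0 + x0 ^ q) → m0 ≤ δ + q * j := by
    intro j hj
    have := hlow x0 hx0.2
    rw [hu] at this
    exact this.le (iΔ.mul (hj.pow q))
  have hγ : ν.Is ((q - 1) * m0) γ := by
    rcases Val.ge_or_lt (ν := ν) ((q - 1) * m0 + 1) γ with h | h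
    · exfalso
      have e1 := hunit _ ((i0.pow q).add' ((h.mul i0.ge).mono (by nlinarith)))
      have e2 := htop (q * m0 + (M - m0)) (((h.mul iM.ge).mono (by nlinarith)).add
        ((iM.pow q).ge' (by nlinarith)))
      nlinarith
    · refine ⟨h.1, ?_⟩
      by_contra hne
      have iγ : ν.Is (ν.v γ) γ := Val.is_self h.1
      have hlt : ν.v γ < (q - 1) * m0 := by omega
      have e1 := hunit _ ((iγ.mul i0).add ((i0.pow q).ge' (by nlinarith)))
      have e2 := htop (ν.v γ + M) ((iγ.mul iM).ge.add ((iM.pow q).ge' (by nlinarith)))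
      nlinarith
  have hup : ∀ x : RatFunc K, ∀ m : ℤ, m0 < m → ν.Is m x →
      ν.Is ((q - 1) * m0 + m) (γ * x + x ^ q) := fun x m hm hx =>
    (hγ.mul hx).add ((hx.pow q).ge' (by nlinarith))
  have hup' : ∀ x : RatFunc K, ∀ m : ℤ, m0 < m → ν.Is m x →
      ν.Is (δ + q * ((q - 1) * m0 + m)) (φ x - RatFunc.X * x) := by
    intro x m hm hx
    rw [hu]; exact iΔ.mul ((hup x m hm hx).pow q)
  have t1 := htop _ (hup xM M (by omega) iM).ge
  have t2 := hup' x1 m1 h01 i1
  have t3 : δ + q * ((q - 1) * m0 + m1) < m1 := by nlinarith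
  have t4 : ν.Is (δ + q * ((q - 1) * m0 + m1)) (φ x1) := by
    have := t2.add ((hT.mul i1.ge).mono (by omega))
    simpa using this
  have t5 : δ + q * ((q - 1) * m0 + m1) = m0 := by
    have l1 := (P1 _ (hstab x1 hx1.1.2)).le t4
    by_contra hne
    have l2 := (P2 _ (hstab x1 hx1.1.2) (t4.ge' (by omega))).le t4
    omega
  rw [t5] at t4
  have t6 : m1 = m0 + 1 := by
    by_contra hne
    obtain ⟨c, hc⟩ := fin_res a (P1 _ (hsub _ (hstab x0 hx0.2) a x0 hx0.2)) t4
    have hx' := hsub x0 hx0.2 c x1 hx1.1.2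
    have ix' : ν.Is m0 (x0 - RatFunc.C c * x1) :=
      i0.sub (((ν.ge_C c).mul i1.ge).mono (by omega))
    have e : φ (x0 - RatFunc.C c * x1) = φ x0 - RatFunc.C c * φ x1 := by
      have := hφadd x0 (RatFunc.C (-c) * x1)
      rw [hφsm, map_neg, neg_mul, neg_mul, ← sub_eq_add_neg, ← sub_eq_add_neg] at this
      exact this
    set x' := x0 - RatFunc.C c * x1 with hx'def
    have hy : ν.Ge (m0 + 1) (φ x' - RatFunc.C a * x') := by
      have := hc.add ((((ν.ge_C a).mul (ν.ge_C c)).mul i1.ge).mono (by omega))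
      convert this using 1
      rw [e, hx'def]; ring
    have hy2 := P2 _ (hsub _ (hstab _ hx') a _ hx') hy
    have hu' : ν.Is (1 + m0) (φ x' - RatFunc.X * x') := by
      have := (hπ.mul ix').sub' (hy2.mono (by omega))
      convert this using 1; ring
    rw [hu] at hu'
    have hμ : γ * x' + x' ^ q ≠ 0 := by
      intro h; rw [h, zero_pow hq0, mul_zero] at hu'; exact hu'.1 rfl
    have l1 := hu'.unique (iΔ.mul ((Val.is_self hμ).pow q))
    have l2 : (q : ℤ) * (ν.v (γ * x' + x' ^ q) - ((q - 1) * m0 + m1)) = 1 := by linarith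
    have l3 : (q : ℤ) ∣ 1 := ⟨_, l2.symm⟩
    have := Int.le_of_dvd one_pos l3
    omega
  have t7 : (q : ℤ) * (M - m0 - 1) ≤ M - m0 := by rw [t6] at t5; nlinarith
  have t8 : (q : ℤ) = 2 := by
    by_contra hne
    have : (3 : ℤ) ≤ q := by omega
    nlinarith
  refine ⟨by exact_mod_cast t8, ?_⟩
  have t9 : M = m0 + 2 := by rw [t8] at t7; omega
  have t10 := hup' xM M (by omega) iM
  have t11 : ν.Ge M (φ xM) := by
    have := (t10.ge' (j := M) (by rw [t8] at t5 ⊢; omega)).add (by simpa using hT.mul iM.ge)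
    simpa using this
  obtain ⟨c, hc⟩ := fin_res a t11 iM
  exact ⟨c, xM, hxM.2, hxM.1, sub_eq_zero.1 (P3 _ (hsub _ (hstab xM hxM.2) c xM hxM.2) hc)⟩

end Pool.Agent.Lib.MP_1b9c20_nt
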