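import Pool.Agent.Lib.MP_1b9c20_nt.TwoD

/-! Assembly: no stable space of dimension at least three. -/

set_option autoImplicit false

namespace Pool.Agent.Lib.MP_1b9c20_nt

open Polynomial Module

variable {K : Type} [Field K] [Fintype K]

/-- The map `phi` as a linear map. -/
noncomputable def phiL (g Δ : RatFunc K) : RatFunc K →ₗ[K] RatFunc K where
  toFun := phi g Δ
  map_add' := phi_add g Δ
  map_smul' c x := by simp only [RatFunc.smul_eq_C_mul, phi_C_mul, RingHom.id_apply]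

theorem reduce {g Δ : RatFunc K} (V : Submodule K (RatFunc K)) [FiniteDimensional K V]
    (hV : ∀ x ∈ V, phi g Δ x ∈ V) (c : K) (x : RatFunc K) (hx : x ∈ V) (hx0 : x ≠ 0)
    (e : phi g Δ x = RatFunc.C c * x) :
    ∃ W : Submodule K (RatFunc K), FiniteDimensional K W ∧ (∀ y ∈ W, phi g Δ y ∈ W) ∧
      finrank K W + 1 = finrank K V := by
  set Φ : V →ₗ[K] V := (phiL g Δ).restrict hV with hΦ
  set Ψ : V →ₗ[K] V := Φ - c • LinearMap.id with hΨ
  have hker : Ψ ⟨x, hx⟩ = 0 := by
    apply Subtype.ext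
    simp only [hΨ, hΦ, LinearMap.sub_apply, LinearMap.smul_apply, LinearMap.id_apply,
      Submodule.coe_sub, Submodule.coe_smul, LinearMap.restrict_coe_apply, RatFunc.smul_eq_C_mul,
      Submodule.coe_zero]
    exact sub_eq_zero.2 e
  have hlt : LinearMap.range Ψ < ⊤ := by
    rw [lt_top_iff_ne_top, Ne, LinearMap.range_eq_top, ← LinearMap.injective_iff_surjective]
    intro hinj
    have := hinj (hker.trans (map_zero Ψ).symm)
    exact hx0 (congrArg Subtype.val this)
  obtain ⟨f, hf0, hf⟩ := Submodule.exists_le_ker_of_lt_top _ hlt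
  refine ⟨(LinearMap.ker f).map V.subtype, inferInstance, ?_, ?_⟩
  · rintro _ ⟨y, hy, rfl⟩
    refine ⟨Φ y, ?_, rfl⟩
    have h1 : Ψ y ∈ LinearMap.ker f := hf ⟨y, rfl⟩
    have h2 : Φ y = Ψ y + c • y := by simp [hΨ]
    rw [h2]
    exact Submodule.add_mem _ h1 (Submodule.smul_mem _ c hy)
  · rw [Submodule.finrank_map_subtype_eq]
    exact Module.Dual.finrank_ker_add_one_of_ne_zero hf0

theorem exists_finset (V : Submodule K (RatFunc K)) [FiniteDimensional K V] :
    ∃ S : Finset (RatFunc K), (∀ x, x ∈ S ↔ x ∈ V) ∧ S.card = Fintype.card K ^ finrank K V := by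
  have : Finite V := Module.finite_of_finite K
  have hfin : (V : Set (RatFunc K)).Finite := Set.toFinite _
  refine ⟨hfin.toFinset, fun x => by simp, ?_⟩
  rw [← Set.ncard_eq_toFinset_card _ hfin, ← Nat.card_coe_set_eq, ← Nat.card_eq_fintype_card]
  exact Module.natCard_eq_pow_finrank

theorem two_dim3 (hq : Fintype.card K = 2) {g Δ : RatFunc K} (hΔ : Δ ≠ 0)
    (V : Submodule K (RatFunc K)) [FiniteDimensional K V] (hV : ∀ x ∈ V, phi g Δ x ∈ V)
    (h3 : finrank K V = 3)
    (H : ((∀ z ∈ V, ∀ t ∈ V, ∀ s ∈ V, IsSquare (t * (t + z) * (s * (s + z)))) ∧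
        (∀ z ∈ V, ∀ t ∈ V, z ≠ 0 → t ≠ 0 → t + z ≠ 0 → ¬ IsSquare (t * (t + z)))) ∨
      ((∃ γ, g = γ ^ 2 * Δ) ∧ ∃ c : K, ∃ x ∈ V, x ≠ 0 ∧ phi g Δ x = RatFunc.C c * x)) :
    False := by
  let b := Module.finBasisOfFinrankEq K V h3
  have hev : ∀ v : B3, ev (b 0 : RatFunc K) (b 1) (b 2) v
      = ((bit K v.1 • b 0 + bit K v.2.1 • b 1 + bit K v.2.2 • b 2 : V) : RatFunc K) := by
    intro v
    simp only [ev, Submodule.coe_add, Submodule.coe_smul, RatFunc.smul_eq_C_mul, C_bit]
  have hmem : ∀ v : B3, ev (b 0 : RatFunc K) (b 1) (b 2) v ∈ V := by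
    intro v; rw [hev]; exact Subtype.property _
  have hbit : ∀ c : K, ∃ a : Bool, c = bit K a := by
    intro c
    rcases two_const hq c with rfl | rfl
    · exact ⟨false, by simp [bit]⟩
    · exact ⟨true, by simp [bit]⟩
  have hsurj : ∀ x ∈ V, ∃ v, x = ev (b 0 : RatFunc K) (b 1) (b 2) v := by
    intro x hx
    have := b.sum_repr ⟨x, hx⟩
    rw [Fin.sum_univ_three] at this
    obtain ⟨a0, h0⟩ := hbit (b.repr ⟨x, hx⟩ 0)
    obtain ⟨a1, h1⟩ := hbit (b.repr ⟨x, hx⟩ 1)
    obtain ⟨a2, h2⟩ := hbit (b.repr ⟨x, hx⟩ 2)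
    refine ⟨(a0, a1, a2), ?_⟩
    rw [hev, ← h0, ← h1, ← h2, this]
  have hbit0 : ∀ a : Bool, bit K a = 0 → a = false := by
    intro a; cases a <;> simp [bit]
  refine two_class hq (g := g) hΔ (b 0) (b 1) (b 2) ?_ ?_ ?_
  · intro v hv
    rw [hev] at hv
    have hv' : (bit K v.1 • b 0 + bit K v.2.1 • b 1 + bit K v.2.2 • b 2 : V) = 0 :=
      Subtype.ext hv
    have hli := Fintype.linearIndependent_iff.1 b.linearIndependent
      ![bit K v.1, bit K v.2.1, bit K v.2.2] (by rw [Fin.sum_univ_three]; exact hv')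
    obtain ⟨v0, v1, v2⟩ := v
    have a0 := hbit0 _ (hli 0)
    have a1 := hbit0 _ (hli 1)
    have a2 := hbit0 _ (hli 2)
    simp only at a0 a1 a2
    rw [a0, a1, a2]; rfl
  · intro v
    exact hsurj _ (hV _ (hmem v))
  · rcases H with ⟨hsq, hns⟩ | ⟨hγ, c, x, hx, hx0, e⟩
    · exact Or.inl ⟨fun z t s => hsq _ (hmem z) _ (hmem t) _ (hmem s),
        fun z t => hns _ (hmem z) _ (hmem t)⟩
    · obtain ⟨v, rfl⟩ := hsurj x hx
      exact Or.inr ⟨hγ, c, v, hx0, e⟩

theorem no_stable {g Δ : RatFunc K} (hΔ : Δ ≠ 0) (n : ℕ) :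
    ∀ (V : Submodule K (RatFunc K)) [FiniteDimensional K V], (∀ x ∈ V, phi g Δ x ∈ V) →
      finrank K V = n + 3 → False := by
  induction n with
  | succ n ih =>
    intro V _ hV hn
    have hno : ∀ c : K, ∀ x ∈ V, x ≠ 0 → phi g Δ x ≠ RatFunc.C c * x := by
      intro c x hx hx0 e
      obtain ⟨W, hW, hWs, hWr⟩ := reduce V hV c x hx hx0 e
      exact ih W hWs (by omega)
    obtain ⟨S, hS, hcard⟩ := exists_finset V
    have hq1 : 1 < Fintype.card K := Fintype.one_lt_card
    have hlt : Fintype.card K ^ 2 < S.card := by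
      rw [hcard]; exact Nat.pow_lt_pow_right hq1 (by omega)
    by_cases hI : ∃ γ : RatFunc K, g = γ ^ Fintype.card K * Δ
    · obtain ⟨γ, rfl⟩ := hI
      obtain ⟨-, b, x, hx, hx0, e⟩ := locII hΔ S
        (fun x hx y hy => (hS _).2 (V.add_mem ((hS _).1 hx) ((hS _).1 hy)))
        (fun c x hx => (hS _).2 (by
          rw [← RatFunc.smul_eq_C_mul]; exact V.smul_mem c ((hS _).1 hx)))
        (fun x hx => (hS _).2 (hV _ ((hS _).1 hx))) hlt 0
        (fun x hx => hno 0 x ((hS _).1 hx))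
      exact hno b x ((hS _).1 hx) hx0 e
    · obtain ⟨hq, h8, -⟩ := caseI hΔ S (fun x hx => (hS _).2 (hV _ ((hS _).1 hx))) hlt hI
      rw [hcard, hq, hn] at h8
      have : 2 ^ 4 ≤ 2 ^ (n + 1 + 3) := Nat.pow_le_pow_right (by norm_num) (by omega)
      omega
  | zero =>
    intro V _ hV hn
    obtain ⟨S, hS, hcard⟩ := exists_finset V
    have hq1 : 1 < Fintype.card K := Fintype.one_lt_card
    have hlt : Fintype.card K ^ 2 < S.card := by
      rw [hcard]; exact Nat.pow_lt_pow_right hq1 (by omega)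
    by_cases hI : ∃ γ : RatFunc K, g = γ ^ Fintype.card K * Δ
    · obtain ⟨γ, rfl⟩ := hI
      by_cases hall : ∀ c : K, ∃ x ∈ V, x ≠ 0 ∧
          phi (γ ^ Fintype.card K * Δ) Δ x = RatFunc.C c * x
      · choose v hv hv0 ev' using hall
        have hli : LinearIndependent K (fun c : K => (⟨v c, hv c⟩ : V)) := by
          apply LinearIndependent.of_comp V.subtype
          refine Module.End.eigenvectors_linearIndependent' (phiL (γ ^ Fintype.card K * Δ) Δ) id
            Function.injective_id v fun c => ⟨?_, hv0 c⟩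
          rw [Module.End.mem_eigenspace_iff, RatFunc.smul_eq_C_mul]
          exact ev' c
        have hle := hli.fintype_card_le_finrank
        rw [hn] at hle
        rcases (by omega : Fintype.card K = 2 ∨ Fintype.card K = 3) with hq | hq
        · exact two_dim3 hq hΔ V hV hn (Or.inr ⟨⟨γ, by rw [hq]⟩, 0, v 0, hv 0, hv0 0, ev' 0⟩)
        · exact three_eigen hq hΔ (hv0 0) (hv0 1) (hv0 (-1)) (ev' 0) (ev' 1) (ev' (-1))
      · push Not at hall
        obtain ⟨a, ha⟩ := hall
        obtain ⟨hq, b, x, hx, hx0, e⟩ := locII hΔ S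
          (fun x hx y hy => (hS _).2 (V.add_mem ((hS _).1 hx) ((hS _).1 hy)))
          (fun c x hx => (hS _).2 (by
            rw [← RatFunc.smul_eq_C_mul]; exact V.smul_mem c ((hS _).1 hx)))
          (fun x hx => (hS _).2 (hV _ ((hS _).1 hx))) hlt a
          (fun x hx => ha x ((hS _).1 hx))
        exact two_dim3 hq hΔ V hV hn (Or.inr ⟨⟨γ, by rw [hq]⟩, b, x, (hS _).1 hx, hx0, e⟩)
    · obtain ⟨hq, -, hsq, hns⟩ := caseI hΔ S (fun x hx => (hS _).2 (hV _ ((hS _).1 hx))) hlt hI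
      exact two_dim3 hq hΔ V hV hn (Or.inl
        ⟨fun z hz t ht s hs => hsq z ((hS _).2 hz) t ((hS _).2 ht) s ((hS _).2 hs),
          fun z hz t ht => hns z ((hS _).2 hz) t ((hS _).2 ht)⟩)

theorem orbit_finite {α : Type} (f : α → α) (x : α) {m n : ℕ} (hmn : m < n)
    (e : f^[m] x = f^[n] x) : (Set.range fun k => f^[k] x).Finite := by
  refine ((Set.finite_lt_nat n).image fun k => f^[k] x).subset ?_
  rintro _ ⟨k, rfl⟩
  induction k using Nat.strong_induction_on with
  | _ k ih =>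
    by_cases hk : k < n
    · exact ⟨k, hk, rfl⟩
    · have h1 : f^[k] x = f^[k - n + m] x := by
        rw [Function.iterate_add_apply, e, ← Function.iterate_add_apply]
        congr 1; omega
      have := ih (k - n + m) (by omega)
      simpa only [h1] using this

theorem main {g Δ : RatFunc K} (hΔ : Δ ≠ 0) :
    {x : RatFunc K | ∃ m n : ℕ, m < n ∧ (phi g Δ)^[m] x = (phi g Δ)^[n] x}.encard
      ≤ ((Fintype.card K ^ 2 : ℕ) : ℕ∞) := by
  by_contra hcon
  push Not at hcon
  obtain ⟨A, hA, hAc⟩ := Set.exists_subset_encard_eq (Order.add_one_le_of_lt hcon)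
  have hAf : A.Finite := Set.finite_of_encard_eq_coe (k := Fintype.card K ^ 2 + 1)
    (by rw [hAc]; push_cast; rfl)
  set O : Set (RatFunc K) := ⋃ x ∈ A, Set.range fun k => (phi g Δ)^[k] x with hO
  have hOf : O.Finite := hAf.biUnion fun x hx => by
    obtain ⟨m, n, hmn, e⟩ := hA hx
    exact orbit_finite _ x hmn e
  have : FiniteDimensional K (Submodule.span K O) := FiniteDimensional.span_of_finite K hOf
  have hst : ∀ x ∈ Submodule.span K O, phi g Δ x ∈ Submodule.span K O := by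
    intro x hx
    have h1 : (Submodule.span K O).map (phiL g Δ) ≤ Submodule.span K O := by
      rw [Submodule.map_span]
      apply Submodule.span_mono
      rintro _ ⟨y, hy, rfl⟩
      simp only [hO, Set.mem_iUnion, Set.mem_range] at hy ⊢
      obtain ⟨a, ha, k, rfl⟩ := hy
      exact ⟨a, ha, k + 1, by rw [Function.iterate_succ_apply']; rfl⟩
    exact h1 ⟨x, hx, rfl⟩
  obtain ⟨S, hS, hcard⟩ := exists_finset (Submodule.span K O)
  have hsub : A ⊆ (S : Set (RatFunc K)) := by
    intro x hx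
    refine (hS _).2 (Submodule.subset_span ?_)
    simp only [hO, Set.mem_iUnion, Set.mem_range]
    exact ⟨x, hx, 0, rfl⟩
  have h1 := Set.encard_le_encard hsub
  rw [hAc, Set.encard_coe_eq_coe_finsetCard, hcard] at h1
  have h2 : Fintype.card K ^ 2 + 1 ≤ Fintype.card K ^ finrank K (Submodule.span K O) := by
    exact_mod_cast h1
  have hq1 : 1 < Fintype.card K := Fintype.one_lt_card
  have h3 : 2 < finrank K (Submodule.span K O) := (Nat.pow_lt_pow_iff_right hq1).1 h2
  exact no_stable hΔ (finrank K (Submodule.span K O) - 3) _ hst (by omega)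

end Pool.Agent.Lib.MP_1b9c20_nt
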