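import Pool.Agent.Lib.MP_1b9c20_nt.CaseI

/-! Scaling a finite stable set of rational functions to a primitive family of polynomials. -/

set_option autoImplicit false

namespace Pool.Agent.Lib.MP_1b9c20_nt

open Polynomial

variable {K : Type} [Field K] [Fintype K]

/-- The Drinfeld module map `x ↦ T x + g x ^ q + Δ x ^ (q ^ 2)`. -/
noncomputable def phi (g Δ x : RatFunc K) : RatFunc K :=
  RatFunc.X * x + g * x ^ Fintype.card K + Δ * (x ^ Fintype.card K) ^ Fintype.card K

omit [Fintype K] in
theorem exists_scale (S : Finset (RatFunc K)) (hS : ∃ x ∈ S, x ≠ 0) :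
    ∃ c : RatFunc K, c ≠ 0 ∧ ∃ P : RatFunc K → K[X],
      (∀ x ∈ S, algebraMap K[X] (RatFunc K) (P x) = c * x) ∧
        ∀ π : K[X], Prime π → ∃ x ∈ S, ¬ π ∣ P x := by
  classical
  obtain ⟨x0, hx0, hx00⟩ := hS
  set e0 : K[X] := ∏ x ∈ S, x.denom with he0
  have he00 : e0 ≠ 0 := Finset.prod_ne_zero_iff.2 fun x _ => RatFunc.denom_ne_zero x
  have h1 : ∀ x ∈ S, ∃ p : K[X],
      algebraMap K[X] (RatFunc K) p = algebraMap K[X] (RatFunc K) e0 * x := by
    intro x hx
    obtain ⟨r, hr⟩ : x.denom ∣ e0 := Finset.dvd_prod_of_mem _ hx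
    refine ⟨r * x.num, ?_⟩
    have hd0 : algebraMap K[X] (RatFunc K) x.denom ≠ 0 := by simpa using RatFunc.denom_ne_zero x
    have e1 : algebraMap K[X] (RatFunc K) x.num = x * algebraMap K[X] (RatFunc K) x.denom := by
      rw [← div_eq_iff hd0]; exact RatFunc.num_div_denom x
    rw [hr, map_mul, map_mul, e1]; ring
  choose! p hp using h1
  obtain ⟨P, hP, hg⟩ := Finset.extract_gcd p ⟨x0, hx0⟩
  have hh : S.gcd p ≠ 0 := by
    intro h
    have h2 := hP x0 hx0
    have h3 := hp x0 hx0
    rw [h2, h, zero_mul, map_zero] at h3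
    exact mul_ne_zero (by simpa using he00) hx00 h3.symm
  have hh' : algebraMap K[X] (RatFunc K) (S.gcd p) ≠ 0 := by simpa using hh
  refine ⟨algebraMap K[X] (RatFunc K) e0 / algebraMap K[X] (RatFunc K) (S.gcd p),
    div_ne_zero (by simpa using he00) hh', P, ?_, ?_⟩
  · intro x hx
    have h3 := hp x hx
    rw [hP x hx, map_mul] at h3
    field_simp
    linear_combination h3
  · intro π hπ
    by_contra hcon
    push Not at hcon
    have : π ∣ S.gcd P := Finset.dvd_gcd hcon
    rw [hg] at this
    exact hπ.not_dvd_one this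

omit [Fintype K] in
theorem exists_clear (a b : RatFunc K) {q : ℕ} (hq : 0 < q) :
    ∃ e G D : K[X], e ≠ 0 ∧
      algebraMap K[X] (RatFunc K) G = algebraMap K[X] (RatFunc K) e ^ q * a ∧
      algebraMap K[X] (RatFunc K) D = algebraMap K[X] (RatFunc K) e ^ q * b := by
  obtain ⟨n, rfl⟩ : ∃ n, q = n + 1 := ⟨q - 1, by omega⟩
  have e1 : ∀ x : RatFunc K,
      algebraMap K[X] (RatFunc K) x.num = x * algebraMap K[X] (RatFunc K) x.denom := by
    intro x
    have hd0 : algebraMap K[X] (RatFunc K) x.denom ≠ 0 := by simpa using RatFunc.denom_ne_zero x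
    rw [← div_eq_iff hd0]; exact RatFunc.num_div_denom x
  refine ⟨a.denom * b.denom, (a.denom * b.denom) ^ n * b.denom * a.num,
    (a.denom * b.denom) ^ n * a.denom * b.num,
    mul_ne_zero (RatFunc.denom_ne_zero a) (RatFunc.denom_ne_zero b), ?_, ?_⟩
  · simp only [map_mul, map_pow, e1]; ring
  · simp only [map_mul, map_pow, e1]; ring

omit [Fintype K] in
theorem derivative_eq_zero_of_isSquare (h2 : (2 : K[X]) = 0) {f : K[X]}
    (h : IsSquare (algebraMap K[X] (RatFunc K) f)) : derivative f = 0 := by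
  obtain ⟨s, hs⟩ := h
  have hd0 : algebraMap K[X] (RatFunc K) s.denom ≠ 0 := by simpa using RatFunc.denom_ne_zero s
  have e1 : algebraMap K[X] (RatFunc K) s.num = s * algebraMap K[X] (RatFunc K) s.denom := by
    rw [← div_eq_iff hd0]; exact RatFunc.num_div_denom s
  have e2 : f * (s.denom * s.denom) = s.num * s.num := by
    apply IsFractionRing.injective K[X] (RatFunc K)
    simp only [map_mul, e1, hs]; ring
  have e3 := congrArg derivative e2
  rw [derivative_mul, derivative_mul, derivative_mul] at e3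
  have e4 : derivative f * (s.denom * s.denom) = 0 := by
    linear_combination e3 + (derivative s.num * s.num - f * derivative s.denom * s.denom) * h2
  exact (mul_eq_zero.1 e4).resolve_right
    (mul_ne_zero (RatFunc.denom_ne_zero s) (RatFunc.denom_ne_zero s))

/-- The separable case, over the field of rational functions. -/
theorem caseI {g Δ : RatFunc K} (hΔ : Δ ≠ 0) (S : Finset (RatFunc K))
    (hstab : ∀ x ∈ S, phi g Δ x ∈ S) (hcard : Fintype.card K ^ 2 < S.card)
    (hI : ¬ ∃ γ : RatFunc K, g = γ ^ Fintype.card K * Δ) :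
    Fintype.card K = 2 ∧ S.card ≤ 8 ∧
      (∀ z ∈ S, ∀ t ∈ S, ∀ s ∈ S, IsSquare (t * (t + z) * (s * (s + z)))) ∧
      (∀ z ∈ S, ∀ t ∈ S, z ≠ 0 → t ≠ 0 → t + z ≠ 0 → ¬ IsSquare (t * (t + z))) := by
  classical
  have hq1 : 1 < Fintype.card K := Fintype.one_lt_card
  obtain ⟨c, hc, P, hP, hprim⟩ := exists_scale S (by
    by_contra hcon
    push Not at hcon
    have : S ⊆ {0} := fun x hx => by simpa using hcon x hx
    have := Finset.card_le_card this
    simp at this; nlinarith)
  set q := Fintype.card K with hq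
  obtain ⟨e, G, D, he, hG, hD⟩ := exists_clear (g * c / c ^ q) (Δ * c / (c ^ q) ^ q)
    (q := q) (by omega)
  have he' : algebraMap K[X] (RatFunc K) e ≠ 0 := by simpa using he
  have hinj := IsFractionRing.injective K[X] (RatFunc K)
  have hD0 : D ≠ 0 := by
    rintro rfl
    rw [map_zero] at hD
    exact mul_ne_zero (pow_ne_zero _ he') (div_ne_zero (mul_ne_zero hΔ hc)
      (pow_ne_zero _ (pow_ne_zero _ hc))) hD.symm
  have hPinj : Set.InjOn P S := by
    intro x hx y hy hxy
    apply mul_left_cancel₀ hc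
    rw [← hP x hx, ← hP y hy, hxy]
  have hback : ∀ x ∈ S, algebraMap K[X] (RatFunc K) (P x) / c = x := by
    intro x hx; rw [hP x hx]; field_simp
  let W : Setup K :=
    { S := S.image P
      Φ := fun p => P (phi g Δ (algebraMap K[X] (RatFunc K) p / c))
      e := e, G := G, D := D, he := he, hD := hD0
      hΦ := by
        intro p hp
        obtain ⟨x, hx, rfl⟩ := Finset.mem_image.1 hp
        rw [hback x hx]
        exact Finset.mem_image_of_mem _ (hstab x hx)
      heq := by
        intro p hp
        obtain ⟨x, hx, rfl⟩ := Finset.mem_image.1 hp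
        apply hinj
        rw [hback x hx]
        simp only [map_mul, map_pow, map_sub, map_add, hG, hD, hP x hx, hP _ (hstab x hx),
          RatFunc.algebraMap_X]
        simp only [phi, ← hq, mul_pow]
        field_simp
        ring
      hcard := by rw [Finset.card_image_of_injOn hPinj]; exact hcard
      hprim := by
        intro π hπ
        obtain ⟨x, hx, h⟩ := hprim π hπ
        exact ⟨P x, Finset.mem_image_of_mem _ hx, h⟩ }
  have hkl : ∃ k < q, ∃ l < q, cart q k G * cart q l D ≠ cart q l G * cart q k D := by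
    by_contra hcon
    push Not at hcon
    obtain ⟨l, hl, hDl⟩ : ∃ l < q, cart q l D ≠ 0 := by
      by_contra h
      push Not at h
      exact hD0 (cart_ext (q := q) (by omega) fun k hk => by rw [h k hk]; simp [cart, contract])
    have e1 : G * cart q l D ^ q = D * cart q l G ^ q := cart_ext (q := q) (by omega) fun k hk => by
      rw [cart_mul_pow hk, cart_mul_pow hk, hcon k hk l hl, mul_comm]
    have e2 := congrArg (algebraMap K[X] (RatFunc K)) e1
    rw [map_mul, map_mul, map_pow, map_pow, hG, hD] at e2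
    have hDl' : algebraMap K[X] (RatFunc K) (cart q l D) ≠ 0 := by simpa using hDl
    refine hI ⟨algebraMap K[X] (RatFunc K) (cart q l G) * c /
      (algebraMap K[X] (RatFunc K) (cart q l D) * c ^ q), ?_⟩
    rw [div_pow, mul_pow, mul_pow]
    have hcq : c ^ q ≠ 0 := pow_ne_zero _ hc
    have hcqq : (c ^ q) ^ q ≠ 0 := pow_ne_zero _ hcq
    have heq : algebraMap K[X] (RatFunc K) e ^ q ≠ 0 := pow_ne_zero _ he'
    have hDq : algebraMap K[X] (RatFunc K) (cart q l D) ^ q ≠ 0 := pow_ne_zero _ hDl'
    field_simp at e2 ⊢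
    linear_combination e2
  obtain ⟨k, hk, l, hl, h0⟩ := hkl
  have hq2 : q = 2 := by
    by_contra hne
    exact W.caseI_big (by omega) hk hl h0
  obtain ⟨c0, κ, ρ, hc0, hode⟩ := W.caseI_two_ode hq2 hk hl h0
  obtain ⟨h8, hρ⟩ := W.ode_conseq hq2 hc0 hode
  have : Fact (Nat.Prime 2) := ⟨Nat.prime_two⟩
  have : CharP K 2 := charP_of_card_eq_prime hq2
  have h2 : (2 : K[X]) = 0 := by
    have := CharP.cast_eq_zero K[X] 2
    exact_mod_cast this
  have hlog : ∀ z ∈ S, ∀ t ∈ S, c0 * derivative (P t * (P t + P z))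
      = ρ * P z * (P t * (P t + P z)) := by
    intro z hz t ht
    have e1 := hode _ (Finset.mem_image_of_mem P hz)
    have e2 := hode _ (Finset.mem_image_of_mem P ht)
    rw [derivative_mul, derivative_add]
    linear_combination P t * e1 + P z * e2 + (c0 * P t * derivative (P t) + κ * P t * P z) * h2
  refine ⟨hq2, ?_, ?_, ?_⟩
  · have : (S.image P).card ≤ 8 := h8
    rwa [Finset.card_image_of_injOn hPinj] at this
  · intro z hz t ht s hs
    have e1 := hlog z hz t ht
    have e2 := hlog z hz s hs
    have e3 : derivative (P t * (P t + P z) * (P s * (P s + P z))) = 0 := by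
      apply mul_left_cancel₀ hc0
      rw [derivative_mul (f := P t * (P t + P z))]
      linear_combination (P s * (P s + P z)) * e1 + (P t * (P t + P z)) * e2
        + (ρ * P z * (P t * (P t + P z)) * (P s * (P s + P z))) * h2
    obtain ⟨r, hr⟩ := sq_of_derivative hq2 e3
    have e4 := congrArg (algebraMap K[X] (RatFunc K)) hr
    simp only [map_mul, map_add, map_pow, hP z hz, hP t ht, hP s hs] at e4
    refine ⟨algebraMap K[X] (RatFunc K) r / c ^ 2, ?_⟩
    field_simp
    linear_combination e4
  · rintro z hz t ht hz0 ht0 htz ⟨s, hs⟩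
    have e1 := hlog z hz t ht
    have e2 : derivative (P t * (P t + P z)) = 0 := by
      apply derivative_eq_zero_of_isSquare h2
      refine ⟨c * s, ?_⟩
      simp only [map_mul, map_add, hP z hz, hP t ht]
      linear_combination c ^ 2 * hs
    rw [e2, mul_zero] at e1
    have e3 := congrArg (algebraMap K[X] (RatFunc K)) e1
    simp only [map_mul, map_add, map_zero, hP z hz, hP t ht] at e3
    have hρ' : algebraMap K[X] (RatFunc K) ρ ≠ 0 := by simpa using hρ
    refine mul_ne_zero (mul_ne_zero hρ' (mul_ne_zero hc hz0)) (mul_ne_zero (mul_ne_zero hc ht0)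
      (mul_ne_zero hc htz)) ?_
    linear_combination -e3

end Pool.Agent.Lib.MP_1b9c20_nt
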