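import Pool.Agent.Lib.MP_1b9c20_nt.LocII

/-! The inseparable case for `q = 3` with three eigenvectors. -/

set_option autoImplicit false

namespace Pool.Agent.Lib.MP_1b9c20_nt

open Polynomial

variable {K : Type} [Field K]

/-- A pencil of `p`-th powers with independent linear coefficients has only simple zeros. -/
theorem not_ge_two {p : ℕ} (hp : (p : K) = 0) {π : K[X]} (hπ : Prime π) {h : RatFunc K}
    (hh : (fin π hπ).Ge 0 h) {a b c d : K} (hdet : a * d - b * c ≠ 0) :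
    ¬ (fin π hπ).Ge 2 ((RatFunc.C a * RatFunc.X + RatFunc.C b) * h ^ p
      + (RatFunc.C c * RatFunc.X + RatFunc.C d)) := by
  intro h2
  have hB := not_dvd_denom hπ hh
  have hd0 : algebraMap K[X] (RatFunc K) h.denom ≠ 0 := by simpa using RatFunc.denom_ne_zero h
  have e1 : algebraMap K[X] (RatFunc K) h.num = h * algebraMap K[X] (RatFunc K) h.denom := by
    rw [← div_eq_iff hd0]; exact RatFunc.num_div_denom h
  set A := h.num
  set B := h.denom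
  have h3 := h2.mul ((fin_is_zero hπ hB).pow p).ge
  have e2 : ((RatFunc.C a * RatFunc.X + RatFunc.C b) * h ^ p
      + (RatFunc.C c * RatFunc.X + RatFunc.C d)) * algebraMap K[X] (RatFunc K) B ^ p
      = algebraMap K[X] (RatFunc K) ((C a * X + C b) * A ^ p + (C c * X + C d) * B ^ p) := by
    simp only [map_add, map_mul, map_pow, RatFunc.algebraMap_C, RatFunc.algebraMap_X, e1, mul_pow]
    ring
  rw [e2] at h3
  have h4 : π ^ 2 ∣ (C a * X + C b) * A ^ p + (C c * X + C d) * B ^ p :=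
    (fin_ge_poly_iff hπ _ 2).1 (by simpa using h3)
  obtain ⟨r, hr⟩ := h4
  have h5 := congrArg derivative hr
  have dp : ∀ f : K[X], derivative (f ^ p) = 0 := by
    intro f; rw [derivative_pow, hp]; simp
  rw [derivative_add, derivative_mul, derivative_mul, dp, dp, derivative_mul, sq,
    derivative_mul] at h5
  simp only [derivative_add, derivative_mul, derivative_C, derivative_X] at h5
  have h6 : π ∣ C (a * d - b * c) * B ^ p := by
    refine ⟨C a * (π * r) - (C a * X + C b) * (2 * derivative π * r + π * derivative r), ?_⟩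
    rw [map_sub, map_mul, map_mul]
    linear_combination C a * hr - (C a * X + C b) * h5
  rcases hπ.dvd_or_dvd h6 with h | h
  · exact hπ.not_isUnit (isUnit_of_dvd_unit h (isUnit_C.2 (isUnit_iff_ne_zero.2 hdet)))
  · exact hB (hπ.dvd_of_dvd_pow h)

theorem fin_lin [Fintype K] {π : K[X]} (hπ : Prime π) (a : K) :
    (fin π hπ).Is 0 (RatFunc.C a - RatFunc.X) ∨ (fin π hπ).Is 1 (RatFunc.C a - RatFunc.X) := by
  have e : RatFunc.C a - RatFunc.X = - algebraMap K[X] (RatFunc K) (X - C a) := by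
    rw [map_sub, RatFunc.algebraMap_X, RatFunc.algebraMap_C]; ring
  rw [e]
  by_cases h : π ∣ X - C a
  · right
    obtain ⟨u, hu⟩ := h
    have hu' : IsUnit u := ((irreducible_X_sub_C a).isUnit_or_isUnit hu).resolve_left hπ.not_isUnit
    obtain ⟨c, hc, rfl⟩ := Polynomial.isUnit_iff.1 hu'
    rw [hu, map_mul, RatFunc.algebraMap_C]
    simpa using ((fin_is_self hπ).mul ((fin π hπ).is_C hc.ne_zero)).neg
  · exact Or.inl (fin_is_zero hπ h).neg

section three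

variable {F : Type} [Field F] {ν : Val F}

/-- Signs can be chosen so that two elements with close squares are close. -/
theorem sign_choice (h3 : (3 : F) = 0) {x y : F} {m k : ℤ} (hx : ν.Is m x)
    (h : ν.Ge (m + k) (x ^ 2 - y ^ 2)) : ν.Ge k (x - y) ∨ ν.Ge k (x - -y) := by
  have e : x ^ 2 - y ^ 2 = (x - y) * (x + y) := by ring
  rw [e] at h
  rcases Val.ge_or_lt (ν := ν) (m + 1) (x + y) with h1 | h1
  · right
    have h2 : ν.Is m (x - y) := by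
      have := hx.neg.sub h1
      convert this using 1
      linear_combination x * h3
    have := h.of_mul h2
    rw [sub_neg_eq_add]
    exact this.mono (by omega)
  · left
    rw [mul_comm] at h
    exact (h.of_mul (Val.is_self h1.1)).mono (by omega)

theorem u_val {γ Δ x : F} {m δ j : ℤ} (hγ : ν.Is (2 * m) γ) (hΔ : ν.Is δ Δ) (hx : ν.Is j x)
    (hj : m < j) : ν.Is (δ + 3 * (2 * m + j)) (Δ * (γ * x + x ^ 3) ^ 3) := by
  have := hΔ.mul (((hγ.mul hx).add ((hx.pow 3).ge' (by push_cast; omega))).pow 3)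
  simpa using this

theorem cube_add (h3 : (3 : F) = 0) (a b : F) : (a + b) ^ 3 = a ^ 3 + b ^ 3 := by
  linear_combination (a ^ 2 * b + a * b ^ 2) * h3

theorem cube_sub (h3 : (3 : F) = 0) (a b : F) : (a - b) ^ 3 = a ^ 3 - b ^ 3 := by
  linear_combination (a * b ^ 2 - a ^ 2 * b) * h3

theorem u_add (h3 : (3 : F) = 0) (γ Δ x y : F) : Δ * (γ * (x + y) + (x + y) ^ 3) ^ 3
    = Δ * (γ * x + x ^ 3) ^ 3 + Δ * (γ * y + y ^ 3) ^ 3 := by
  have e : γ * (x + y) + (x + y) ^ 3 = (γ * x + x ^ 3) + (γ * y + y ^ 3) := by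
    rw [cube_add h3 x]; ring
  rw [e, cube_add h3 (γ * x + x ^ 3), mul_add]

theorem u_sub (h3 : (3 : F) = 0) (γ Δ x y : F) : Δ * (γ * (x - y) + (x - y) ^ 3) ^ 3
    = Δ * (γ * x + x ^ 3) ^ 3 - Δ * (γ * y + y ^ 3) ^ 3 := by
  have e : γ * (x - y) + (x - y) ^ 3 = (γ * x + x ^ 3) - (γ * y + y ^ 3) := by
    rw [cube_sub h3 x]; ring
  rw [e, cube_sub h3 (γ * x + x ^ 3), mul_sub]

/-- Three critical eigenvectors are impossible at a finite place prime to `T ^ 3 - T`. -/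
theorem crit_fin (h3 : (3 : F) = 0) {T γ Δ x y z : F} {m n δ : ℤ} (hn : 1 ≤ n)
    (h0 : ν.Is 0 (0 - T)) (h1 : ν.Is 0 (1 - T)) (h2 : ν.Is 0 (-1 - T))
    (hD : ∀ h : F, ν.Ge 0 h → ¬ ν.Ge 2 ((0 - T) * h ^ 3 - (1 - T)))
    (hγ : ν.Is (2 * m) γ) (hΔ : ν.Is δ Δ) (hδ : δ = -8 * m - 3 * n) (hx : ν.Is m x)
    (hy : ν.Ge (m + n) (x - y)) (hz : ν.Ge (m + n) (x - z))
    (ex : (0 - T) * x = Δ * (γ * x + x ^ 3) ^ 3) (ey : (1 - T) * y = Δ * (γ * y + y ^ 3) ^ 3)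
    (ez : (-1 - T) * z = Δ * (γ * z + z ^ 3) ^ 3) : False := by
  have uxy : ν.Is m (Δ * (γ * (x - y) + (x - y) ^ 3) ^ 3) := by
    rw [u_sub h3, ← ex, ← ey]
    have := hx.neg.add ((h1.ge.mul hy).mono (by omega))
    convert this using 1; ring
  have hxy0 : x - y ≠ 0 := by
    intro h; rw [h] at uxy; exact uxy.1 (by simp)
  have l1 := hy.le_v hxy0
  have l2 := uxy.unique (u_val hγ hΔ (Val.is_self hxy0) (by omega))
  have ixy : ν.Is (m + n) (x - y) := ⟨hxy0, by omega⟩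
  by_cases hn2 : 2 ≤ n
  · have iy : ν.Is m y := by
      have := hx.sub (hy.mono (by omega))
      simpa using this
    have wx : γ * x + x ^ 3 ≠ 0 := by
      intro h; rw [h] at ex; exact (h0.mul hx).1 (by rw [ex]; simp)
    have wy : γ * y + y ^ 3 ≠ 0 := by
      intro h; rw [h] at ey; exact (h1.mul iy).1 (by rw [ey]; simp)
    have a1 := (h0.mul hx).unique (ex ▸ hΔ.mul ((Val.is_self wx).pow 3))
    have a2 := (h1.mul iy).unique (ey ▸ hΔ.mul ((Val.is_self wy).pow 3))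
    refine hD ((γ * y + y ^ 3) / (γ * x + x ^ 3))
      (((Val.is_self wy).div (Val.is_self wx)).ge' (by push_cast at a1 a2; omega)) ?_
    have e : (0 - T) * ((γ * y + y ^ 3) / (γ * x + x ^ 3)) ^ 3 - (1 - T)
        = -((1 - T) * (x - y) * x⁻¹) := by
      have hx0 := hx.1
      have hΔ0 := hΔ.1
      have e1 : (γ * x + x ^ 3) ^ 3 = (0 - T) * x / Δ := by rw [ex]; field_simp
      have e2 : (γ * y + y ^ 3) ^ 3 = (1 - T) * y / Δ := by rw [ey]; field_simp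
      have hT0 := h0.1
      rw [div_pow, e1, e2]
      field_simp
      ring
    rw [e]
    exact (((h1.ge.mul hy).mul hx.inv.ge).mono (by omega)).neg
  · have hn1 : n = 1 := by omega
    subst hn1
    have es : x + y + z = -(x - y) - (x - z) := by linear_combination x * h3
    have eu : Δ * (γ * (x + y + z) + (x + y + z) ^ 3) ^ 3
        = (x - y) + (-1 - T) * (x + y + z) := by
      rw [u_add h3, u_add h3, ← ex, ← ey, ← ez]
      linear_combination y * h3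
    have gs : ν.Ge (m + 1) (x + y + z) := by rw [es]; exact hy.neg.sub hz
    have hs0 : x + y + z ≠ 0 := by
      intro h; rw [h] at eu; exact hxy0 (by simpa using eu.symm)
    have l3 := gs.le_v hs0
    have l4 := u_val hγ hΔ (Val.is_self hs0) (by omega)
    rw [eu] at l4
    have l5 := (hy.add ((h2.ge.mul gs).mono (by omega))).le l4
    have l6 := l4.unique (ixy.add ((h2.mul (Val.is_self hs0)).ge' (by omega)))
    omega

/-- Two critical eigenvectors are impossible at infinity. -/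
theorem crit_inf (h3 : (3 : F) = 0) {T γ Δ x y : F} {m n δ : ℤ} (hn : 1 ≤ n)
    (h1 : ν.Is (-1) (1 - T))
    (hγ : ν.Is (2 * m) γ) (hΔ : ν.Is δ Δ) (hδ : δ = -1 - 8 * m - 3 * n) (hx : ν.Is m x)
    (hy : ν.Ge (m + n) (x - y))
    (ex : (0 - T) * x = Δ * (γ * x + x ^ 3) ^ 3) (ey : (1 - T) * y = Δ * (γ * y + y ^ 3) ^ 3) :
    False := by
  have eu : Δ * (γ * (x - y) + (x - y) ^ 3) ^ 3 = -x + (1 - T) * (x - y) := by
    rw [u_sub h3, ← ex, ← ey]; ring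
  have hxy0 : x - y ≠ 0 := by
    intro h; rw [h] at eu; exact hx.1 (by simpa using eu.symm)
  have l1 := hy.le_v hxy0
  have l2 := u_val hγ hΔ (Val.is_self hxy0) (by omega)
  rw [eu] at l2
  by_cases h : m + 2 ≤ ν.v (x - y)
  · have := l2.unique (hx.neg.add ((h1.mul (Val.is_self hxy0)).ge' (by omega)))
    omega
  · have := (hx.neg.ge.add ((h1.mul (Val.is_self hxy0)).ge' (by omega))).le l2
    omega

/-- The valuation bookkeeping for one eigenvector. -/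
theorem eig_val {s γ Δ x : F} {σ : ℤ} (hs : ν.Is σ s) (hΔ : Δ ≠ 0) (hx : x ≠ 0)
    (ex : s * x = Δ * (γ * x + x ^ 3) ^ 3) :
    γ + x ^ 2 ≠ 0 ∧ σ = ν.v Δ + 2 * ν.v x + 3 * ν.v (γ + x ^ 2) ∧
      (γ = 0 → ν.v (γ + x ^ 2) = 2 * ν.v x) ∧ (γ ≠ 0 →
        (ν.v (γ + x ^ 2) = 2 * ν.v x ∧ 2 * ν.v x ≤ ν.v γ) ∨
        (ν.v γ < 2 * ν.v x ∧ ν.v (γ + x ^ 2) = ν.v γ) ∨
        (ν.v γ = 2 * ν.v x ∧ 2 * ν.v x < ν.v (γ + x ^ 2))) := by
  have e : s = Δ * x ^ 2 * (γ + x ^ 2) ^ 3 := by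
    apply mul_right_cancel₀ hx; rw [ex]; ring
  have hN : γ + x ^ 2 ≠ 0 := by
    intro h; rw [h] at e; exact hs.1 (by rw [e]; simp)
  have l1 := hs.unique (e ▸ ((Val.is_self hΔ).mul ((Val.is_self hx).pow 2)).mul
    ((Val.is_self hN).pow 3))
  refine ⟨hN, by push_cast at l1; omega, ?_⟩
  have p2 : ν.v (x ^ 2) = 2 * ν.v x := by simpa using ν.pow hx 2
  constructor
  · rintro rfl; rw [zero_add, p2]
  · intro hγ
    have := ν.tri rfl hγ (pow_ne_zero 2 hx) hN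
    rw [p2] at this
    clear l1
    omega

theorem three_arith {δ c x y z nx ny nz σ₀ σ₁ σ₂ : ℤ}
    (hσ : (σ₀ = 0 ∧ σ₁ = 0 ∧ σ₂ = 0) ∨ (σ₀ = 1 ∧ σ₁ = 0 ∧ σ₂ = 0) ∨ (σ₀ = 0 ∧ σ₁ = 1 ∧ σ₂ = 0)
      ∨ (σ₀ = 0 ∧ σ₁ = 0 ∧ σ₂ = 1) ∨ (σ₀ = -1 ∧ σ₁ = -1 ∧ σ₂ = -1))
    (ax : σ₀ = δ + 2 * x + 3 * nx) (ay : σ₁ = δ + 2 * y + 3 * ny) (az : σ₂ = δ + 2 * z + 3 * nz)
    (bx : (nx = 2 * x ∧ 2 * x ≤ c) ∨ (c < 2 * x ∧ nx = c) ∨ (c = 2 * x ∧ 2 * x < nx))
    (b_y : (ny = 2 * y ∧ 2 * y ≤ c) ∨ (c < 2 * y ∧ ny = c) ∨ (c = 2 * y ∧ 2 * y < ny))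
    (bz : (nz = 2 * z ∧ 2 * z ≤ c) ∨ (c < 2 * z ∧ nz = c) ∨ (c = 2 * z ∧ 2 * z < nz)) :
    2 * σ₀ + 2 * σ₁ - min σ₀ 0 ≤ 3 * δ + 8 * (x + y + z) ∨
      (((σ₀ = 0 ∧ σ₁ = 0 ∧ σ₂ = 0) ∨ (σ₀ = -1 ∧ σ₁ = -1 ∧ σ₂ = -1)) ∧ c = 2 * x ∧ 2 * x < nx ∧
        nx = ny ∧ nx = nz) := by
  rcases hσ with ⟨rfl, rfl, rfl⟩ | ⟨rfl, rfl, rfl⟩ | ⟨rfl, rfl, rfl⟩ | ⟨rfl, rfl, rfl⟩ |
      ⟨rfl, rfl, rfl⟩ <;>
    rcases bx with ⟨_, _⟩ | ⟨_, _⟩ | ⟨_, _⟩ <;> rcases b_y with ⟨_, _⟩ | ⟨_, _⟩ | ⟨_, _⟩ <;>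
      rcases bz with ⟨_, _⟩ | ⟨_, _⟩ | ⟨_, _⟩ <;>
        first
          | (left; omega)
          | (right; omega)

/-- The local estimate for the unit `Δ ^ 3 (x y z) ^ 8`. -/
theorem three_local (h3 : (3 : F) = 0) {T γ Δ x y z : F} {σ₀ σ₁ σ₂ : ℤ}
    (h0 : ν.Is σ₀ (0 - T)) (h1 : ν.Is σ₁ (1 - T)) (h2 : ν.Is σ₂ (-1 - T))
    (hD : σ₀ = 0 → ∀ h : F, ν.Ge 0 h → ¬ ν.Ge 2 ((0 - T) * h ^ 3 - (1 - T)))
    (hσ : (σ₀ = 0 ∧ σ₁ = 0 ∧ σ₂ = 0) ∨ (σ₀ = 1 ∧ σ₁ = 0 ∧ σ₂ = 0) ∨ (σ₀ = 0 ∧ σ₁ = 1 ∧ σ₂ = 0)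
      ∨ (σ₀ = 0 ∧ σ₁ = 0 ∧ σ₂ = 1) ∨ (σ₀ = -1 ∧ σ₁ = -1 ∧ σ₂ = -1))
    (hΔ : Δ ≠ 0) (hx : x ≠ 0) (hy : y ≠ 0) (hz : z ≠ 0)
    (ex : (0 - T) * x = Δ * (γ * x + x ^ 3) ^ 3) (ey : (1 - T) * y = Δ * (γ * y + y ^ 3) ^ 3)
    (ez : (-1 - T) * z = Δ * (γ * z + z ^ 3) ^ 3) :
    2 * σ₀ + 2 * σ₁ - min σ₀ 0 ≤ 3 * ν.v Δ + 8 * (ν.v x + ν.v y + ν.v z) := by
  obtain ⟨nx, ax, bx', bx⟩ := eig_val h0 hΔ hx ex
  obtain ⟨ny, ay, by', b_y⟩ := eig_val h1 hΔ hy ey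
  obtain ⟨nz, az, bz', bz⟩ := eig_val h2 hΔ hz ez
  by_cases hγ : γ = 0
  · have c1 := bx' hγ
    have c2 := by' hγ
    have c3 := bz' hγ
    clear bx b_y bz bx' by' bz'
    omega
  rcases three_arith hσ ax ay az (bx hγ) (b_y hγ) (bz hγ) with h | ⟨hσ', d1, d2, d3, d4⟩
  · exact h
  · exfalso
    clear bx b_y bz bx' by' bz' hσ
    set m := ν.v x with hm
    set n := ν.v (γ + x ^ 2) - 2 * m with hn
    have iγ : ν.Is (2 * m) γ := ⟨hγ, d1⟩
    have gy : ν.Ge (m + (m + n)) (x ^ 2 - y ^ 2) := by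
      have := ((Val.is_self (ν := ν) nx).ge' (j := m + (m + n)) (by omega)).sub
        ((Val.is_self (ν := ν) ny).ge' (j := m + (m + n)) (by omega))
      convert this using 1; ring
    have gz : ν.Ge (m + (m + n)) (x ^ 2 - z ^ 2) := by
      have := ((Val.is_self (ν := ν) nx).ge' (j := m + (m + n)) (by omega)).sub
        ((Val.is_self (ν := ν) nz).ge' (j := m + (m + n)) (by omega))
      convert this using 1; ring
    have ey' : (1 - T) * -y = Δ * (γ * -y + (-y) ^ 3) ^ 3 := by linear_combination -ey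
    have ez' : (-1 - T) * -z = Δ * (γ * -z + (-z) ^ 3) ^ 3 := by linear_combination -ez
    rcases hσ' with ⟨s0, s1, s2⟩ | ⟨s0, s1, s2⟩
    · have hD' := hD s0
      subst s0 s1 s2
      rcases sign_choice h3 (Val.is_self hx) gy with g1 | g1 <;>
        rcases sign_choice h3 (Val.is_self hx) gz with g2 | g2
      · exact crit_fin h3 (by omega) h0 h1 h2 hD' iγ (Val.is_self hΔ) (by omega) (Val.is_self hx)
          g1 g2 ex ey ez
      · exact crit_fin h3 (by omega) h0 h1 h2 hD' iγ (Val.is_self hΔ) (by omega) (Val.is_self hx)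
          g1 g2 ex ey ez'
      · exact crit_fin h3 (by omega) h0 h1 h2 hD' iγ (Val.is_self hΔ) (by omega) (Val.is_self hx)
          g1 g2 ex ey' ez
      · exact crit_fin h3 (by omega) h0 h1 h2 hD' iγ (Val.is_self hΔ) (by omega) (Val.is_self hx)
          g1 g2 ex ey' ez'
    · subst s0 s1 s2
      rcases sign_choice h3 (Val.is_self hx) gy with g1 | g1
      · exact crit_inf h3 (by omega) h1 iγ (Val.is_self hΔ) (by omega) (Val.is_self hx) g1 ex ey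
      · exact crit_inf h3 (by omega) h1 iγ (Val.is_self hΔ) (by omega) (Val.is_self hx) g1 ex ey'

end three

theorem three_eigen [Fintype K] (hq : Fintype.card K = 3) {γ Δ x y z : RatFunc K}
    (hΔ : Δ ≠ 0) (hx : x ≠ 0) (hy : y ≠ 0) (hz : z ≠ 0)
    (ex : phi (γ ^ Fintype.card K * Δ) Δ x = RatFunc.C 0 * x)
    (ey : phi (γ ^ Fintype.card K * Δ) Δ y = RatFunc.C 1 * y)
    (ez : phi (γ ^ Fintype.card K * Δ) Δ z = RatFunc.C (-1) * z) : False := by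
  have h3K : ((3 : ℕ) : K) = 0 := hq ▸ FiniteField.cast_card_eq_zero K
  have h3 : (3 : RatFunc K) = 0 := by
    have := congrArg (RatFunc.C (K := K)) h3K
    rw [map_natCast, map_zero] at this
    exact_mod_cast this
  have ux := phi_II γ Δ x
  have uy := phi_II γ Δ y
  have uz := phi_II γ Δ z
  rw [ex, hq] at ux
  rw [ey, hq] at uy
  rw [ez, hq] at uz
  simp only [map_zero, map_one, map_neg] at ux uy uz
  set T : RatFunc K := RatFunc.X with hT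
  have ex' : (0 - T) * x = Δ * (γ * x + x ^ 3) ^ 3 := by linear_combination ux
  have ey' : (1 - T) * y = Δ * (γ * y + y ^ 3) ^ 3 := by linear_combination uy
  have ez' : (-1 - T) * z = Δ * (γ * z + z ^ 3) ^ 3 := by linear_combination uz
  have hval : ∀ (ν : Val (RatFunc K)) (σ₀ σ₁ : ℤ), ν.Is σ₀ (0 - T) → ν.Is σ₁ (1 - T) →
      ν.Is (3 * ν.v Δ + 8 * (ν.v x + ν.v y + ν.v z) - (2 * σ₀ + 2 * σ₁))
        (Δ ^ 3 * (x * y * z) ^ 8 / ((0 - T) ^ 2 * (1 - T) ^ 2)) := by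
    intro ν σ₀ σ₁ h0 h1
    have := (((Val.is_self (ν := ν) hΔ).pow 3).mul ((((Val.is_self hx).mul (Val.is_self hy)).mul
      (Val.is_self hz)).pow 8)).div ((h0.pow 2).mul (h1.pow 2))
    simpa using this
  have hinf : ∀ a : K, (inf (K := K)).Is (-1) (RatFunc.C a - T) := fun a =>
    inf_is_X.sub' ((inf.ge_C a).mono (by omega))
  have i0 := hinf 0
  have i1 := hinf 1
  have i2 := hinf (-1)
  simp only [map_zero, map_one, map_neg] at i0 i1 i2
  have l1 := three_local h3 i0 i1 i2 (by omega) (by omega) hΔ hx hy hz ex' ey' ez'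
  have l2 := hval _ _ _ i0 i1
  have l3 := inf_le_of_ge l2.1 (by
    intro π hπ
    have f0 := fin_lin hπ 0
    have f1 := fin_lin hπ 1
    have f2 := fin_lin hπ (-1)
    simp only [map_zero, map_one, map_neg] at f0 f1 f2
    rw [← hT] at f0 f1 f2
    set ν := fin π hπ
    have nb : ∀ s t : RatFunc K, s - t = 1 ∨ s - t = -1 → ν.Is 1 s → ν.Is 1 t → False := by
      intro s t hst hs ht
      have := hs.ge.sub ht.ge
      rcases hst with h | h <;> rw [h] at this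
      · have := this.le Val.is_one; omega
      · have := this.le Val.is_one.neg; omega
    have hD : ∀ h : RatFunc K, ν.Ge 0 h → ¬ ν.Ge 2 ((0 - T) * h ^ 3 - (1 - T)) := by
      intro h hh h2
      refine not_ge_two h3K hπ hh (a := -1) (b := 0) (c := 1) (d := -1) (by simp) ?_
      convert h2 using 1
      simp only [map_zero, map_one, map_neg]; ring
    have fin_case : ∀ σ₀ σ₁ σ₂ : ℤ, ν.Is σ₀ (0 - T) → ν.Is σ₁ (1 - T) → ν.Is σ₂ (-1 - T) →
        ((σ₀ = 0 ∧ σ₁ = 0 ∧ σ₂ = 0) ∨ (σ₀ = 1 ∧ σ₁ = 0 ∧ σ₂ = 0) ∨ (σ₀ = 0 ∧ σ₁ = 1 ∧ σ₂ = 0)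
          ∨ (σ₀ = 0 ∧ σ₁ = 0 ∧ σ₂ = 1)) →
        ν.Ge 0 (Δ ^ 3 * (x * y * z) ^ 8 / ((0 - T) ^ 2 * (1 - T) ^ 2)) := by
      intro σ₀ σ₁ σ₂ h0 h1 h2 hσ
      have := three_local h3 h0 h1 h2 (fun _ => hD) (by tauto) hΔ hx hy hz ex' ey' ez'
      exact (hval _ _ _ h0 h1).ge' (by omega)
    rcases f0 with f0 | f0 <;> rcases f1 with f1 | f1 <;> rcases f2 with f2 | f2
    · exact fin_case _ _ _ f0 f1 f2 (by omega)
    · exact fin_case _ _ _ f0 f1 f2 (by omega)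
    · exact fin_case _ _ _ f0 f1 f2 (by omega)
    · exact (nb _ _ (Or.inr (by linear_combination h3)) f1 f2).elim
    · exact fin_case _ _ _ f0 f1 f2 (by omega)
    · exact (nb _ _ (Or.inl (by ring)) f0 f2).elim
    · exact (nb _ _ (Or.inr (by ring)) f0 f1).elim
    · exact (nb _ _ (Or.inr (by ring)) f0 f1).elim)
  rw [l2.2] at l3
  omega

end Pool.Agent.Lib.MP_1b9c20_nt
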