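import Pool.Agent.Lib.MP_1b9c20_nt.Three

/-! `q = 2`: descent on the elliptic curves attached to level `T ^ 3`. -/

set_option autoImplicit false

namespace Pool.Agent.Lib.MP_1b9c20_nt

open Polynomial

variable {K : Type} [Field K] [Fintype K]

theorem two_const (hq : Fintype.card K = 2) (c : K) : c = 0 ∨ c = 1 := by
  have := FiniteField.pow_card c
  rw [hq] at this
  have h : c * (c - 1) = 0 := by linear_combination this
  rcases mul_eq_zero.1 h with h | h
  · exact Or.inl h
  · exact Or.inr (sub_eq_zero.1 h)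

theorem two_K (hq : Fintype.card K = 2) : (2 : K) = 0 := by
  have h : ((2 : ℕ) : K) = 0 := hq ▸ FiniteField.cast_card_eq_zero K
  exact_mod_cast h

theorem two_poly (hq : Fintype.card K = 2) : (2 : K[X]) = 0 := by
  have := congrArg (C : K →+* K[X]) (two_K hq)
  rwa [map_ofNat, map_zero] at this

theorem two_rat (hq : Fintype.card K = 2) : (2 : RatFunc K) = 0 := by
  have := congrArg (RatFunc.C (K := K)) (two_K hq)
  rwa [map_ofNat, map_zero] at this

theorem two_charP (hq : Fintype.card K = 2) : CharP (RatFunc K) 2 :=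
  (CharP.charP_iff_prime_eq_zero Nat.prime_two).2 (by exact_mod_cast two_rat hq)

theorem two_assoc (hq : Fintype.card K = 2) {a b : K[X]} (h : Associated a b) : a = b := by
  obtain ⟨u, rfl⟩ := h
  obtain ⟨c, hc, e⟩ := Polynomial.isUnit_iff.1 u.isUnit
  rcases two_const hq c with rfl | rfl
  · exact absurd rfl hc.ne_zero
  · rw [← e]; simp

theorem two_monic (hq : Fintype.card K = 2) {a : K[X]} (h : a ≠ 0) : a.Monic :=
  (two_const hq _).resolve_left (leadingCoeff_ne_zero.2 h)

theorem fin_other (hq : Fintype.card K = 2) {π π₀ : K[X]} (hπ : Prime π) (hπ₀ : Prime π₀)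
    (h : π ≠ π₀) : (fin π hπ).Is 0 (algebraMap K[X] (RatFunc K) π₀) :=
  fin_is_zero hπ fun hd => h (two_assoc hq (hπ.associated_of_dvd hπ₀ hd))

theorem fin_other_X (hq : Fintype.card K = 2) {π : K[X]} (hπ : Prime π) (h : π ≠ X) :
    (fin π hπ).Is 0 RatFunc.X := by
  have := fin_other hq hπ prime_X h
  rwa [RatFunc.algebraMap_X] at this

omit [Fintype K] in
theorem fin_X : (fin (X : K[X]) prime_X).Is 1 RatFunc.X := by
  have := fin_is_self (prime_X (R := K))
  rwa [RatFunc.algebraMap_X] at this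

theorem two_sq (hq : Fintype.card K = 2) {f : RatFunc K} (hf : f ≠ 0)
    (h : ∀ π : K[X], ∀ hπ : Prime π, Even ((fin π hπ).v f)) : ∃ s : RatFunc K, f = s ^ 2 := by
  obtain ⟨c, s, hs⟩ := sq_of_even hf h
  rcases two_const hq c with rfl | rfl
  · exact absurd (by simpa using hs) hf
  · exact ⟨s, by simpa using hs⟩

theorem two_sq_or (hq : Fintype.card K = 2) {π₀ : K[X]} (hπ₀ : Prime π₀) {f : RatFunc K}
    (hf : f ≠ 0) (h : ∀ π : K[X], ∀ hπ : Prime π, π ≠ π₀ → Even ((fin π hπ).v f)) :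
    ∃ s : RatFunc K, f = s ^ 2 ∨ f = algebraMap K[X] (RatFunc K) π₀ * s ^ 2 := by
  by_cases h0 : Even ((fin π₀ hπ₀).v f)
  · obtain ⟨s, hs⟩ := two_sq hq hf (by
      intro π hπ
      by_cases e : π = π₀
      · subst e; exact h0
      · exact h π hπ e)
    exact ⟨s, Or.inl hs⟩
  · have hp : algebraMap K[X] (RatFunc K) π₀ ≠ 0 := by simpa using hπ₀.ne_zero
    obtain ⟨s, hs⟩ := two_sq hq (div_ne_zero hf hp) (by
      intro π hπ
      rw [(fin π hπ).div hf hp]
      by_cases e : π = π₀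
      · subst e
        rw [(fin_is_self hπ).2]
        exact (Int.even_sub_one).2 h0
      · rw [(fin_other hq hπ hπ₀ e).2, sub_zero]; exact h π hπ e)
    exact ⟨s, Or.inr (by rw [← hs]; field_simp)⟩

/-- Poles of `η ^ 2 + η` have even order. -/
theorem as_even {F : Type} [Field F] {ν : Val F} {η : F} {k : ℤ} (h : ν.Is k (η ^ 2 + η))
    (hk : k < 0) : Even k := by
  rcases Val.ge_or_lt (ν := ν) 0 η with h0 | h0
  · have h1 : ν.Ge 0 (η ^ 2 + η) := Val.Ge.add (by simpa using h0.pow two_ne_zero) h0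
    have := h1.le h
    omega
  · have := h.unique (((Val.is_self h0.1).pow 2).add ((Val.is_self h0.1).ge' (by
      push_cast; omega)))
    exact ⟨ν.v η, by push_cast at this; omega⟩

omit [Fintype K] in
theorem num_eq (x : RatFunc K) :
    algebraMap K[X] (RatFunc K) x.num = x * algebraMap K[X] (RatFunc K) x.denom := by
  have hd0 : algebraMap K[X] (RatFunc K) x.denom ≠ 0 := by simpa using RatFunc.denom_ne_zero x
  rw [← div_eq_iff hd0]; exact RatFunc.num_div_denom x

/-- Comparing two fractions in lowest terms. -/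
theorem lowest_terms (hq : Fintype.card K = 2) {η : RatFunc K} {P Q : K[X]} (hQ : Q ≠ 0)
    (hPQ : IsCoprime P Q)
    (h : (η ^ 2 + η) * algebraMap K[X] (RatFunc K) Q = algebraMap K[X] (RatFunc K) P) :
    η.denom ^ 2 = Q ∧ η.num * (η.num + η.denom) = P := by
  have e : η.num * (η.num + η.denom) * Q = P * η.denom ^ 2 := by
    apply IsFractionRing.injective K[X] (RatFunc K)
    simp only [map_mul, map_add, map_pow, num_eq, ← h]; ring
  have c0 := RatFunc.isCoprime_num_denom η
  have c1 : IsCoprime (η.num * (η.num + η.denom)) (η.denom ^ 2) :=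
    (c0.mul_left (by simpa using c0.add_mul_left_left 1)).pow_right
  have d1 : η.denom ^ 2 ∣ Q := c1.symm.dvd_of_dvd_mul_left ⟨P, by rw [e]; ring⟩
  have d2 : Q ∣ η.denom ^ 2 := hPQ.symm.dvd_of_dvd_mul_left ⟨_, by rw [← e, mul_comm]⟩
  have e2 := two_assoc hq (associated_of_dvd_dvd d1 d2)
  refine ⟨e2, mul_right_cancel₀ hQ ?_⟩
  rw [e, e2]

omit [Fintype K] in
theorem bezout_small {A C N : K[X]} (hA : A.Monic) (h : IsCoprime A C) :
    ∃ t s : K[X], N = t * A + s * C ∧ s.degree < A.degree := by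
  obtain ⟨u, v, huv⟩ := h
  refine ⟨N * u + (N * v /ₘ A) * C, (N * v) %ₘ A, ?_, degree_modByMonic_lt _ hA⟩
  have := modByMonic_add_div (N * v) A
  linear_combination -N * huv - C * this

theorem descentE2 (hq : Fintype.card K = 2) (n : ℕ) : ∀ A B : K[X], A.natDegree ≤ n → A ≠ 0 →
    B ≠ 0 → IsCoprime A B → ∀ η : RatFunc K,
      η ^ 2 + η = algebraMap K[X] (RatFunc K) A / algebraMap K[X] (RatFunc K) B
        + algebraMap K[X] (RatFunc K) B ^ 2 / (RatFunc.X * algebraMap K[X] (RatFunc K) A ^ 2) →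
      False := by
  induction n using Nat.strong_induction_on with
  | _ n ih =>
  intro A B hAn hA hB hAB η hη
  have h2 := two_poly hq
  have h2' := two_rat hq
  have hA' : algebraMap K[X] (RatFunc K) A ≠ 0 := by simpa using hA
  have hB' : algebraMap K[X] (RatFunc K) B ≠ 0 := by simpa using hB
  have hT : (RatFunc.X : RatFunc K) ≠ 0 := RatFunc.X_ne_zero
  have hTB : X ∣ B := by
    by_contra hcon
    have iB := fin_is_zero prime_X hcon
    have iA := Val.is_self (ν := fin X prime_X) hA'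
    have gA := (fin_ge_poly prime_X A).le iA
    have h3 := ((iB.pow 2).div (fin_X.mul (iA.pow 2))).add' ((iA.div iB).ge' (by push_cast; omega))
    rw [← hη] at h3
    obtain ⟨k, hk⟩ := as_even h3 (by push_cast; omega)
    push_cast at hk; omega
  have hdeg : B.natDegree ≤ A.natDegree := by
    by_contra hcon
    have iA : (inf (K := K)).Is (-A.natDegree) (algebraMap K[X] (RatFunc K) A) := ⟨hA', inf_poly A⟩
    have iB : (inf (K := K)).Is (-B.natDegree) (algebraMap K[X] (RatFunc K) B) := ⟨hB', inf_poly B⟩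
    have h3 := ((iB.pow 2).div (inf_is_X.mul (iA.pow 2))).add'
      ((iA.div iB).ge' (by push_cast; omega))
    rw [← hη] at h3
    obtain ⟨k, hk⟩ := as_even h3 (by push_cast; omega)
    push_cast at hk; omega
  obtain ⟨B1, rfl⟩ := hTB
  have hB1 : B1 ≠ 0 := right_ne_zero_of_mul hB
  have hB1' : algebraMap K[X] (RatFunc K) B1 ≠ 0 := by simpa using hB1
  have cAX : IsCoprime A X := hAB.of_mul_right_left
  have cAB1 : IsCoprime A B1 := hAB.of_mul_right_right
  have hcop : IsCoprime (A ^ 3 + X ^ 2 * B1 ^ 3) (A ^ 2 * (X * B1)) := by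
    refine IsCoprime.mul_right (IsCoprime.pow_right ?_) ?_
    · have : IsCoprime (X ^ 2 * B1 ^ 3) A := (cAX.symm.pow_left).mul_left cAB1.symm.pow_left
      have := this.add_mul_left_left (A ^ 2)
      rwa [show X ^ 2 * B1 ^ 3 + A * A ^ 2 = A ^ 3 + X ^ 2 * B1 ^ 3 by ring] at this
    · have : IsCoprime (A ^ 3) (X * B1) := hAB.pow_left
      have := this.add_mul_left_left (X * B1 ^ 2)
      rwa [show A ^ 3 + X * B1 * (X * B1 ^ 2) = A ^ 3 + X ^ 2 * B1 ^ 3 by ring] at this
  obtain ⟨e1, e2⟩ := lowest_terms hq (η := η) (mul_ne_zero (pow_ne_zero 2 hA) hB) hcop (by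
    rw [hη]
    simp only [map_mul, map_add, map_pow, RatFunc.algebraMap_X]
    field_simp)
  obtain ⟨Cc, hC⟩ : A ∣ η.denom :=
    (UniqueFactorizationMonoid.pow_dvd_pow_iff_dvd two_ne_zero).1 ⟨_, e1⟩
  have e3 : Cc ^ 2 = X * B1 := by
    apply mul_left_cancel₀ (pow_ne_zero 2 hA)
    rw [← e1, hC]; ring
  obtain ⟨C1, rfl⟩ : X ∣ Cc := prime_X.dvd_of_dvd_pow (n := 2) ⟨_, e3⟩
  have e4 : B1 = X * C1 ^ 2 := by
    apply mul_left_cancel₀ (X_ne_zero (R := K))
    rw [← e3]; ring
  subst e4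
  have hC1 : C1 ≠ 0 := by rintro rfl; simp at hB1
  have cAC : IsCoprime A (X * C1) :=
    cAX.mul_right (cAB1.of_mul_right_right.of_isCoprime_of_dvd_right (dvd_pow_self _ two_ne_zero))
  obtain ⟨t, s, hN, hs⟩ := bezout_small (N := η.num) (two_monic hq hA) cAC
  have hdB : (X * (X * C1 ^ 2)).natDegree = 2 + 2 * C1.natDegree := by
    rw [natDegree_mul X_ne_zero hB1, natDegree_mul X_ne_zero (pow_ne_zero 2 hC1), natDegree_X,
      natDegree_pow]; ring
  rw [hdB] at hdeg
  have hs' : s.natDegree < A.natDegree := by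
    by_cases h0 : s = 0
    · rw [h0, natDegree_zero]; omega
    · exact natDegree_lt_natDegree h0 hs
  have e5 : A ^ 2 * (t ^ 2 + t * (X * C1) + A) = (X * C1) ^ 2 * (s ^ 2 + s * A + X ^ 3 * C1 ^ 4) := by
    rw [hN, hC] at e2
    linear_combination e2 + (A ^ 3 - t * A * s * (X * C1) - s ^ 2 * (X * C1) ^ 2
      - s * A * (X * C1) ^ 2) * h2
  have e6 : s ^ 2 + s * A + X ^ 3 * C1 ^ 4 = 0 := by
    have d1 : A ^ 2 ∣ s ^ 2 + s * A + X ^ 3 * C1 ^ 4 :=
      (cAC.pow (m := 2) (n := 2)).dvd_of_dvd_mul_left ⟨_, e5.symm⟩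
    refine eq_zero_of_dvd_of_natDegree_lt d1 ?_
    rw [natDegree_pow]
    have b1 : (s ^ 2).natDegree ≤ 2 * A.natDegree - 1 := by rw [natDegree_pow]; omega
    have b2 : (s * A).natDegree ≤ 2 * A.natDegree - 1 := natDegree_mul_le.trans (by omega)
    have b3 : ((X : K[X]) ^ 3 * C1 ^ 4).natDegree ≤ 2 * A.natDegree - 1 :=
      natDegree_mul_le.trans (by rw [natDegree_pow, natDegree_pow, natDegree_X]; omega)
    have := natDegree_add_le_of_degree_le (natDegree_add_le_of_degree_le b1 b2) b3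
    omega
  have e7 : t ^ 2 + t * (X * C1) + A = 0 := by
    rw [e6, mul_zero] at e5
    exact (mul_eq_zero.1 e5).resolve_left (pow_ne_zero 2 hA)
  have e8 : s * (s + A) = X ^ 3 * C1 ^ 4 := by linear_combination e6 - (X ^ 3 * C1 ^ 4) * h2
  have c1 : IsCoprime s (s + A) := by
    have : IsCoprime A (s * (s + A)) :=
      (cAC.pow_right (n := 4)).of_isCoprime_of_dvd_right ⟨X, by rw [e8]; ring⟩
    have := this.of_mul_right_left.symm.add_mul_left_right 1
    simpa [add_comm] using this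
  have key : ∀ f g : K[X], f + g = A → f * g = X ^ 3 * C1 ^ 4 → IsCoprime f g → X ∣ f →
      g.natDegree ≤ A.natDegree → False := by
    intro f g hfg hm hc hXf hg
    have cXg : IsCoprime X g := hc.of_isCoprime_of_dvd_left hXf
    obtain ⟨f1, rfl⟩ : X ^ 3 ∣ f := (cXg.pow_left (m := 3)).dvd_of_dvd_mul_right ⟨_, hm⟩
    have hm1 : f1 * g = C1 ^ 4 := by
      apply mul_left_cancel₀ (pow_ne_zero 3 (X_ne_zero (R := K)))
      rw [← hm]; ring
    have hc1 : IsCoprime f1 g := hc.of_mul_left_right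
    obtain ⟨v, hv⟩ := exists_associated_pow_of_mul_eq_pow' hc1 hm1
    obtain ⟨r, hr⟩ := exists_associated_pow_of_mul_eq_pow' hc1.symm (by rw [mul_comm]; exact hm1)
    have hv' := two_assoc hq hv
    have hr' := two_assoc hq hr
    subst hv' hr'
    have e9 : C1 = r * v := by
      have : (C1 + r * v) ^ 4 = 0 := by
        linear_combination -hm1 + (2 * C1 ^ 3 * (r * v) + 3 * C1 ^ 2 * (r * v) ^ 2
          + 2 * C1 * (r * v) ^ 3 + (r * v) ^ 4) * h2
      have := pow_eq_zero_iff (by norm_num) |>.1 this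
      linear_combination this - r * v * h2
    subst e9
    have hr0 : r ≠ 0 := left_ne_zero_of_mul hC1
    have hv0 : v ≠ 0 := right_ne_zero_of_mul hC1
    have hr0' : algebraMap K[X] (RatFunc K) r ≠ 0 := by simpa using hr0
    have hv0' : algebraMap K[X] (RatFunc K) v ≠ 0 := by simpa using hv0
    rw [natDegree_pow] at hg
    have c2 : IsCoprime r (X * v) :=
      (hc.symm.of_isCoprime_of_dvd_left (dvd_pow_self r (by norm_num))).of_isCoprime_of_dvd_right
        ⟨X ^ 2 * v ^ 3, by ring⟩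
    refine ih r.natDegree (by omega) r (X * v) le_rfl hr0 (mul_ne_zero X_ne_zero hv0) c2
      (algebraMap K[X] (RatFunc K) t / (RatFunc.X * algebraMap K[X] (RatFunc K) r
        * algebraMap K[X] (RatFunc K) v) + algebraMap K[X] (RatFunc K) r
          / (RatFunc.X * algebraMap K[X] (RatFunc K) v)) ?_
    have e10 := congrArg (algebraMap K[X] (RatFunc K)) e7
    rw [← hfg] at e10
    simp only [map_mul, map_add, map_pow, map_zero, RatFunc.algebraMap_X] at e10 ⊢
    set T : RatFunc K := RatFunc.X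
    set r' := algebraMap K[X] (RatFunc K) r
    set v' := algebraMap K[X] (RatFunc K) v
    set t' := algebraMap K[X] (RatFunc K) t
    field_simp
    linear_combination e10 + (t' * r' ^ 2 - T ^ 3 * v' ^ 4) * h2'
  rcases prime_X.dvd_or_dvd (show (X : K[X]) ∣ s * (s + A) from ⟨X ^ 2 * C1 ^ 4, by rw [e8]; ring⟩)
    with h | h
  · exact key s (s + A) (by linear_combination s * h2) e8 c1 h
      ((natDegree_add_le _ _).trans (max_le hs'.le le_rfl))
  · exact key (s + A) s (by linear_combination s * h2) (by rw [mul_comm]; exact e8) c1.symm h hs'.le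

theorem curveE2 (hq : Fintype.card K = 2) {η γ : RatFunc K} (hγ : γ ≠ 0)
    (h : η ^ 2 + η = γ + 1 / (RatFunc.X * γ ^ 2)) : False := by
  refine descentE2 hq _ γ.num γ.denom le_rfl (RatFunc.num_ne_zero hγ) (RatFunc.denom_ne_zero γ)
    (RatFunc.isCoprime_num_denom γ) η ?_
  have hd0 : algebraMap K[X] (RatFunc K) γ.denom ≠ 0 := by simpa using RatFunc.denom_ne_zero γ
  have hT : (RatFunc.X : RatFunc K) ≠ 0 := RatFunc.X_ne_zero
  rw [h, num_eq]
  field_simp

theorem curveE1 (hq : Fintype.card K = 2) {η β : RatFunc K} (hβ : β ≠ 0)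
    (h : η ^ 2 + η = β + 1 / (RatFunc.X * β)) : False := by
  have h2 := two_rat hq
  have hT : (RatFunc.X : RatFunc K) ≠ 0 := RatFunc.X_ne_zero
  obtain ⟨s, hs⟩ := two_sq_or hq prime_X hβ (by
    intro π hπ hne
    have iT := fin_other_X hq hπ hne
    have iβ := Val.is_self (ν := fin π hπ) hβ
    have i1 := Val.is_one.div (iT.mul iβ)
    rcases lt_trichotomy ((fin π hπ).v β) 0 with hk | hk | hk
    · exact as_even (h ▸ iβ.add (i1.ge' (by omega))) hk
    · rw [hk]; exact Even.zero
    · obtain ⟨k, hk'⟩ := as_even (h ▸ i1.add' (iβ.ge' (by omega))) (by omega)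
      exact ⟨-k, by omega⟩)
  rw [RatFunc.algebraMap_X] at hs
  have hs0 : s ≠ 0 := by rintro rfl; simp [hβ] at hs
  rcases hs with rfl | rfl
  · exact curveE2 hq (η := η + s) hs0 (by linear_combination h + (η * s + s ^ 2) * h2)
  · refine curveE2 hq (η := η + 1 / (RatFunc.X * s)) (γ := 1 / (RatFunc.X * s)) (by simp [hT, hs0])
      ?_
    have e : 1 / (RatFunc.X * (1 / (RatFunc.X * s)) ^ 2) = RatFunc.X * s ^ 2 := by field_simp
    have e' : 1 / (RatFunc.X * (RatFunc.X * s ^ 2)) = (1 / (RatFunc.X * s)) ^ 2 := by field_simp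
    rw [e]
    rw [e'] at h
    linear_combination h + (η * (1 / (RatFunc.X * s)) + (1 / (RatFunc.X * s)) ^ 2) * h2

theorem curveE0 (hq : Fintype.card K = 2) {y σ : RatFunc K} (hσ : σ ≠ 0) (hσ1 : σ + 1 ≠ 0)
    (h : y ^ 2 + y = (σ + 1 / σ) / RatFunc.X) : False := by
  have h2 := two_rat hq
  have hT : (RatFunc.X : RatFunc K) ≠ 0 := RatFunc.X_ne_zero
  obtain ⟨β, hs⟩ := two_sq_or hq prime_X hσ (by
    intro π hπ hne
    have iT := fin_other_X hq hπ hne
    have iβ := Val.is_self (ν := fin π hπ) hσ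
    have i1 := Val.is_one.div iβ
    rcases lt_trichotomy ((fin π hπ).v σ) 0 with hk | hk | hk
    · obtain ⟨k, hk'⟩ := as_even (h ▸ (iβ.add (i1.ge' (by omega))).div iT) (by omega)
      exact ⟨k, by omega⟩
    · rw [hk]; exact Even.zero
    · obtain ⟨k, hk'⟩ := as_even (h ▸ (i1.add' (iβ.ge' (by omega))).div iT) (by omega)
      exact ⟨-k, by omega⟩)
  rw [RatFunc.algebraMap_X] at hs
  set T : RatFunc K := RatFunc.X with hTdef
  have hβ : β ≠ 0 := by rintro rfl; simp [hσ] at hs
  rcases hs with rfl | rfl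
  · have hβ1 : β + 1 ≠ 0 := by
      intro h0; apply hσ1; linear_combination (β + 1) * h0 - β * h2
    have hw : T * (y ^ 2 + y) * β ^ 2 = (β + 1) ^ 4 := by
      rw [h]; field_simp
      linear_combination (-2 * β ^ 3 - 3 * β ^ 2 - 2 * β) * h2
    have hy : y ≠ 0 := by
      rintro rfl
      exact pow_ne_zero 4 hβ1 (by rw [← hw]; simp)
    refine curveE1 hq (η := 1 / (β + 1)) (β := (β + 1) ^ 2 / (β * T * y))
      (div_ne_zero (pow_ne_zero 2 hβ1) (mul_ne_zero (mul_ne_zero hβ hT) hy)) ?_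
    rw [← hTdef]
    field_simp
    have := two_charP hq
    linear_combination (norm := (ring_nf; reduce_mod_char!)) hw
  · have e : y ^ 2 + y = (β + 1 / (T * β)) ^ 2 := by
      rw [h]; field_simp
      linear_combination (-T * β ^ 2) * h2
    refine curveE1 hq (η := y + (β + 1 / (T * β))) hβ ?_
    rw [← hTdef]
    set w := β + 1 / (T * β)
    have e1 : (y + w) ^ 2 = y := by linear_combination e + (y * w + w ^ 2 - y) * h2
    rw [e1]
    linear_combination y * h2

theorem curveE5 (hq : Fintype.card K = 2) {y s : RatFunc K} (hs : s ≠ 0)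
    (h : (y ^ 2 + y) * (1 + RatFunc.X * s) = RatFunc.X * s ^ 2) : False := by
  have h2 := two_rat hq
  have hT : (RatFunc.X : RatFunc K) ≠ 0 := RatFunc.X_ne_zero
  have hσ : 1 + RatFunc.X * s ≠ 0 := by
    intro h0; rw [h0, mul_zero] at h; exact mul_ne_zero hT (pow_ne_zero 2 hs) h.symm
  refine curveE0 hq (y := y) hσ (by
    intro h0; apply mul_ne_zero hT hs; linear_combination h0 - h2) ?_
  field_simp
  linear_combination RatFunc.X * h - (1 + RatFunc.X * s) * h2

/-- Torsion `A/T ⊕ A/T^2` does not occur for `q = 2`. -/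
theorem module5 (hq : Fintype.card K = 2) {g Δ x y z : RatFunc K} (hx : x ≠ 0) (hy : y ≠ 0)
    (hxy : x + y ≠ 0) (ex : RatFunc.X * x + g * x ^ 2 + Δ * x ^ 4 = 0)
    (ey : RatFunc.X * y + g * y ^ 2 + Δ * y ^ 4 = 0)
    (ez : RatFunc.X * z + g * z ^ 2 + Δ * z ^ 4 = x) : False := by
  have h2 := two_rat hq
  set T : RatFunc K := RatFunc.X with hTdef
  have e1 : T + g * x + Δ * x ^ 3 = 0 := by
    apply mul_left_cancel₀ hx; linear_combination ex
  have e2 : T + g * y + Δ * y ^ 3 = 0 := by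
    apply mul_left_cancel₀ hy; linear_combination ey
  have e3 : g = Δ * (x ^ 2 + x * y + y ^ 2) := by
    apply mul_left_cancel₀ hxy
    linear_combination e1 + e2 - (T + Δ * (x ^ 3 + x ^ 2 * y + x * y ^ 2 + y ^ 3)) * h2
  have e4 : T = Δ * (x * y * (x + y)) := by
    rw [e3] at e1
    linear_combination e1 - (Δ * (x ^ 3 + x ^ 2 * y + x * y ^ 2)) * h2
  have e5 : Δ * (z * (z + x) * (z * (z + x) + y * (y + x))) = x := by
    rw [e3, e4] at ez
    linear_combination ez + (Δ * z ^ 3 * x) * h2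
  have hz : z * (z + x) ≠ 0 := by
    intro h0; rw [h0] at e5; exact hx (by simpa using e5.symm)
  refine curveE5 hq (y := y / x) (s := z * (z + x) / x ^ 2) (div_ne_zero hz (pow_ne_zero 2 hx)) ?_
  rw [← hTdef]
  have e6 : T * (z * (z + x) * (z * (z + x) + y * (y + x))) = x ^ 2 * (y * (y + x)) := by
    rw [e4]; linear_combination (x * y * (x + y)) * e5
  field_simp
  have := two_charP hq
  linear_combination (norm := (ring_nf; reduce_mod_char!)) e6

/-- Torsion `A/T^3` does not occur for `q = 2`. -/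
theorem module2 (hq : Fintype.card K = 2) {g Δ a b c : RatFunc K} (hΔ : Δ ≠ 0) (hc : c ≠ 0)
    (ea : RatFunc.X * a + g * a ^ 2 + Δ * a ^ 4 = b)
    (eb : RatFunc.X * b + g * b ^ 2 + Δ * b ^ 4 = c)
    (ec : RatFunc.X * c + g * c ^ 2 + Δ * c ^ 4 = 0) : False := by
  have h2 := two_rat hq
  have hT : (RatFunc.X : RatFunc K) ≠ 0 := RatFunc.X_ne_zero
  set T : RatFunc K := RatFunc.X with hTdef
  have e1 : g = (T + Δ * c ^ 3) / c := by
    field_simp
    apply mul_left_cancel₀ hc
    linear_combination ec - (T * c + Δ * c ^ 4) * h2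
  set D := Δ * c ^ 3 with hD
  have hD0 : D ≠ 0 := mul_ne_zero hΔ (pow_ne_zero 3 hc)
  set A := (a / c) ^ 2 + a / c with hA
  set B := (b / c) ^ 2 + b / c with hB
  have fa : T * A + D * A ^ 2 = b / c := by
    rw [← ea, e1, hA, hD]; field_simp
    linear_combination (Δ * a ^ 3 * c ^ 2) * h2
  have fb : T * B + D * B ^ 2 = 1 := by
    have : (1 : RatFunc K) = c / c := by field_simp
    rw [this]
    nth_rewrite 1 [← eb]
    rw [e1, hB, hD]; field_simp
    linear_combination (Δ * b ^ 3 * c ^ 2) * h2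
  have hB0 : B ≠ 0 := by rintro h0; rw [h0] at fb; simp at fb
  refine module5 hq (g := T ^ 2 + D) (Δ := D ^ 2) (x := B) (y := T / D) (z := A) hB0
    (div_ne_zero hT hD0) ?_ ?_ ?_ ?_
  · intro h0
    have : T * B + D * B ^ 2 = D * B * (B + T / D) := by field_simp; ring
    rw [this, h0, mul_zero] at fb
    exact zero_ne_one fb
  · rw [← hTdef]
    linear_combination (T * B + D * B ^ 2 + 2) * fb + (1 - T * D * B ^ 3) * h2
  · rw [← hTdef]; field_simp
    have := two_charP hq
    ring_nf; reduce_mod_char!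
  · rw [← hTdef]
    linear_combination (T * A + D * A ^ 2 + b / c + 1) * fa - (T * D * A ^ 3) * h2

end Pool.Agent.Lib.MP_1b9c20_nt
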