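import Pool.Agent.Lib.MP_1b9c20_nt.TwoA

/-! `q = 2`: descent on the elliptic curve attached to level `T ^ 2 (T + 1)`. -/

set_option autoImplicit false

namespace Pool.Agent.Lib.MP_1b9c20_nt

open Polynomial

section loc
variable {F : Type} [Field F] {ν : Val F}

theorem parity_aux {T a b c : F} (hT : ν.Ge 0 T) (hT0 : T ≠ 0) (hT1 : ν.Is 0 (T + 1))
    (ha : a ≠ 0) (hb : b ≠ 0) (hc : c ≠ 0) (h : T * (a * b * c) = (a + b) * (b + c) * (c + a))
    (h' : (a + b + c) * (a * b + b * c + c * a) = (T + 1) * (a * b * c))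
    (h1 : ν.v c ≤ ν.v b) (h2 : ν.v b ≤ ν.v a) :
    Even (ν.v (a + b + c) + (ν.v a + ν.v b + ν.v c)) := by
  have ia := Val.is_self (ν := ν) ha
  have ib := Val.is_self (ν := ν) hb
  have ic := Val.is_self (ν := ν) hc
  have iT := Val.is_self (ν := ν) hT0
  have gT := hT.le iT
  have iL := iT.mul ((ia.mul ib).mul ic)
  have iR := hT1.mul ((ia.mul ib).mul ic)
  rw [h] at iL
  rw [← h'] at iR
  have hz : a + b + c ≠ 0 := left_ne_zero_of_mul iR.1
  have iz := Val.is_self (ν := ν) hz
  by_cases c1 : ν.v c < ν.v b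
  · have i1 := ic.add' (ib.ge' (j := ν.v c + 1) (by omega))
    have i2 := ic.add (ia.ge' (j := ν.v c + 1) (by omega))
    have i3 := ic.add' ((ia.ge' (j := ν.v c + 1) (by omega)).add (ib.ge' (by omega)))
    have e : ν.v a = ν.v b := by
      by_contra hne
      have i4 := ib.add' (ia.ge' (j := ν.v b + 1) (by omega))
      have := iL.unique ((i4.mul i1).mul i2)
      omega
    exact ⟨ν.v c + ν.v a, by have := i3.2; omega⟩
  · by_cases c2 : ν.v b < ν.v a
    · have i1 : ν.Is (ν.v b + ν.v c) (a * b + b * c + c * a) := by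
        have := ((ib.mul ic).add' ((ia.mul ib).ge' (by omega))).add ((ic.mul ia).ge' (by omega))
        exact this
      have := iR.unique (iz.mul i1)
      exact ⟨ν.v c + ν.v a, by omega⟩
    · have g1 : ν.Ge (ν.v c) (a + b + c) := ((ia.ge' (by omega)).add (ib.ge' (by omega))).add ic.ge
      have g2 : ν.Ge (2 * ν.v c) (a * b + b * c + c * a) :=
        (((ia.mul ib).ge' (by omega)).add ((ib.mul ic).ge' (by omega))).add
          ((ic.mul ia).ge' (by omega))
      have l1 := g1.le iz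
      have l2 := g2.le (iR.of_mul iz)
      exact ⟨2 * ν.v c, by omega⟩

theorem parity_E6 {T a b c : F} (hT : ν.Ge 0 T) (hT0 : T ≠ 0)
    (hT1 : ν.Is 0 (T + 1)) (ha : a ≠ 0) (hb : b ≠ 0) (hc : c ≠ 0)
    (h : T * (a * b * c) = (a + b) * (b + c) * (c + a)) :
    Even (ν.v ((a + b + c) * (a * b * c))) := by
  have key : ∀ a b c : F, a ≠ 0 → b ≠ 0 → c ≠ 0 → T * (a * b * c) = (a + b) * (b + c) * (c + a) →
      ν.v c ≤ ν.v b → ν.v b ≤ ν.v a → Even (ν.v ((a + b + c) * (a * b * c))) := by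
    intro a b c ha hb hc h h1 h2'
    have h' : (a + b + c) * (a * b + b * c + c * a) = (T + 1) * (a * b * c) := by
      linear_combination -h
    have hz : a + b + c ≠ 0 := by
      intro h0; rw [h0, zero_mul] at h'
      exact mul_ne_zero hT1.1 (mul_ne_zero (mul_ne_zero ha hb) hc) h'.symm
    rw [ν.mul hz (mul_ne_zero (mul_ne_zero ha hb) hc), ν.mul (mul_ne_zero ha hb) hc, ν.mul ha hb]
    exact parity_aux hT hT0 hT1 ha hb hc h h' h1 h2'
  rcases le_total (ν.v a) (ν.v b) with h1 | h1 <;> rcases le_total (ν.v b) (ν.v c) with h3 | h3 <;>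
    rcases le_total (ν.v a) (ν.v c) with h4 | h4
  · convert key c b a hc hb ha (by linear_combination h) h1 h3 using 2; ring
  · convert key c b a hc hb ha (by linear_combination h) h1 h3 using 2; ring
  · convert key b c a hb hc ha (by linear_combination h) h4 h3 using 2; ring
  · convert key b a c hb ha hc (by linear_combination h) h4 h1 using 2; ring
  · convert key c a b hc ha hb (by linear_combination h) h1 h4 using 2; ring
  · convert key a c b ha hc hb (by linear_combination h) h3 h4 using 2; ring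
  · convert key c a b hc ha hb (by linear_combination h) h1 h4 using 2; ring
  · exact key a b c ha hb hc h h3 h1

theorem frob_root [CharP F 2] {T P Q R s : F} (hT : T ≠ 0) (h1 : P + Q + R = T)
    (h2 : P * Q * R = T) (hs : s ≠ 0) (h3 : (P + 1) * (Q + 1) * (R + 1) = s ^ 2) :
    ∃ p : F, p ^ 2 = T * P := by
  have hP : P ≠ 0 := by rintro rfl; exact hT (by rw [← h2]; simp)
  have hP1 : P + 1 ≠ 0 := by
    intro h0; rw [h0] at h3; exact pow_ne_zero 2 hs (by rw [← h3]; simp)
  refine ⟨P * (s / (P + 1) + 1), ?_⟩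
  field_simp
  linear_combination (norm := (ring_nf; reduce_mod_char!))
    P * h3 + (P + 1) * h2 + P * (P + 1) * h1

theorem sq_inj [CharP F 2] {a b : F} (h : a ^ 2 = b ^ 2) : a = b := by
  have : (a + b) ^ 2 = 0 := by linear_combination (norm := (ring_nf; reduce_mod_char!)) h
  have := pow_eq_zero_iff two_ne_zero |>.1 this
  linear_combination (norm := (ring_nf; reduce_mod_char!)) this

end loc

variable {K : Type} [Field K] [Fintype K]

theorem two_inf_res (hq : Fintype.card K = 2) {f g : RatFunc K} {k : ℤ}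
    (hf : (inf (K := K)).Is k f) (hg : (inf (K := K)).Is k g) : (inf (K := K)).Ge (k + 1) (f + g) := by
  obtain ⟨c, hc⟩ := inf_res hf hg
  rcases two_const hq c with rfl | rfl
  · have := hc.le (by simpa using hf); omega
  · convert hc using 1
    rw [map_one]; linear_combination g * two_rat hq

theorem two_fin_res (hq : Fintype.card K = 2) {f g : RatFunc K} {k : ℤ}
    (hf : (fin X prime_X).Is k f) (hg : (fin X prime_X).Is k g) :
    (fin X prime_X).Ge (k + 1) (f + g) := by
  have e : fin (X : K[X]) prime_X = fin (X - C 0) (prime_X_sub_C 0) := by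
    congr 1; simp
  rw [e] at hf hg ⊢
  obtain ⟨c, hc⟩ := fin_res 0 hf.ge hg
  rcases two_const hq c with rfl | rfl
  · have := hc.le (by simpa using hf); omega
  · convert hc using 1
    rw [map_one]; linear_combination g * two_rat hq

/-- The Verschiebung step. -/
theorem vstep (hq : Fintype.card K = 2) {p q r : RatFunc K} (h1 : p + q + r = RatFunc.X)
    (h2 : p * q * r = RatFunc.X ^ 2) (hp0 : (fin X prime_X).v p ≤ 0) (hpi : (inf (K := K)).v p ≤ -2)
    {N D : K[X]} (hN : N ≠ 0)
    (hND : p ^ 2 * algebraMap K[X] (RatFunc K) D = RatFunc.X * algebraMap K[X] (RatFunc K) N) :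
    ∃ h : ℕ, 1 ≤ h ∧ 4 * h ≤ N.natDegree ∧ ∃ a b c : K[X], a.natDegree ≤ 2 * h ∧
      b.natDegree ≤ 2 * h ∧ c.natDegree ≤ 2 * h ∧ a ≠ 0 ∧ b ≠ 0 ∧ c ≠ 0 ∧
        X * (a * b * c) = (a + b) * (b + c) * (c + a) := by
  have := two_charP hq
  have t2 := two_poly hq
  have hT : (RatFunc.X : RatFunc K) ≠ 0 := RatFunc.X_ne_zero
  have hp : p ≠ 0 := by rintro rfl; exact pow_ne_zero 2 hT (by rw [← h2]; simp)
  have hA := RatFunc.num_ne_zero hp
  have hB := RatFunc.denom_ne_zero p
  have hAB := RatFunc.isCoprime_num_denom p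
  have eA := num_eq p
  have hdeg : p.denom.natDegree + 2 ≤ p.num.natDegree := by
    simp only [inf, RatFunc.intDegree] at hpi; omega
  have hXA : ¬ X ∣ p.num := by
    intro hd
    have hB' : ¬ X ∣ p.denom := fun h => prime_X.not_isUnit (hAB.isUnit_of_dvd' hd h)
    have g1 := (fin_ge_poly_iff prime_X p.num 1).2 (by simpa using hd)
    rw [eA, mul_comm] at g1
    have := (g1.of_mul (fin_is_zero prime_X hB')).le_v hp
    push_cast at this; omega
  set A := p.num
  set B := p.denom
  have cXA : IsCoprime X A := (irreducible_X.coprime_iff_not_dvd).2 hXA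
  set E := A + X * B with hE
  have cAE : IsCoprime A E := by
    have := (cXA.symm.mul_right hAB).add_mul_left_right 1
    rwa [mul_one, add_comm] at this
  have cXE : IsCoprime X E := cXA.add_mul_left_right B
  have cBE : IsCoprime B E := hAB.symm.add_mul_right_right X
  have hE0 : E ≠ 0 := by
    intro h0; rw [h0] at cXE
    exact prime_X.not_isUnit (isCoprime_zero_right.1 cXE)
  have hB' : algebraMap K[X] (RatFunc K) B ≠ 0 := by simpa using hB
  have eE : algebraMap K[X] (RatFunc K) E = (q + r) * algebraMap K[X] (RatFunc K) B := by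
    rw [hE, map_add, map_mul, eA, RatFunc.algebraMap_X, ← h1]
    ring_nf; reduce_mod_char!
  have hqr : q + r ≠ 0 := by
    intro h0; rw [h0, zero_mul] at eE; exact hE0 (by simpa using eE)
  obtain ⟨e1, e2⟩ := lowest_terms hq (η := q / (q + r)) (P := X ^ 2 * B ^ 3) (Q := A * E ^ 2)
    (mul_ne_zero hA (pow_ne_zero 2 hE0))
    ((cXA.pow_left.mul_left hAB.symm.pow_left).mul_right
      (cXE.pow_left.mul_left cBE.pow_left).pow_right) (by
      simp only [map_mul, map_pow, eA, eE, RatFunc.algebraMap_X, ← h2]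
      field_simp
      ring_nf; reduce_mod_char!)
  obtain ⟨α, hα⟩ : E ∣ (q / (q + r)).denom :=
    (UniqueFactorizationMonoid.pow_dvd_pow_iff_dvd two_ne_zero).1 ⟨A, by rw [e1, mul_comm]⟩
  have e3 : A = α ^ 2 := by
    apply mul_right_cancel₀ (pow_ne_zero 2 hE0)
    rw [← e1, hα]; ring
  have hα0 : α ≠ 0 := by rintro rfl; exact hA (by rw [e3]; simp)
  have cαE : IsCoprime α E := cAE.of_isCoprime_of_dvd_left ⟨α, by rw [e3]; ring⟩
  obtain ⟨s, t, hN', ht⟩ := bezout_small (N := (q / (q + r)).num) (two_monic hq hα0) cαE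
  have hdA : A.natDegree = 2 * α.natDegree := by rw [e3, natDegree_pow]
  have ht' : t.natDegree < α.natDegree := by
    by_cases h0 : t = 0
    · rw [h0, natDegree_zero]; omega
    · exact natDegree_lt_natDegree h0 ht
  have e4 : X * B = E + α ^ 2 := by rw [hE, e3]; linear_combination (-α ^ 2) * t2
  have e5 : α ^ 2 * (s ^ 2 + s * E + α ^ 2 * B) = E ^ 2 * (t ^ 2 + t * α + B) := by
    rw [hN', hα] at e2
    have e6 : X ^ 2 * B ^ 3 = B * (E + α ^ 2) ^ 2 := by rw [← e4]; ring
    rw [e6] at e2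
    linear_combination e2 + (α ^ 4 * B + B * E * α ^ 2 - s * α * t * E - t ^ 2 * E ^ 2
      - t * α * E ^ 2) * t2
  have e6 : t ^ 2 + t * α + B = 0 := by
    have d1 : α ^ 2 ∣ t ^ 2 + t * α + B :=
      (cαE.pow (m := 2) (n := 2)).dvd_of_dvd_mul_left ⟨_, e5.symm⟩
    refine eq_zero_of_dvd_of_natDegree_lt d1 ?_
    rw [natDegree_pow]
    have b1 : (t ^ 2).natDegree ≤ 2 * α.natDegree - 1 := by rw [natDegree_pow]; omega
    have b2 : (t * α).natDegree ≤ 2 * α.natDegree - 1 := natDegree_mul_le.trans (by omega)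
    have b3 : B.natDegree ≤ 2 * α.natDegree - 1 := by omega
    have := natDegree_add_le_of_degree_le (natDegree_add_le_of_degree_le b1 b2) b3
    omega
  have e7 : s * (s + E) = α ^ 2 * B := by
    rw [e6, mul_zero] at e5
    have := (mul_eq_zero.1 e5).resolve_left (pow_ne_zero 2 hα0)
    linear_combination this - (α ^ 2 * B) * t2
  have e8 : t * (t + α) = B := by linear_combination e6 - B * t2
  have hs0 : s * (s + E) ≠ 0 := e7 ▸ mul_ne_zero (pow_ne_zero 2 hα0) hB
  have ht0 : t * (t + α) ≠ 0 := e8 ▸ hB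
  have hdE : E.natDegree ≤ 2 * α.natDegree := by
    refine (natDegree_add_le _ _).trans (max_le hdA.le (natDegree_mul_le.trans ?_))
    rw [natDegree_X]; omega
  have hds : s.natDegree ≤ 2 * α.natDegree := by
    by_contra hcon
    have l1 : (s + E).natDegree = s.natDegree := natDegree_add_eq_left_of_natDegree_lt (by omega)
    have l2 := congrArg natDegree e7
    rw [natDegree_mul (left_ne_zero_of_mul hs0) (right_ne_zero_of_mul hs0),
      natDegree_mul (pow_ne_zero 2 hα0) hB, natDegree_pow, l1] at l2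
    omega
  refine ⟨α.natDegree, by omega, ?_, t * α, (t + α) * α, s + E, ?_, ?_, ?_,
    mul_ne_zero (left_ne_zero_of_mul ht0) hα0, mul_ne_zero (right_ne_zero_of_mul ht0) hα0,
    right_ne_zero_of_mul hs0, ?_⟩
  · have f1 : A ^ 2 * D = X * B ^ 2 * N := by
      apply IsFractionRing.injective K[X] (RatFunc K)
      simp only [map_mul, map_pow, eA, RatFunc.algebraMap_X]
      linear_combination (algebraMap K[X] (RatFunc K) B) ^ 2 * hND
    have f2 : A ^ 2 ∣ N :=
      ((cXA.symm.mul_right hAB.pow_right).pow_left (m := 2)).dvd_of_dvd_mul_left ⟨D, f1.symm⟩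
    have := natDegree_le_of_dvd f2 hN
    rw [natDegree_pow, hdA] at this
    omega
  · exact natDegree_mul_le.trans (by omega)
  · refine natDegree_mul_le.trans ?_
    have : (t + α).natDegree ≤ α.natDegree := (natDegree_add_le _ _).trans (max_le ht'.le le_rfl)
    omega
  · exact (natDegree_add_le _ _).trans (max_le hds hdE)
  · linear_combination
      (α ^ 2 * (X * (s + E) + α ^ 2)) * e8 + α ^ 2 * (s + E) * e4 + α ^ 2 * e7
        + (α ^ 4 * B - (2 * t * α * s * E + t * α * s ^ 2 + t * α * E ^ 2 + 2 * t * α ^ 3 * s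
          + 2 * t * α ^ 3 * E + t * α ^ 5 + 2 * t ^ 2 * α ^ 2 * s + 2 * t ^ 2 * α ^ 2 * E
          + 2 * t ^ 2 * α ^ 4 + t ^ 3 * α ^ 3 + α ^ 2 * s * E + α ^ 2 * s ^ 2)) * t2

theorem choose_root (hq : Fintype.card K = 2) {p q r : RatFunc K} (h1 : p + q + r = RatFunc.X)
    (h2 : p * q * r = RatFunc.X ^ 2) :
    ((fin X prime_X).v p ≤ 0 ∧ (inf (K := K)).v p ≤ -2) ∨
      ((fin X prime_X).v q ≤ 0 ∧ (inf (K := K)).v q ≤ -2) ∨
        ((fin X prime_X).v r ≤ 0 ∧ (inf (K := K)).v r ≤ -2) := by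
  have hT : (RatFunc.X : RatFunc K) ≠ 0 := RatFunc.X_ne_zero
  have k1 : ∀ p q r : RatFunc K, p + q + r = RatFunc.X → p * q * r = RatFunc.X ^ 2 →
      ((fin X prime_X).v p ≤ 0 ∨ (fin X prime_X).v q ≤ 0) ∧
        ((inf (K := K)).v p ≤ -2 ∨ (inf (K := K)).v q ≤ -2) := by
    intro p q r h1 h2
    have h0 : p * q * r ≠ 0 := h2 ▸ pow_ne_zero 2 hT
    have hp : p ≠ 0 := left_ne_zero_of_mul (left_ne_zero_of_mul h0)
    have hq' : q ≠ 0 := right_ne_zero_of_mul (left_ne_zero_of_mul h0)
    have hr : r ≠ 0 := right_ne_zero_of_mul h0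
    have er : r = RatFunc.X - p - q := by rw [← h1]; ring
    constructor
    · by_contra hcon
      have ip := Val.is_self (ν := fin X prime_X) hp
      have iq := Val.is_self (ν := fin X prime_X) hq'
      have ir := Val.is_self (ν := fin X prime_X) hr
      have g := (er ▸ (fin_X.ge.sub (ip.ge' (by omega))).sub (iq.ge' (by omega))).le ir
      have := (h2 ▸ (ip.mul iq).mul ir).unique (fin_X.pow 2)
      push_cast at this; omega
    · by_contra hcon
      have ip := Val.is_self (ν := inf (K := K)) hp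
      have iq := Val.is_self (ν := inf (K := K)) hq'
      have ir := Val.is_self (ν := inf (K := K)) hr
      have g := (er ▸ (inf_is_X.ge.sub (ip.ge' (by omega))).sub (iq.ge' (by omega))).le ir
      have l := (h2 ▸ (ip.mul iq).mul ir).unique (inf_is_X.pow 2)
      push_cast at l
      have fin0 : ∀ a b c : RatFunc K, a + b + c = RatFunc.X → (inf (K := K)).Is (-1) a →
          (inf (K := K)).Is (-1) b → (inf (K := K)).Ge 0 c → False := by
        intro a b c h ha hb hc
        have := (h ▸ (two_inf_res hq ha hb).add hc).le inf_is_X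
        omega
      by_cases c1 : (inf (K := K)).v p = -1
      · by_cases c2 : (inf (K := K)).v q = -1
        · exact fin0 p q r h1 ⟨hp, c1⟩ ⟨hq', c2⟩ (ir.ge' (by omega))
        · exact fin0 p r q (by linear_combination h1) ⟨hp, c1⟩ ⟨hr, by omega⟩ (iq.ge' (by omega))
      · exact fin0 q r p (by linear_combination h1) ⟨hq', by omega⟩ ⟨hr, by omega⟩
          (ip.ge' (by omega))
  have a1 := k1 p q r h1 h2
  have a2 := k1 q r p (by linear_combination h1) (by linear_combination h2)
  have a3 := k1 r p q (by linear_combination h1) (by linear_combination h2)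
  omega

theorem fvstep (hq : Fintype.card K = 2) {s : RatFunc K} {N₁ N₂ N₃ D₁ D₂ D₃ : K[X]} {n : ℕ}
    (d₁ : N₁.natDegree ≤ n + 1) (d₂ : N₂.natDegree ≤ n + 1) (d₃ : N₃.natDegree ≤ n + 1)
    (hD₁ : D₁ ≠ 0) (hD₂ : D₂ ≠ 0) (hD₃ : D₃ ≠ 0) {P Q R : RatFunc K}
    (eP : P = algebraMap K[X] (RatFunc K) N₁ / algebraMap K[X] (RatFunc K) D₁)
    (eQ : Q = algebraMap K[X] (RatFunc K) N₂ / algebraMap K[X] (RatFunc K) D₂)
    (eR : R = algebraMap K[X] (RatFunc K) N₃ / algebraMap K[X] (RatFunc K) D₃)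
    (h1 : P + Q + R = RatFunc.X) (h2 : P * Q * R = RatFunc.X) (hs : s ≠ 0)
    (h3 : (P + 1) * (Q + 1) * (R + 1) = s ^ 2) :
    ∃ m < n, ∃ a b c : K[X], a.natDegree ≤ m ∧
      b.natDegree ≤ m ∧ c.natDegree ≤ m ∧ a ≠ 0 ∧ b ≠ 0 ∧ c ≠ 0 ∧
        X * (a * b * c) = (a + b) * (b + c) * (c + a) := by
  have := two_charP hq
  have hT : (RatFunc.X : RatFunc K) ≠ 0 := RatFunc.X_ne_zero
  obtain ⟨p, hp⟩ := frob_root hT h1 h2 hs h3
  obtain ⟨q, hq'⟩ := frob_root (P := Q) (Q := R) (R := P) hT (by linear_combination h1)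
    (by linear_combination h2) hs (by linear_combination h3)
  obtain ⟨r, hr⟩ := frob_root (P := R) (Q := P) (R := Q) hT (by linear_combination h1)
    (by linear_combination h2) hs (by linear_combination h3)
  have k1 : p + q + r = RatFunc.X := sq_inj (by
    linear_combination (norm := (ring_nf; reduce_mod_char!)) hp + hq' + hr + RatFunc.X * h1)
  have k2 : p * q * r = RatFunc.X ^ 2 := sq_inj (by
    rw [mul_pow, mul_pow, hp, hq', hr]; linear_combination RatFunc.X ^ 3 * h2)
  have h0 : P * Q * R ≠ 0 := h2 ▸ hT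
  have fin0 : ∀ (p q r P : RatFunc K) (N D : K[X]), N.natDegree ≤ n + 1 → D ≠ 0 → P ≠ 0 →
      P = algebraMap K[X] (RatFunc K) N / algebraMap K[X] (RatFunc K) D →
      p ^ 2 = RatFunc.X * P → p + q + r = RatFunc.X → p * q * r = RatFunc.X ^ 2 →
      ((fin X prime_X).v p ≤ 0 ∧ (inf (K := K)).v p ≤ -2) →
      ∃ m < n, ∃ a b c : K[X], a.natDegree ≤ m ∧
        b.natDegree ≤ m ∧ c.natDegree ≤ m ∧ a ≠ 0 ∧ b ≠ 0 ∧ c ≠ 0 ∧
          X * (a * b * c) = (a + b) * (b + c) * (c + a) := by
    intro p q r P N D hd hD hP e hp k1 k2 hv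
    have hD' : algebraMap K[X] (RatFunc K) D ≠ 0 := by simpa using hD
    have hN : N ≠ 0 := by rintro rfl; exact hP (by rw [e]; simp)
    obtain ⟨h, l1, l2, H⟩ := vstep hq k1 k2 hv.1 hv.2 hN (D := D) (by rw [hp, e]; field_simp)
    exact ⟨2 * h, by omega, H⟩
  rcases choose_root hq k1 k2 with h | h | h
  · exact fin0 p q r P N₁ D₁ d₁ hD₁ (left_ne_zero_of_mul (left_ne_zero_of_mul h0)) eP hp k1 k2 h
  · exact fin0 q r p Q N₂ D₂ d₂ hD₂ (right_ne_zero_of_mul (left_ne_zero_of_mul h0)) eQ hq'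
      (by linear_combination k1) (by linear_combination k2) h
  · exact fin0 r p q R N₃ D₃ d₃ hD₃ (right_ne_zero_of_mul h0) eR hr
      (by linear_combination k1) (by linear_combination k2) h

theorem descentE6 (hq : Fintype.card K = 2) (n : ℕ) : ∀ a b c : K[X], a.natDegree ≤ n →
    b.natDegree ≤ n → c.natDegree ≤ n → a ≠ 0 → b ≠ 0 → c ≠ 0 →
      X * (a * b * c) = (a + b) * (b + c) * (c + a) → False := by
  induction n using Nat.strong_induction_on with
  | _ n ih =>
  intro a b c da db dc ha hb hc h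
  have := two_charP hq
  have hT : (RatFunc.X : RatFunc K) ≠ 0 := RatFunc.X_ne_zero
  have ha' : algebraMap K[X] (RatFunc K) a ≠ 0 := by simpa using ha
  have hb' : algebraMap K[X] (RatFunc K) b ≠ 0 := by simpa using hb
  have hc' : algebraMap K[X] (RatFunc K) c ≠ 0 := by simpa using hc
  have h' := congrArg (algebraMap K[X] (RatFunc K)) h
  simp only [map_mul, map_add, RatFunc.algebraMap_X] at h'
  have e1 : algebraMap K[X] (RatFunc K) (X - C 1) = RatFunc.X + 1 := by
    rw [map_sub, RatFunc.algebraMap_X, RatFunc.algebraMap_C, map_one]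
    ring_nf; reduce_mod_char!
  have hT1 : (RatFunc.X : RatFunc K) + 1 ≠ 0 := by
    rw [← e1]
    exact (map_ne_zero_iff _ (IsFractionRing.injective _ _)).2 (prime_X_sub_C (1 : K)).ne_zero
  have hz : a + b + c ≠ 0 := by
    intro h0
    have h1 := congrArg (algebraMap K[X] (RatFunc K)) h0
    simp only [map_add, map_zero] at h1
    refine mul_ne_zero hT1 (mul_ne_zero (mul_ne_zero ha' hb') hc') ?_
    linear_combination h' + (algebraMap K[X] (RatFunc K) a * algebraMap K[X] (RatFunc K) b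
      + algebraMap K[X] (RatFunc K) b * algebraMap K[X] (RatFunc K) c
      + algebraMap K[X] (RatFunc K) c * algebraMap K[X] (RatFunc K) a) * h1
  have hz' : algebraMap K[X] (RatFunc K) a + algebraMap K[X] (RatFunc K) b
      + algebraMap K[X] (RatFunc K) c ≠ 0 := by
    rw [← map_add, ← map_add]
    exact (map_ne_zero_iff _ (IsFractionRing.injective _ _)).2 hz
  have hf := mul_ne_zero hz' (mul_ne_zero (mul_ne_zero ha' hb') hc')
  obtain ⟨s, hs⟩ := two_sq_or hq (prime_X_sub_C (1 : K)) hf (by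
    intro π hπ hne
    refine parity_E6 ?_ hT ?_ ha' hb' hc' h'
    · have := fin_ge_poly hπ X
      rwa [RatFunc.algebraMap_X] at this
    · exact e1 ▸ fin_other hq hπ (prime_X_sub_C (1 : K)) hne)
  rw [e1] at hs
  have hs0 : s ≠ 0 := by
    rintro rfl
    rcases hs with hs | hs <;> exact hf (by rw [hs]; simp)
  have dd : ∀ {f g : K[X]}, f.natDegree ≤ n → g.natDegree ≤ n → (f + g).natDegree ≤ n + 1 :=
    fun hf hg => (natDegree_add_le_of_degree_le hf hg).trans (by omega)
  have dd' : ∀ {f g k : K[X]}, f.natDegree ≤ n → g.natDegree ≤ n → k.natDegree ≤ n →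
      (f + g + X * k).natDegree ≤ n + 1 := fun hf hg hk =>
    natDegree_add_le_of_degree_le (dd hf hg) (natDegree_mul_le.trans (by rw [natDegree_X]; omega))
  have fin0 : (∃ m < n, ∃ a b c : K[X], a.natDegree ≤ m ∧
      b.natDegree ≤ m ∧ c.natDegree ≤ m ∧ a ≠ 0 ∧ b ≠ 0 ∧ c ≠ 0 ∧
        X * (a * b * c) = (a + b) * (b + c) * (c + a)) → False := by
    rintro ⟨m, hm, a, b, c, h1, h2, h3, h4, h5, h6, h7⟩
    exact ih m hm a b c h1 h2 h3 h4 h5 h6 h7
  apply fin0
  rcases hs with hs | hs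
  · refine fvstep hq (dd db dc) (dd dc da) (dd da db) ha hb hc rfl rfl rfl ?_ ?_
      (s := s * (algebraMap K[X] (RatFunc K) a + algebraMap K[X] (RatFunc K) b
        + algebraMap K[X] (RatFunc K) c) / (algebraMap K[X] (RatFunc K) a
          * algebraMap K[X] (RatFunc K) b * algebraMap K[X] (RatFunc K) c))
      (div_ne_zero (mul_ne_zero hs0 hz') (mul_ne_zero (mul_ne_zero ha' hb') hc')) ?_
    · simp only [map_add]; field_simp
      linear_combination (norm := (ring_nf; reduce_mod_char!)) h'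
    · simp only [map_add]; field_simp
      linear_combination -h'
    · simp only [map_add, div_pow, mul_pow, ← hs]; field_simp
      ring
  · refine fvstep hq (dd' db dc da) (dd' dc da db) (dd' da db dc) hz hz hz rfl rfl rfl ?_ ?_
      (s := (RatFunc.X + 1) ^ 2 * s / (algebraMap K[X] (RatFunc K) a + algebraMap K[X] (RatFunc K) b
        + algebraMap K[X] (RatFunc K) c) ^ 2)
      (div_ne_zero (mul_ne_zero (pow_ne_zero 2 hT1) hs0) (pow_ne_zero 2 hz')) ?_
    · simp only [map_add, map_mul, RatFunc.algebraMap_X]; field_simp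
      ring_nf; reduce_mod_char!
    · simp only [map_add, map_mul, RatFunc.algebraMap_X]; field_simp
      linear_combination (norm := (ring_nf; reduce_mod_char!)) (RatFunc.X + 1) ^ 2 * h'
    · simp only [map_add, map_mul, RatFunc.algebraMap_X]; field_simp
      linear_combination (norm := (ring_nf; reduce_mod_char!)) (RatFunc.X + 1) ^ 3 * hs

theorem curveE6 (hq : Fintype.card K = 2) {a b c : RatFunc K} (ha : a ≠ 0) (hb : b ≠ 0)
    (hc : c ≠ 0) (h : RatFunc.X * (a * b * c) = (a + b) * (b + c) * (c + a)) : False := by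
  classical
  obtain ⟨e, he, P, hP, -⟩ := exists_scale ({a, b, c} : Finset (RatFunc K)) ⟨a, by simp, ha⟩
  have ea := hP a (by simp)
  have eb := hP b (by simp)
  have ec := hP c (by simp)
  have nz : ∀ x : RatFunc K, x ≠ 0 → algebraMap K[X] (RatFunc K) (P x) = e * x → P x ≠ 0 := by
    intro x hx h h0
    rw [h0, map_zero] at h
    exact mul_ne_zero he hx h.symm
  refine descentE6 hq (max (P a).natDegree (max (P b).natDegree (P c).natDegree)) (P a) (P b) (P c)
    (by omega) (by omega) (by omega) (nz a ha ea) (nz b hb eb) (nz c hc ec) ?_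
  apply IsFractionRing.injective K[X] (RatFunc K)
  simp only [map_mul, map_add, RatFunc.algebraMap_X, ea, eb, ec]
  linear_combination e ^ 3 * h

theorem two_kernel (hq : Fintype.card K = 2) {T g Δ x y : RatFunc K} (hx : x ≠ 0) (hy : y ≠ 0)
    (hxy : x + y ≠ 0) (ex : T * x + g * x ^ 2 + Δ * x ^ 4 = 0)
    (ey : T * y + g * y ^ 2 + Δ * y ^ 4 = 0) :
    T = Δ * (x * y * (x + y)) ∧
      ∀ z, T * z + g * z ^ 2 + Δ * z ^ 4 = Δ * (z * ((z + x) * (z + y) * (z + x + y))) := by
  have h2 := two_rat hq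
  have := two_charP hq
  have e1 : T + g * x + Δ * x ^ 3 = 0 := by
    apply mul_left_cancel₀ hx; linear_combination ex
  have e2 : T + g * y + Δ * y ^ 3 = 0 := by
    apply mul_left_cancel₀ hy; linear_combination ey
  have e3 : g = Δ * (x ^ 2 + x * y + y ^ 2) := by
    apply mul_left_cancel₀ hxy
    linear_combination e1 + e2 - (T + Δ * (x ^ 3 + x ^ 2 * y + x * y ^ 2 + y ^ 3)) * h2
  have e4 : T = Δ * (x * y * (x + y)) := by
    rw [e3] at e1
    linear_combination e1 - (Δ * (x ^ 3 + x ^ 2 * y + x * y ^ 2)) * h2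
  refine ⟨e4, fun z => ?_⟩
  rw [e3, e4]
  ring_nf; reduce_mod_char!

/-- Torsion `A/T ⊕ A/T ⊕ A/(T+1)` does not occur for `q = 2`. -/
theorem module6 (hq : Fintype.card K = 2) {g Δ x y z : RatFunc K} (hx : x ≠ 0) (hy : y ≠ 0)
    (hxy : x + y ≠ 0) (hz : z ≠ 0) (ex : RatFunc.X * x + g * x ^ 2 + Δ * x ^ 4 = 0)
    (ey : RatFunc.X * y + g * y ^ 2 + Δ * y ^ 4 = 0)
    (ez : RatFunc.X * z + g * z ^ 2 + Δ * z ^ 4 = z) : False := by
  have := two_charP hq
  obtain ⟨e1, e2⟩ := two_kernel hq hx hy hxy ex ey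
  rw [e2] at ez
  have e3 : Δ * ((z + x) * (z + y) * (z + x + y)) = 1 := by
    apply mul_left_cancel₀ hz; linear_combination ez
  have h0 : (z + x) * (z + y) * (z + x + y) ≠ 0 := by
    intro h; rw [h] at e3; simp at e3
  refine curveE6 hq (left_ne_zero_of_mul (left_ne_zero_of_mul h0))
    (right_ne_zero_of_mul (left_ne_zero_of_mul h0)) (right_ne_zero_of_mul h0) ?_
  rw [e1]
  linear_combination (norm := (ring_nf; reduce_mod_char!)) (x * y * (x + y)) * e3

/-- Torsion `A/T^2(T+1)` does not occur for `q = 2`. -/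
theorem module3 (hq : Fintype.card K = 2) {g Δ a b c : RatFunc K} (hΔ : Δ ≠ 0) (hc : c ≠ 0)
    (hb : b ≠ 0) (ea : RatFunc.X * a + g * a ^ 2 + Δ * a ^ 4 = c)
    (eb : RatFunc.X * b + g * b ^ 2 + Δ * b ^ 4 = b)
    (ec : RatFunc.X * c + g * c ^ 2 + Δ * c ^ 4 = 0) : False := by
  have h2 := two_rat hq
  have := two_charP hq
  have hT : (RatFunc.X : RatFunc K) ≠ 0 := RatFunc.X_ne_zero
  set T : RatFunc K := RatFunc.X with hTdef
  obtain ⟨a, rfl⟩ : ∃ a', a = a' * c := ⟨a / c, by field_simp⟩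
  obtain ⟨b, rfl⟩ : ∃ b', b = b' * c := ⟨b / c, by field_simp⟩
  have e1 : g * c = T + Δ * c ^ 3 := by
    apply mul_left_cancel₀ hc
    linear_combination ec - (T * c + Δ * c ^ 4) * h2
  set D := Δ * c ^ 3 with hD
  have hD0 : D ≠ 0 := mul_ne_zero hΔ (pow_ne_zero 3 hc)
  set A := a ^ 2 + a with hA
  set B := b ^ 2 + b with hB
  have fa : T * A + D * A ^ 2 = 1 := by
    apply mul_left_cancel₀ hc
    rw [hA, hD]
    linear_combination (norm := (ring_nf; reduce_mod_char!)) ea + a ^ 2 * c * e1 + a ^ 2 * c * hD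
  have fb : T * B + D * B ^ 2 = b := by
    apply mul_left_cancel₀ hc
    rw [hB, hD]
    linear_combination (norm := (ring_nf; reduce_mod_char!)) eb + b ^ 2 * c * e1 + b ^ 2 * c * hD
  have hA0 : A ≠ 0 := by rintro h0; rw [h0] at fa; simp at fa
  have hB0 : B ≠ 0 := by
    rintro h0; rw [h0] at fb; exact left_ne_zero_of_mul hb (by rw [← fb]; simp)
  refine module6 hq (g := T ^ 2 + D) (Δ := D ^ 2) (x := A) (y := T / D) (z := B) hA0
    (div_ne_zero hT hD0) ?_ hB0 ?_ ?_ ?_
  · intro h0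
    have : T * A + D * A ^ 2 = D * A * (A + T / D) := by field_simp; ring
    rw [this, h0, mul_zero] at fa
    exact zero_ne_one fa
  · rw [← hTdef]
    linear_combination (T * A + D * A ^ 2 + 2) * fa + (1 - T * D * A ^ 3) * h2
  · rw [← hTdef]; field_simp
    ring_nf; reduce_mod_char!
  · rw [← hTdef]
    linear_combination (T * B + D * B ^ 2 + b + 1) * fb - (T * D * B ^ 3) * h2

end Pool.Agent.Lib.MP_1b9c20_nt
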