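import Pool.Agent.Lib.MP_1b9c20_nt.TwoB

/-! `q = 2`: irreducible cubic level and level `T (T ^ 2 + T + 1)`. -/

set_option autoImplicit false

namespace Pool.Agent.Lib.MP_1b9c20_nt

open Polynomial

section loc
variable {F : Type} [Field F] {ν : Val F}

theorem crit_two {T g Δ b c d : F} (hΔ : Δ ≠ 0) (hT : ν.Ge 0 T) (hb : b ≠ 0) (hc : c ≠ 0)
    (eb : T * b + g * b ^ 2 + Δ * b ^ 4 = c) (ec : T * c + g * c ^ 2 + Δ * c ^ 4 = d)
    (h1 : ν.v c < ν.v b) (h2 : ν.Ge (ν.v c) d) {t : F} (ht : t ≠ 0) (h3 : ν.v c < ν.v t) :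
    ν.Is (ν.v c + 2 * (ν.v t - ν.v b)) (g * t ^ 2 + Δ * t ^ 4) := by
  have ib := Val.is_self (ν := ν) hb
  have ic := Val.is_self (ν := ν) hc
  have it := Val.is_self (ν := ν) ht
  have iΔ := Val.is_self (ν := ν) hΔ
  have ub : ν.Is (ν.v c) (g * b ^ 2 + Δ * b ^ 4) := by
    have := ic.sub ((hT.mul ib.ge).mono (by omega))
    convert this using 1; linear_combination eb
  have uc : ν.Ge (ν.v c) (g * c ^ 2 + Δ * c ^ 4) := by
    have := h2.sub ((hT.mul ic.ge).mono (by omega))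
    convert this using 1; linear_combination ec
  have ig : ν.Is (ν.v Δ + 2 * ν.v c) g := by
    rcases Val.ge_or_lt (ν := ν) (ν.v Δ + 2 * ν.v c + 1) g with h | h
    · exfalso
      have l1 := uc.le ((iΔ.mul (ic.pow 4)).add' ((h.mul (ic.pow 2).ge).mono (by push_cast; omega)))
      have l2 := (((h.mul (ib.pow 2).ge).mono (j := ν.v c + 1) (by push_cast at l1 ⊢; omega)).add
        ((iΔ.mul (ib.pow 4)).ge' (by push_cast at l1 ⊢; omega))).le ub
      omega
    · refine ⟨h.1, ?_⟩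
      by_contra hne
      have ig := Val.is_self (ν := ν) h.1
      have hlt := h.2
      have l1 := uc.le ((ig.mul (ic.pow 2)).add ((iΔ.mul (ic.pow 4)).ge' (by push_cast; omega)))
      have l2 := ub.unique ((ig.mul (ib.pow 2)).add ((iΔ.mul (ib.pow 4)).ge' (by push_cast; omega)))
      push_cast at l1 l2
      omega
  have l2 := ub.unique ((ig.mul (ib.pow 2)).add ((iΔ.mul (ib.pow 4)).ge' (by push_cast; omega)))
  have l3 := (ig.mul (it.pow 2)).add ((iΔ.mul (it.pow 4)).ge' (by push_cast; omega))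
  push_cast at l2 l3
  exact ⟨l3.1, by have := l3.2; omega⟩

theorem chain_even {T g Δ a b c d : F} (hΔ : Δ ≠ 0) (hT : ν.Ge 0 T) (ha : a ≠ 0) (hb : b ≠ 0)
    (hc : c ≠ 0) (ea : T * a + g * a ^ 2 + Δ * a ^ 4 = b)
    (eb : T * b + g * b ^ 2 + Δ * b ^ 4 = c) (ec : T * c + g * c ^ 2 + Δ * c ^ 4 = d)
    (h0 : ν.v c < ν.v a) (h1 : ν.v c < ν.v b) (h2 : ν.Ge (ν.v c) d) :
    ∃ k : ℤ, ν.v b = ν.v c + 2 * k := by
  have ia := Val.is_self (ν := ν) ha
  have ib := Val.is_self (ν := ν) hb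
  have ua := crit_two hΔ hT hb hc eb ec h1 h2 ha h0
  rw [show g * a ^ 2 + Δ * a ^ 4 = b - T * a by linear_combination ea] at ua
  have l1 := ((ib.ge' (j := ν.v c + 1) (by omega)).sub ((hT.mul ia.ge).mono (by omega))).le ua
  have l2 := ua.unique (ib.sub ((hT.mul ia.ge).mono (by omega)))
  exact ⟨ν.v a - ν.v b, by omega⟩

theorem eigen_even {T g Δ a b c d : F} (hΔ : Δ ≠ 0) (hT : ν.Is 0 T) (ha : a ≠ 0) (hb : b ≠ 0)
    (hc : c ≠ 0) (ea : T * a + g * a ^ 2 + Δ * a ^ 4 = 0)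
    (eb : T * b + g * b ^ 2 + Δ * b ^ 4 = c) (ec : T * c + g * c ^ 2 + Δ * c ^ 4 = d)
    (h0 : ν.v c < ν.v a) (h1 : ν.v c < ν.v b) (h2 : ν.Ge (ν.v c) d) :
    ∃ k : ℤ, ν.v a = ν.v c + 2 * k := by
  have ia := Val.is_self (ν := ν) ha
  have ua := crit_two hΔ hT.ge hb hc eb ec h1 h2 ha h0
  rw [show g * a ^ 2 + Δ * a ^ 4 = -(T * a) by linear_combination ea] at ua
  have l2 := ua.unique (hT.mul ia).neg
  exact ⟨ν.v b - ν.v c, by omega⟩

theorem odd_pair {t z s : F} (e : t + z = s) (ht : t ≠ 0) (hz : z ≠ 0) (hs : s ≠ 0)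
    (h : ¬ Even (ν.v (t * (t + z)))) :
    ∃ k : ℤ, (ν.v t = ν.v z ∧ ν.v s = ν.v z + 2 * k + 1 ∧ 0 ≤ k) ∨
      (ν.v s = ν.v z ∧ ν.v t = ν.v z + 2 * k + 1 ∧ 0 ≤ k) := by
  rw [e, ν.mul ht hs, Int.not_even_iff_odd] at h
  obtain ⟨j, hj⟩ := h
  have := ν.tri e ht hz hs
  exact ⟨j - ν.v z, by omega⟩

variable [CharP F 2]

theorem m4_pole {T s t a u : F} {μ : ℤ} (hT : ν.Is 0 T) (hμ : μ < 0) (ht : ν.Is μ t)
    (hu : ν.Ge μ u) (e1 : s * (t ^ 2 + t) = a + t) (e2 : T * a ^ 2 = u + T * t) :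
    ν.Is (-μ) s := by
  have g1 : ν.Ge μ (T * a ^ 2) := e2 ▸ hu.add ((hT.mul ht).ge' (by omega))
  have g2 : ν.Ge (μ + 1) a := by
    by_cases ha : a = 0
    · exact Or.inl ha
    · have := g1.le (hT.mul ((Val.is_self ha).pow 2))
      exact Or.inr (by push_cast at this; omega)
  have i1 := ht.add' g2
  rw [← e1, mul_comm] at i1
  have := i1.of_mul ((ht.pow 2).add (ht.ge' (by push_cast; omega)))
  exact ⟨this.1, by have := this.2; push_cast at this; omega⟩

theorem ge_of_sq {T a : F} {j k : ℤ} (hT : ν.Is j T) (h : ν.Ge (j + 2 * k - 1) (T * a ^ 2)) :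
    ν.Ge k a := by
  by_cases ha : a = 0
  · exact Or.inl ha
  · have := h.le (hT.mul ((Val.is_self ha).pow 2))
    exact Or.inr (by push_cast at this; omega)

theorem m4_units {T s x y w a b : F} (hT : ν.Is 0 T)
    (hD : ∀ h : F, ν.Ge 0 h → ¬ ν.Ge 2 (T * h ^ 2 + 1)) (hs : s ≠ 0) (hs' : ν.v s < 0)
    (hw : x + y + w = 0) (hx : ν.Ge 1 (x + 1)) (hy : ν.Ge 1 (y + 1))
    (eb : s * (y ^ 2 + y) = b + y) (fa : T * a ^ 2 = y + T * x) (fb : T * b ^ 2 = w + T * y) :
    False := by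
  have ew : w = (x + 1) + (y + 1) := by
    linear_combination (norm := (ring_nf; reduce_mod_char!)) hw
  have iy : ν.Is 0 y := by
    have := Val.is_one.neg.add' hy
    simpa using this
  have gw : ν.Ge 1 w := ew ▸ hx.add hy
  have e1 : T * (b + 1) ^ 2 = w + T * (y + 1) := by
    linear_combination (norm := (ring_nf; reduce_mod_char!)) fb
  have gb : ν.Ge 1 (b + 1) := ge_of_sq hT (e1 ▸ (gw.add ((hT.ge.mul hy).mono (by omega))))
  have e2 : s * y * (y + 1) = (b + 1) + (y + 1) := by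
    linear_combination (norm := (ring_nf; reduce_mod_char!)) eb
  have gy : ν.Ge 2 (y + 1) :=
    ((e2 ▸ gb.add hy).of_mul ((Val.is_self hs).mul iy)).mono (by omega)
  have gw2 : ν.Ge 2 w := by
    have := (hT.ge.mul (gb.pow two_ne_zero)).sub ((hT.ge.mul gy).mono (by norm_num))
    rw [e1] at this
    simpa using this
  have gx : ν.Ge 2 (x + 1) := by
    have := gw2.sub gy
    rw [ew] at this
    simpa using this
  have e3 : T * (a + 1) ^ 2 + 1 = (y + 1) + T * (x + 1) := by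
    linear_combination (norm := (ring_nf; reduce_mod_char!)) fa
  have g3 : ν.Ge 2 (T * (a + 1) ^ 2 + 1) := e3 ▸ gy.add ((hT.ge.mul gx).mono (by omega))
  refine hD (a + 1) (ge_of_sq hT ?_) g3
  have := (g3.mono (j := -1) (by omega)).sub (Val.is_one.ge' (by omega))
  simpa using this

omit [CharP F 2] in
theorem wp_cases {t : F} {σ : ℤ} (ht : t ≠ 0) (h0 : 0 ≤ ν.v t) (hσ : 1 ≤ σ)
    (h : ν.Ge σ (t ^ 2 + t)) : ν.Ge σ t ∨ ν.Ge 1 (t + 1) := by
  have it := Val.is_self (ν := ν) ht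
  by_cases c : ν.v t = 0
  · right
    rw [show t ^ 2 + t = t * (t + 1) by ring] at h
    exact (h.of_mul it).mono (by omega)
  · left
    rw [show t ^ 2 + t = (t + 1) * t by ring] at h
    simpa using h.of_mul (Val.is_one.add' (it.ge' (by omega)))

theorem m4_fin {T s x y w a b c : F} (hT : ν.Is 0 T)
    (hD : ∀ h : F, ν.Ge 0 h → ¬ ν.Ge 2 (T * h ^ 2 + 1)) (hs : s ≠ 0)
    (hw : x + y + w = 0) (hx0 : x ≠ 0) (hy0 : y ≠ 0) (hw0 : w ≠ 0)
    (ea : s * (x ^ 2 + x) = a + x) (eb : s * (y ^ 2 + y) = b + y) (ec : s * (w ^ 2 + w) = c + w)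
    (fa : T * a ^ 2 = y + T * x) (fb : T * b ^ 2 = w + T * y) (fc : T * c ^ 2 = x + T * w) :
    0 ≤ 3 * ν.v s + ν.v x + ν.v y + ν.v w := by
  have ix := Val.is_self (ν := ν) hx0
  have iy := Val.is_self (ν := ν) hy0
  have iw := Val.is_self (ν := ν) hw0
  by_cases c1 : ν.v x < 0 ∧ ν.v x ≤ ν.v y ∧ ν.v x ≤ ν.v w
  · have := (m4_pole hT c1.1 ix (iy.ge' c1.2.1) ea fa).2; omega
  by_cases c2 : ν.v y < 0 ∧ ν.v y ≤ ν.v x ∧ ν.v y ≤ ν.v w
  · have := (m4_pole hT c2.1 iy (iw.ge' c2.2.2) eb fb).2; omega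
  by_cases c3 : ν.v w < 0 ∧ ν.v w ≤ ν.v x ∧ ν.v w ≤ ν.v y
  · have := (m4_pole hT c3.1 iw (ix.ge' c3.2.1) ec fc).2; omega
  have px : 0 ≤ ν.v x := by omega
  have py : 0 ≤ ν.v y := by omega
  have pw : 0 ≤ ν.v w := by omega
  by_contra hcon
  have hs' : ν.v s < 0 := by omega
  have key : ∀ t a u : F, t ≠ 0 → u ≠ 0 → 0 ≤ ν.v t → 0 ≤ ν.v u → s * (t ^ 2 + t) = a + t →
      T * a ^ 2 = u + T * t → (-ν.v s ≤ ν.v t ∧ ¬ ν.Ge 1 (t + 1)) ∨
        (ν.v t = 0 ∧ ν.Ge 1 (t + 1)) := by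
    intro t a u ht hu h1 h2 e1 e2
    have it := Val.is_self (ν := ν) ht
    have iu := Val.is_self (ν := ν) hu
    have ga : ν.Ge 0 a := ge_of_sq hT (e2 ▸ (iu.ge' (by omega)).add ((hT.mul it).ge' (by omega)))
    have g1 := (e1 ▸ ga.add (it.ge' h1)).of_mul (Val.is_self hs)
    rcases wp_cases ht h1 (by omega) g1 with h | h
    · left
      have l := h.le it
      refine ⟨by omega, fun h' => ?_⟩
      have := h'.le (Val.is_one.add' (it.ge' (by omega)))
      omega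
    · right
      refine ⟨?_, h⟩
      have := Val.is_one.neg.add' h
      simpa using this.2
  have kx := key x a y hx0 hy0 px py ea fa
  have ky := key y b w hy0 hw0 py pw eb fb
  have kw := key w c x hw0 hx0 pw px ec fc
  have hw' : x + y = -w := by linear_combination hw
  have tr := ν.tri hw' hx0 hy0 (neg_ne_zero.2 hw0)
  rw [ν.neg hw0] at tr
  rcases kx with kx | kx <;> rcases ky with ky | ky <;> rcases kw with kw | kw
  · omega
  · omega
  · omega
  · exact m4_units hT hD hs hs' (by linear_combination hw) ky.2 kw.2 ec fb fc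
  · omega
  · exact m4_units hT hD hs hs' (by linear_combination hw) kw.2 kx.2 ea fc fa
  · exact m4_units hT hD hs hs' hw kx.2 ky.2 eb fa fb
  · exact m4_units hT hD hs hs' hw kx.2 ky.2 eb fa fb

omit [CharP F 2] in
theorem wp_pos {t : F} {k : ℤ} (ht : ν.Is k t) (hk : 0 < k) : ν.Is k (t ^ 2 + t) :=
  ht.add' ((ht.pow 2).ge' (by push_cast; omega))

omit [CharP F 2] in
theorem wp_neg {t : F} {k : ℤ} (ht : ν.Is k t) (hk : k < 0) : ν.Is (2 * k) (t ^ 2 + t) := by
  simpa using (ht.pow 2).add (ht.ge' (by push_cast; omega))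

omit [CharP F 2] in
theorem m4_T_aux {T s x y w a b c : F} (hT : ν.Is 1 T)
    (res : ∀ (k : ℤ) (f g : F), ν.Is k f → ν.Is k g → ν.Ge (k + 1) (f + g)) (hs : s ≠ 0)
    (hx0 : x ≠ 0) (hy0 : y ≠ 0) (hw0 : w ≠ 0) (h1 : ν.v x = ν.v w) (h2 : ν.v w < ν.v y)
    (ea : s * (x ^ 2 + x) = a + x) (eb : s * (y ^ 2 + y) = b + y) (ec : s * (w ^ 2 + w) = c + w)
    (fa : T * a ^ 2 = y + T * x) (fb : T * b ^ 2 = w + T * y) (fc : T * c ^ 2 = x + T * w) :
    1 ≤ 3 * ν.v s + ν.v x + ν.v y + ν.v w := by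
  have ix := Val.is_self (ν := ν) hx0
  have iy := Val.is_self (ν := ν) hy0
  have iw := Val.is_self (ν := ν) hw0
  have is := Val.is_self (ν := ν) hs
  have i1 := fb ▸ iw.add ((hT.mul iy).ge' (by omega))
  have i2 := fc ▸ ix.add ((hT.mul iw).ge' (by omega))
  have hb : b ≠ 0 := by rintro rfl; exact i1.1 (by simp)
  have hc : c ≠ 0 := by rintro rfl; exact i2.1 (by simp)
  have ib := Val.is_self (ν := ν) hb
  have ic := Val.is_self (ν := ν) hc
  have l1 := i1.unique (hT.mul (ib.pow 2))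
  have l2 := i2.unique (hT.mul (ic.pow 2))
  push_cast at l1 l2
  have l3 : ν.v y = ν.v w + 1 := by
    by_contra hne
    have i3 := fa ▸ (hT.mul ix).add' (iy.ge' (by omega))
    have ha : a ≠ 0 := by rintro rfl; exact i3.1 (by simp)
    have := i3.unique (hT.mul ((Val.is_self ha).pow 2))
    push_cast at this; omega
  have ga : ν.Ge (ν.v b + 1) a := by
    have := res (ν.v y) y (T * x) iy ⟨(hT.mul ix).1, by rw [(hT.mul ix).2]; omega⟩
    rw [← fa] at this
    by_cases ha : a = 0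
    · exact Or.inl ha
    · have := this.le (hT.mul ((Val.is_self ha).pow 2))
      exact Or.inr (by push_cast at this; omega)
  rcases lt_trichotomy (ν.v b) (-1) with h | h | h
  · have := (ec ▸ iw.add' (ic.ge' (by omega))).unique (is.mul (wp_neg iw (by omega)))
    omega
  · exfalso
    have k1 := (ec ▸ res (-1) c w ⟨hc, by omega⟩ ⟨hw0, by omega⟩).le
      (is.mul (wp_neg iw (by omega)))
    have k2 := (ea ▸ ix.add' (ga.mono (by omega))).unique (is.mul (wp_neg ix (by omega)))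
    omega
  · exfalso
    have k1 := (ec ▸ ic.add (iw.ge' (by omega))).unique (is.mul (wp_pos iw (by omega)))
    have k2 := (eb ▸ ib.add (iy.ge' (by omega))).unique (is.mul (wp_pos iy (by omega)))
    omega

omit [CharP F 2] in
theorem m4_inf_aux {T s x y w a b : F} (hT : ν.Is (-1) T)
    (res : ∀ (k : ℤ) (f g : F), ν.Is k f → ν.Is k g → ν.Ge (k + 1) (f + g)) (hs : s ≠ 0)
    (hx0 : x ≠ 0) (hy0 : y ≠ 0) (hw0 : w ≠ 0) (h1 : ν.v x = ν.v w) (h2 : ν.v w < ν.v y)
    (ea : s * (x ^ 2 + x) = a + x) (eb : s * (y ^ 2 + y) = b + y)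
    (fa : T * a ^ 2 = y + T * x) (fb : T * b ^ 2 = w + T * y) :
    1 ≤ 3 * ν.v s + ν.v x + ν.v y + ν.v w := by
  have ix := Val.is_self (ν := ν) hx0
  have iy := Val.is_self (ν := ν) hy0
  have iw := Val.is_self (ν := ν) hw0
  have is := Val.is_self (ν := ν) hs
  have i1 := fa ▸ (hT.mul ix).add' (iy.ge' (by omega))
  have ha : a ≠ 0 := by rintro rfl; exact i1.1 (by simp)
  have ia := Val.is_self (ν := ν) ha
  have l1 := i1.unique (hT.mul (ia.pow 2))
  push_cast at l1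
  have l3 : ν.v y = ν.v w + 1 := by
    by_contra hne
    have i3 := fb ▸ iw.add ((hT.mul iy).ge' (by omega))
    have hb : b ≠ 0 := by rintro rfl; exact i3.1 (by simp)
    have := i3.unique (hT.mul ((Val.is_self hb).pow 2))
    push_cast at this; omega
  have gb : ν.Ge (ν.v a + 1) b := by
    have := res (ν.v w) w (T * y) iw ⟨(hT.mul iy).1, by rw [(hT.mul iy).2]; omega⟩
    rw [← fb] at this
    by_cases hb : b = 0
    · exact Or.inl hb
    · have := this.le (hT.mul ((Val.is_self hb).pow 2))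
      exact Or.inr (by push_cast at this; omega)
  rcases lt_trichotomy (ν.v a) 0 with h | h | h
  · have := (ea ▸ ix.add' (ia.ge' (by omega))).unique (is.mul (wp_neg ix (by omega)))
    omega
  · have := (eb ▸ gb.add (iy.ge' (by omega))).le (is.mul (wp_pos iy (by omega)))
    omega
  · have := (ea ▸ ia.add (ix.ge' (by omega))).unique (is.mul (wp_pos ix (by omega)))
    omega

theorem one_high {x y w : F}
    (res : ∀ (k : ℤ) (f g : F), ν.Is k f → ν.Is k g → ν.Ge (k + 1) (f + g))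
    (hw : x + y + w = 0) (hx0 : x ≠ 0) (hy0 : y ≠ 0) (hw0 : w ≠ 0) :
    (ν.v x = ν.v w ∧ ν.v w < ν.v y) ∨ (ν.v y = ν.v x ∧ ν.v x < ν.v w) ∨
      (ν.v w = ν.v y ∧ ν.v y < ν.v x) := by
  have hw' : x + y = w := by linear_combination (norm := (ring_nf; reduce_mod_char!)) hw
  have tr := ν.tri hw' hx0 hy0 hw0
  by_cases h : ν.v x = ν.v y
  · have := (hw' ▸ res _ x y (Val.is_self hx0) ⟨hy0, h.symm⟩).le_v hw0
    omega
  · omega

end loc

variable {K : Type} [Field K] [Fintype K]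

theorem odd_place (hq : Fintype.card K = 2) {h : RatFunc K} (h0 : h ≠ 0) (hn : ¬ IsSquare h) :
    ∃ π : K[X], ∃ hπ : Prime π, ∀ h' : RatFunc K, h' ≠ 0 → IsSquare (h * h') →
      ¬ Even ((fin π hπ).v h') := by
  by_contra hcon
  apply hn
  obtain ⟨s, hs⟩ := two_sq hq h0 (by
    intro π hπ
    by_contra hodd
    refine hcon ⟨π, hπ, ?_⟩
    rintro h' h0' ⟨s, hs⟩ ⟨k, hk⟩
    have hs0 : s ≠ 0 := by rintro rfl; exact mul_ne_zero h0 h0' (by simpa using hs)
    have l1 := (fin π hπ).mul h0 h0'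
    rw [hs, (fin π hπ).mul hs0 hs0] at l1
    exact hodd ⟨(fin π hπ).v s - k, by omega⟩)
  exact ⟨s, by rw [hs, sq]⟩

theorem theta_ge {π : K[X]} (hπ : Prime π) (l : K) :
    (fin π hπ).Ge 0 (RatFunc.X - RatFunc.C l) := by
  have := fin_ge_poly hπ (X - C l)
  rwa [map_sub, RatFunc.algebraMap_X, RatFunc.algebraMap_C] at this

/-- Torsion `A/p` with `p` an irreducible cubic, separable case. -/
theorem module1 (hq : Fintype.card K = 2) (l : K) {g Δ x y w : RatFunc K} (hΔ : Δ ≠ 0) (hx : x ≠ 0)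
    (ex : (RatFunc.X - RatFunc.C l) * x + g * x ^ 2 + Δ * x ^ 4 = y)
    (ey : (RatFunc.X - RatFunc.C l) * y + g * y ^ 2 + Δ * y ^ 4 = w)
    (ew : (RatFunc.X - RatFunc.C l) * w + g * w ^ 2 + Δ * w ^ 4 = x + y)
    (P : RatFunc K → Prop) (px : P x) (py : P y) (pw : P w) (padd : ∀ a b, P a → P b → P (a + b))
    (hsq : ∀ z t s, P z → P t → P s → IsSquare (t * (t + z) * (s * (s + z))))
    (hns : ∀ z t, P z → P t → z ≠ 0 → t ≠ 0 → t + z ≠ 0 → ¬ IsSquare (t * (t + z))) : False := by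
  have := two_charP hq
  set T : RatFunc K := RatFunc.X - RatFunc.C l with hTdef
  have e3 : T * (x + y) + g * (x + y) ^ 2 + Δ * (x + y) ^ 4 = y + w := by
    linear_combination (norm := (ring_nf; reduce_mod_char!)) ex + ey
  have e4 : T * (y + w) + g * (y + w) ^ 2 + Δ * (y + w) ^ 4 = x + y + w := by
    linear_combination (norm := (ring_nf; reduce_mod_char!)) ey + ew
  have e5 : T * (x + y + w) + g * (x + y + w) ^ 2 + Δ * (x + y + w) ^ 4 = x + w := by
    linear_combination (norm := (ring_nf; reduce_mod_char!)) ex + ey + ew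
  have e6 : T * (x + w) + g * (x + w) ^ 2 + Δ * (x + w) ^ 4 = x := by
    linear_combination (norm := (ring_nf; reduce_mod_char!)) ex + ew
  have nz : ∀ a b : RatFunc K, T * a + g * a ^ 2 + Δ * a ^ 4 = b → b ≠ 0 → a ≠ 0 := by
    rintro a b h hb rfl; exact hb (by rw [← h]; simp)
  have n6 := nz _ _ e6 hx
  have n5 := nz _ _ e5 n6
  have n4 := nz _ _ e4 n5
  have n3 := nz _ _ e3 n4
  have n2 := nz _ _ ew n3
  have n1 := nz _ _ ey n2
  have s1 : y + x = x + y := by ring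
  have s2 : w + x = x + w := by ring
  have s3 : y + w + x = x + y + w := by ring
  obtain ⟨π, hπ, H⟩ := odd_place hq (mul_ne_zero n1 (s1 ▸ n3)) (hns x y px py hx n1 (s1 ▸ n3))
  have hT := theta_ge hπ l
  rw [← hTdef] at hT
  set ν := fin π hπ
  obtain ⟨k1, o1⟩ := odd_pair s1 n1 hx n3 (H _ (mul_ne_zero n1 (s1 ▸ n3)) (hsq x y y px py py))
  obtain ⟨k2, o2⟩ := odd_pair s2 n2 hx n6 (H _ (mul_ne_zero n2 (s2 ▸ n6)) (hsq x y w px py pw))
  obtain ⟨k3, o3⟩ := odd_pair s3 n4 hx n5 (H _ (mul_ne_zero n4 (s3 ▸ n5))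
    (hsq x y (y + w) px py (padd _ _ py pw)))
  have c1 := fun h0 h1 h2 => chain_even (ν := ν) hΔ hT n1 n2 n3 ey ew e3 h0 h1 (Or.inr h2)
  have c2 := fun h0 h1 h2 => chain_even (ν := ν) hΔ hT n2 n3 n4 ew e3 e4 h0 h1 (Or.inr h2)
  have c3 := fun h0 h1 h2 => chain_even (ν := ν) hΔ hT n3 n4 n5 e3 e4 e5 h0 h1 (Or.inr h2)
  have c5 := fun h0 h1 h2 => chain_even (ν := ν) hΔ hT n5 n6 hx e5 e6 ex h0 h1 (Or.inr h2)
  rcases o1 with o1 | o1 <;> rcases o2 with o2 | o2 <;> rcases o3 with o3 | o3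
  · obtain ⟨k, hk⟩ := c5 (by omega) (by omega) (by omega); omega
  · obtain ⟨k, hk⟩ := c3 (by omega) (by omega) (by omega); omega
  · obtain ⟨k, hk⟩ := c2 (by omega) (by omega) (by omega); omega
  · obtain ⟨k, hk⟩ := c3 (by omega) (by omega) (by omega); omega
  · obtain ⟨k, hk⟩ := c5 (by omega) (by omega) (by omega); omega
  · have g := (((Val.is_self (ν := ν) n1).ge' (j := ν.v x + 1) (by omega)).add
      ((Val.is_self (ν := ν) n6).ge' (by omega))).add ((Val.is_self (ν := ν) n4).ge' (by omega))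
    rw [show y + (x + w) + (y + w) = x by ring_nf; reduce_mod_char!] at g
    have := g.le_v hx
    omega
  · obtain ⟨k, hk⟩ := c1 (by omega) (by omega) (by omega); omega
  · obtain ⟨k, hk⟩ := c1 (by omega) (by omega) (by omega); omega

theorem theta_other (hq : Fintype.card K = 2) {π : K[X]} (hπ : Prime π) (l : K)
    (h : π ≠ X - C l) : (fin π hπ).Is 0 (RatFunc.X - RatFunc.C l) := by
  have := fin_other hq hπ (prime_X_sub_C l) h
  rwa [map_sub, RatFunc.algebraMap_X, RatFunc.algebraMap_C] at this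

theorem module4_sep_aux (hq : Fintype.card K = 2) (l : K) {g Δ e x y : RatFunc K} (hΔ : Δ ≠ 0)
    (he : e ≠ 0) (hx : x ≠ 0)
    (ee : (RatFunc.X - RatFunc.C l) * e + g * e ^ 2 + Δ * e ^ 4 = 0)
    (ex : (RatFunc.X - RatFunc.C l) * x + g * x ^ 2 + Δ * x ^ 4 = y)
    (ey : (RatFunc.X - RatFunc.C l) * y + g * y ^ 2 + Δ * y ^ 4 = x + y)
    (P : RatFunc K → Prop) (pe : P e) (px : P x) (py : P y) (padd : ∀ a b, P a → P b → P (a + b))
    (hsq : ∀ z t s, P z → P t → P s → IsSquare (t * (t + z) * (s * (s + z))))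
    (hns : ∀ z t, P z → P t → z ≠ 0 → t ≠ 0 → t + z ≠ 0 → ¬ IsSquare (t * (t + z)))
    (hv : (fin (X - C l) (prime_X_sub_C l)).v x = (fin (X - C l) (prime_X_sub_C l)).v y) :
    False := by
  have := two_charP hq
  set T : RatFunc K := RatFunc.X - RatFunc.C l with hTdef
  have ew : T * (x + y) + g * (x + y) ^ 2 + Δ * (x + y) ^ 4 = x := by
    linear_combination (norm := (ring_nf; reduce_mod_char!)) ex + ey
  have e1 : T * (e + (x + y)) + g * (e + (x + y)) ^ 2 + Δ * (e + (x + y)) ^ 4 = x := by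
    linear_combination (norm := (ring_nf; reduce_mod_char!)) ex + ey + ee
  have e2 : T * (e + x) + g * (e + x) ^ 2 + Δ * (e + x) ^ 4 = y := by
    linear_combination (norm := (ring_nf; reduce_mod_char!)) ex + ee
  have e3 : T * (e + y) + g * (e + y) ^ 2 + Δ * (e + y) ^ 4 = x + y := by
    linear_combination (norm := (ring_nf; reduce_mod_char!)) ey + ee
  have nz : ∀ a b : RatFunc K, T * a + g * a ^ 2 + Δ * a ^ 4 = b → b ≠ 0 → a ≠ 0 := by
    rintro a b h hb rfl; exact hb (by rw [← h]; simp)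
  have nw := nz _ _ ew hx
  have ny := nz _ _ ey nw
  have n1 := nz _ _ e1 hx
  have n2 := nz _ _ e2 ny
  have n3 := nz _ _ e3 nw
  have pw := padd _ _ px py
  have s1 : x + (x + y) = y := by ring_nf; reduce_mod_char!
  have s3 : e + x + (x + y) = e + y := by ring_nf; reduce_mod_char!
  obtain ⟨π, hπ, H⟩ := odd_place hq (mul_ne_zero hx (s1.symm ▸ ny))
    (hns (x + y) x pw px nw hx (s1.symm ▸ ny))
  obtain ⟨k1, o1⟩ := odd_pair s1 hx nw ny (H _ (mul_ne_zero hx (s1.symm ▸ ny))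
    (hsq _ x x pw px px))
  by_cases hne : π = X - C l
  · subst hne; omega
  have hT := theta_other hq hπ l hne
  rw [← hTdef] at hT
  set ν := fin π hπ
  obtain ⟨k2, o2⟩ := odd_pair rfl he nw n1 (H _ (mul_ne_zero he n1) (hsq _ x e pw px pe))
  obtain ⟨k3, o3⟩ := odd_pair s3 n2 nw n3 (H _ (mul_ne_zero n2 (s3.symm ▸ n3))
    (hsq _ x (e + x) pw px (padd _ _ pe px)))
  rcases o1 with o1 | o1 <;> rcases o2 with o2 | o2
  · rcases o3 with o3 | o3
    · have g := (((Val.is_self (ν := ν) ny).ge' (j := ν.v (x + y) + 1) (by omega)).add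
        ((Val.is_self (ν := ν) n1).ge' (by omega))).add ((Val.is_self (ν := ν) n3).ge' (by omega))
      rw [show y + (e + (x + y)) + (e + y) = x + y by ring_nf; reduce_mod_char!] at g
      have := g.le_v nw
      omega
    · obtain ⟨k, hk⟩ := chain_even (ν := ν) hΔ hT.ge n2 ny nw e2 ey ew (by omega) (by omega)
        (Or.inr (by omega))
      omega
  · obtain ⟨k, hk⟩ := eigen_even (ν := ν) hΔ hT he ny nw ee ey ew (by omega) (by omega)
      (Or.inr (by omega))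
    omega
  · obtain ⟨k, hk⟩ := chain_even (ν := ν) hΔ hT.ge n1 hx ny e1 ex ey (by omega) (by omega)
      (Or.inr (by omega))
    omega
  · obtain ⟨k, hk⟩ := eigen_even (ν := ν) hΔ hT he hx ny ee ex ey (by omega) (by omega)
      (Or.inr (by omega))
    omega

/-- Torsion `A/T(T^2+T+1)`, separable case. -/
theorem module4_sep (hq : Fintype.card K = 2) (l : K) {g Δ e x y : RatFunc K} (hΔ : Δ ≠ 0)
    (he : e ≠ 0) (hx : x ≠ 0)
    (ee : (RatFunc.X - RatFunc.C l) * e + g * e ^ 2 + Δ * e ^ 4 = 0)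
    (ex : (RatFunc.X - RatFunc.C l) * x + g * x ^ 2 + Δ * x ^ 4 = y)
    (ey : (RatFunc.X - RatFunc.C l) * y + g * y ^ 2 + Δ * y ^ 4 = x + y)
    (P : RatFunc K → Prop) (pe : P e) (px : P x) (py : P y) (padd : ∀ a b, P a → P b → P (a + b))
    (hsq : ∀ z t s, P z → P t → P s → IsSquare (t * (t + z) * (s * (s + z))))
    (hns : ∀ z t, P z → P t → z ≠ 0 → t ≠ 0 → t + z ≠ 0 → ¬ IsSquare (t * (t + z))) : False := by
  have := two_charP hq
  have ew : (RatFunc.X - RatFunc.C l) * (x + y) + g * (x + y) ^ 2 + Δ * (x + y) ^ 4 = x := by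
    linear_combination (norm := (ring_nf; reduce_mod_char!)) ex + ey
  have nw : x + y ≠ 0 := by intro h; rw [h] at ew; exact hx (by rw [← ew]; simp)
  have ny : y ≠ 0 := by rintro rfl; exact nw (by rw [← ey]; simp)
  have pw := padd _ _ px py
  have tr := (fin (X - C l) (prime_X_sub_C l)).tri rfl hx ny nw
  rcases lt_trichotomy ((fin (X - C l) (prime_X_sub_C l)).v x)
    ((fin (X - C l) (prime_X_sub_C l)).v y) with h | h | h
  · exact module4_sep_aux hq l hΔ he nw ee ew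
      (by rw [ex]; ring_nf; reduce_mod_char!) P pe pw px padd hsq hns (by omega)
  · exact module4_sep_aux hq l hΔ he hx ee ex ey P pe px py padd hsq hns h
  · exact module4_sep_aux hq l hΔ he ny ee ey
      (by rw [ew]; ring_nf; reduce_mod_char!) P pe py pw padd hsq hns (by omega)

theorem two_fin_res' (hq : Fintype.card K = 2) (l : K) {f g : RatFunc K} {k : ℤ}
    (hf : (fin (X - C l) (prime_X_sub_C l)).Is k f)
    (hg : (fin (X - C l) (prime_X_sub_C l)).Is k g) :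
    (fin (X - C l) (prime_X_sub_C l)).Ge (k + 1) (f + g) := by
  obtain ⟨c, hc⟩ := fin_res l hf.ge hg
  rcases two_const hq c with rfl | rfl
  · have := hc.le (by simpa using hf); omega
  · convert hc using 1
    rw [map_one]; linear_combination g * two_rat hq

/-- Torsion `A/T(T^2+T+1)`, inseparable case. -/
theorem module4_insep (hq : Fintype.card K = 2) (l : K) {γ Δ e x y : RatFunc K}
    (he : e ≠ 0) (hx : x ≠ 0)
    (ee : (RatFunc.X - RatFunc.C l) * e + γ ^ 2 * Δ * e ^ 2 + Δ * e ^ 4 = 0)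
    (ex : (RatFunc.X - RatFunc.C l) * x + γ ^ 2 * Δ * x ^ 2 + Δ * x ^ 4 = y)
    (ey : (RatFunc.X - RatFunc.C l) * y + γ ^ 2 * Δ * y ^ 2 + Δ * y ^ 4 = x + y) : False := by
  have := two_charP hq
  have iT0 : (fin (X - C l) (prime_X_sub_C l)).Is 1 (RatFunc.X - RatFunc.C l) := by
    have := fin_is_self (prime_X_sub_C l)
    rwa [map_sub, RatFunc.algebraMap_X, RatFunc.algebraMap_C] at this
  have iTi : (inf (K := K)).Is (-1) (RatFunc.X - RatFunc.C l) :=
    inf_is_X.sub ((inf.ge_C l).mono (by omega))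
  have hD : ∀ π : K[X], ∀ hπ : Prime π, ∀ h : RatFunc K, (fin π hπ).Ge 0 h →
      ¬ (fin π hπ).Ge 2 ((RatFunc.X - RatFunc.C l) * h ^ 2 + 1) := by
    intro π hπ h hh h2
    refine not_ge_two (p := 2) (by exact_mod_cast two_K hq) hπ hh (a := 1) (b := -l) (c := 0)
      (d := 1) (by simp) ?_
    convert h2 using 1
    simp only [map_zero, map_one, map_neg]; ring
  have hTo := fun π hπ h => theta_other hq (π := π) hπ l h
  set T : RatFunc K := RatFunc.X - RatFunc.C l with hTdef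
  have hT : T ≠ 0 := iT0.1
  obtain ⟨x, rfl⟩ : ∃ x', x = x' * e := ⟨x / e, by field_simp⟩
  obtain ⟨y, rfl⟩ : ∃ y', y = y' * e := ⟨y / e, by field_simp⟩
  obtain ⟨c, rfl⟩ : ∃ c, γ = c * e := ⟨γ / e, by field_simp⟩
  have e1 : T = Δ * e ^ 3 * (c + 1) ^ 2 := by
    apply mul_left_cancel₀ he
    linear_combination (norm := (ring_nf; reduce_mod_char!)) ee
  have hc1 : c + 1 ≠ 0 := by intro h; rw [h] at e1; exact hT (by rw [e1]; simp)
  obtain ⟨s, hs⟩ : ∃ s, s * (c + 1) = 1 := ⟨(c + 1)⁻¹, by field_simp⟩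
  have hs0 : s ≠ 0 := by rintro rfl; simp at hs
  have e2 : Δ * e ^ 3 = T * s ^ 2 := by
    rw [e1]; linear_combination (-(Δ * e ^ 3) * (s * (c + 1) + 1)) * hs
  have key : ∀ t u : RatFunc K, T * (t * e) + (c * e) ^ 2 * Δ * (t * e) ^ 2 + Δ * (t * e) ^ 4
      = u * e → T * (s * (t ^ 2 + t) - t) ^ 2 = u + T * t := by
    intro t u h
    apply mul_left_cancel₀ he
    linear_combination (norm := (ring_nf; reduce_mod_char!))
      h + e * (c ^ 2 * t ^ 2 + t ^ 4) * e2 + e * T * t ^ 2 * (s * (c + 1) + 1) * hs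
  have fa := key x y ex
  have fb := key y (x + y) (by rw [ey]; ring)
  have fc := key (x + y) x (by linear_combination (norm := (ring_nf; reduce_mod_char!)) ex + ey)
  have hx0 : x ≠ 0 := left_ne_zero_of_mul hx
  have hw0 : x + y ≠ 0 := by intro h; rw [h] at fc; exact hx0 (by simpa using fc.symm)
  have hy0 : y ≠ 0 := by rintro rfl; exact hw0 (by simpa using fb.symm)
  set w := x + y with hwdef
  have hw : x + y + w = 0 := by rw [hwdef]; ring_nf; reduce_mod_char!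
  have ea : s * (x ^ 2 + x) = (s * (x ^ 2 + x) - x) + x := by ring
  have eb : s * (y ^ 2 + y) = (s * (y ^ 2 + y) - y) + y := by ring
  have ec : s * (w ^ 2 + w) = (s * (w ^ 2 + w) - w) + w := by ring
  generalize s * (x ^ 2 + x) - x = a at ea fa
  generalize s * (y ^ 2 + y) - y = b at eb fb
  generalize s * (w ^ 2 + w) - w = c' at ec fc
  have hval : ∀ (ν : Val (RatFunc K)) (j : ℤ), ν.Is j T →
      ν.Is (3 * ν.v s + ν.v x + ν.v y + ν.v w - j) (s ^ 3 * x * y * w / T) := by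
    intro ν j hj
    have := (((((Val.is_self (ν := ν) hs0).pow 3).mul (Val.is_self hx0)).mul
      (Val.is_self hy0)).mul (Val.is_self hw0)).div hj
    simpa using this
  have l1 : 1 ≤ 3 * (inf (K := K)).v s + (inf (K := K)).v x + (inf (K := K)).v y
      + (inf (K := K)).v w := by
    have res := fun k f g hf hg => two_inf_res hq (k := k) (f := f) (g := g) hf hg
    rcases one_high res hw hx0 hy0 hw0 with h | h | h
    · exact m4_inf_aux iTi res hs0 hx0 hy0 hw0 h.1 h.2 ea eb fa fb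
    · have := m4_inf_aux iTi res hs0 hy0 hw0 hx0 h.1 h.2 eb ec fb fc; omega
    · have := m4_inf_aux iTi res hs0 hw0 hx0 hy0 h.1 h.2 ec ea fc fa; omega
  have l2 := hval _ _ iTi
  have l3 := inf_le_of_ge l2.1 (by
    intro π hπ
    by_cases hne : π = X - C l
    · subst hne
      refine (hval _ _ iT0).ge' ?_
      have res := fun k f g hf hg => two_fin_res' hq l (k := k) (f := f) (g := g) hf hg
      rcases one_high res hw hx0 hy0 hw0 with h | h | h
      · have := m4_T_aux iT0 res hs0 hx0 hy0 hw0 h.1 h.2 ea eb ec fa fb fc; omega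
      · have := m4_T_aux iT0 res hs0 hy0 hw0 hx0 h.1 h.2 eb ec ea fb fc fa; omega
      · have := m4_T_aux iT0 res hs0 hw0 hx0 hy0 h.1 h.2 ec ea eb fc fa fb; omega
    · refine (hval _ _ (hTo π hπ hne)).ge' ?_
      have := m4_fin (hTo π hπ hne) (hD π hπ) hs0 hw hx0 hy0 hw0 ea eb ec fa fb fc
      omega)
  rw [l2.2] at l3
  omega

end Pool.Agent.Lib.MP_1b9c20_nt
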