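import Pool.Agent.Lib.MP_1b9c20_nt.TwoC

/-! `q = 2`: classification of three dimensional stable spaces. -/

set_option autoImplicit false

namespace Pool.Agent.Lib.MP_1b9c20_nt

open Polynomial

/-- Vectors of length three over the field with two elements. -/
abbrev B3 := Bool × Bool × Bool

/-- Sum. -/
def B3.add (u v : B3) : B3 := (xor u.1 v.1, xor u.2.1 v.2.1, xor u.2.2 v.2.2)

/-- Scalar multiple. -/
def B3.sm (b : Bool) (u : B3) : B3 := (b && u.1, b && u.2.1, b && u.2.2)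

/-- The shifted linear map with columns `m0, m1, m2`. -/
def B3.app (m0 m1 m2 : B3) (l : Bool) (v : B3) : B3 :=
  B3.add (B3.add (B3.add (B3.sm v.1 m0) (B3.sm v.2.1 m1)) (B3.sm v.2.2 m2)) (B3.sm l v)

/-- Zero. -/
def B3.z : B3 := (false, false, false)

/-- The seven shapes. -/
def B3.Shape (f : B3 → B3) : Prop :=
  ((∀ v, v ≠ B3.z → f v ≠ B3.z ∧ B3.add (f v) v ≠ B3.z) ∧
      ∃ x, x ≠ B3.z ∧ f (f (f x)) = B3.add x (f x)) ∨
    (∃ a, f (f a) ≠ B3.z ∧ f (f (f a)) = B3.z) ∨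
    (∃ a, f a ≠ B3.z ∧ f (f a) = B3.z ∧ ∃ b, b ≠ B3.z ∧ f b = b) ∨
    (∃ e, e ≠ B3.z ∧ f e = B3.z ∧ ∃ x, x ≠ B3.z ∧ f (f x) = B3.add x (f x)) ∨
    (∃ a, f a ≠ B3.z ∧ f (f a) = B3.z ∧ ∃ y, y ≠ B3.z ∧ B3.add (f a) y ≠ B3.z ∧ f y = B3.z) ∨
    (∃ x, x ≠ B3.z ∧ f x = B3.z ∧ ∃ y, y ≠ B3.z ∧ f y = B3.z ∧ B3.add x y ≠ B3.z ∧
      ∃ w, w ≠ B3.z ∧ f w = w) ∨
    (∀ v, f v = B3.z)

instance (f : B3 → B3) : Decidable (B3.Shape f) := by
  unfold B3.Shape
  refine @instDecidableOr _ _ ?_ (@instDecidableOr _ _ ?_ (@instDecidableOr _ _ ?_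
    (@instDecidableOr _ _ ?_ (@instDecidableOr _ _ ?_ (@instDecidableOr _ _ ?_ ?_))))) <;>
  infer_instance

theorem B3.classify : ∀ m0 m1 m2 : B3, ∃ l : Bool, B3.Shape (B3.app m0 m1 m2 l) := by
  decide +kernel

/-- A Boolean as a ring element. -/
def bit (R : Type) [Ring R] (b : Bool) : R := if b then 1 else 0

theorem bit_xor {R : Type} [CommRing R] (h : (2 : R) = 0) (a b : Bool) :
    bit R (xor a b) = bit R a + bit R b := by
  cases a <;> cases b <;> simp [bit]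
  linear_combination -h

theorem bit_and {R : Type} [CommRing R] (a b : Bool) : bit R (a && b) = bit R a * bit R b := by
  cases a <;> cases b <;> simp [bit]

/-- Evaluation in a basis. -/
def ev {R : Type} [CommRing R] (b0 b1 b2 : R) (v : B3) : R :=
  bit R v.1 * b0 + bit R v.2.1 * b1 + bit R v.2.2 * b2

theorem ev_add {R : Type} [CommRing R] (h : (2 : R) = 0) (b0 b1 b2 : R) (u v : B3) :
    ev b0 b1 b2 (B3.add u v) = ev b0 b1 b2 u + ev b0 b1 b2 v := by
  simp only [ev, B3.add, bit_xor h]; ring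

theorem ev_sm {R : Type} [CommRing R] (b0 b1 b2 : R) (c : Bool) (u : B3) :
    ev b0 b1 b2 (B3.sm c u) = bit R c * ev b0 b1 b2 u := by
  simp only [ev, B3.sm, bit_and]; ring

theorem ev_z {R : Type} [CommRing R] (b0 b1 b2 : R) : ev b0 b1 b2 B3.z = 0 := by
  simp [ev, B3.z, bit]

variable {K : Type} [Field K] [Fintype K]

omit [Fintype K] in
theorem exists_shift (l : K) :
    ∃ σ : RatFunc K →+* RatFunc K, σ (RatFunc.X - RatFunc.C l) = RatFunc.X := by
  have hinj : Function.Injective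
      ((algebraMap K[X] (RatFunc K)).comp (algEquivAevalXAddC l).toRingEquiv.toRingHom) :=
    (IsFractionRing.injective K[X] (RatFunc K)).comp (algEquivAevalXAddC l).injective
  refine ⟨IsFractionRing.lift hinj, ?_⟩
  have : (RatFunc.X - RatFunc.C l : RatFunc K) = algebraMap K[X] (RatFunc K) (X - C l) := by
    rw [map_sub, RatFunc.algebraMap_X, RatFunc.algebraMap_C]
  rw [this, IsFractionRing.lift_algebraMap]
  simp [algEquivAevalXAddC]

omit [Fintype K] in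
theorem C_bit (l : Bool) : RatFunc.C (bit K l) = bit (RatFunc K) l := by
  cases l <;> simp [bit]

theorem phi_two (hq : Fintype.card K = 2) (g Δ x : RatFunc K) :
    phi g Δ x = RatFunc.X * x + g * x ^ 2 + Δ * x ^ 4 := by
  simp only [phi, hq]; ring

theorem two_class (hq : Fintype.card K = 2) {g Δ : RatFunc K} (hΔ : Δ ≠ 0) (b0 b1 b2 : RatFunc K)
    (hinj : ∀ v, ev b0 b1 b2 v = 0 → v = B3.z)
    (hstab : ∀ v, ∃ w, phi g Δ (ev b0 b1 b2 v) = ev b0 b1 b2 w)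
    (H : ((∀ z t s, IsSquare (ev b0 b1 b2 t * (ev b0 b1 b2 t + ev b0 b1 b2 z) *
          (ev b0 b1 b2 s * (ev b0 b1 b2 s + ev b0 b1 b2 z)))) ∧
        (∀ z t, ev b0 b1 b2 z ≠ 0 → ev b0 b1 b2 t ≠ 0 → ev b0 b1 b2 t + ev b0 b1 b2 z ≠ 0 →
          ¬ IsSquare (ev b0 b1 b2 t * (ev b0 b1 b2 t + ev b0 b1 b2 z)))) ∨
      ((∃ γ, g = γ ^ 2 * Δ) ∧ ∃ c : K, ∃ v, ev b0 b1 b2 v ≠ 0 ∧
        phi g Δ (ev b0 b1 b2 v) = RatFunc.C c * ev b0 b1 b2 v)) : False := by
  have h2 := two_rat hq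
  have := two_charP hq
  obtain ⟨m0, h0⟩ := hstab (true, false, false)
  obtain ⟨m1, h1⟩ := hstab (false, true, false)
  obtain ⟨m2, h2'⟩ := hstab (false, false, true)
  have e0 : ev b0 b1 b2 (true, false, false) = b0 := by simp [ev, bit]
  have e1 : ev b0 b1 b2 (false, true, false) = b1 := by simp [ev, bit]
  have e2 : ev b0 b1 b2 (false, false, true) = b2 := by simp [ev, bit]
  rw [e0] at h0
  rw [e1] at h1
  rw [e2] at h2'
  obtain ⟨l, hl⟩ := B3.classify m0 m1 m2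
  set E := ev b0 b1 b2 with hE
  set f := B3.app m0 m1 m2 l with hf
  have key0 : ∀ v, phi g Δ (E v) + bit (RatFunc K) l * E v = E (f v) := by
    intro v
    simp only [hf, hE, B3.app, ev_add h2, ev_sm]
    rw [← hE, ← h0, ← h1, ← h2']
    congr 1
    simp only [hE, ev, phi_add, ← C_bit, phi_C_mul]
  have key : ∀ v, (RatFunc.X - RatFunc.C (bit K l)) * E v + g * E v ^ 2 + Δ * E v ^ 4
      = E (f v) := by
    intro v
    rw [← key0, phi_two hq, C_bit]
    linear_combination (-(bit (RatFunc K) l * E v)) * h2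
  have nz : ∀ v, v ≠ B3.z → E v ≠ 0 := fun v hv h => hv (hinj v h)
  have Ez : E B3.z = 0 := ev_z _ _ _
  have Eadd : ∀ u v, E (B3.add u v) = E u + E v := ev_add h2 _ _ _
  obtain ⟨σ, hσ⟩ := exists_shift (bit K l)
  have keyσ : ∀ v, RatFunc.X * σ (E v) + σ g * σ (E v) ^ 2 + σ Δ * σ (E v) ^ 4 = σ (E (f v)) := by
    intro v
    rw [← key, ← hσ]
    simp only [map_add, map_mul, map_pow, hσ]
  have nzσ : ∀ v, v ≠ B3.z → σ (E v) ≠ 0 := fun v hv => (map_ne_zero σ).2 (nz v hv)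
  have hΔσ : σ Δ ≠ 0 := (map_ne_zero σ).2 hΔ
  have padd : ∀ a b : RatFunc K, (∃ v, a = E v) → (∃ v, b = E v) → ∃ v, a + b = E v := by
    rintro _ _ ⟨u, rfl⟩ ⟨v, rfl⟩
    exact ⟨_, (Eadd u v).symm⟩
  rcases hl with ⟨hno, x, hx, e⟩ | ⟨a, ha, e⟩ | ⟨a, ha, e, b, hb, e'⟩ | ⟨e, he, e', x, hx, e''⟩ |
    ⟨a, ha, e, y, hy, hay, e'⟩ | ⟨x, hx, ex, y, hy, ey, hxy, w, hw, ew⟩ | hall
  · rcases H with ⟨hsq, hns⟩ | ⟨-, c, v, hv, ev'⟩
    · refine module1 hq (bit K l) hΔ (nz x hx) (key x) (key (f x)) ?_ (fun a => ∃ v, a = E v)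
        ⟨_, rfl⟩ ⟨_, rfl⟩ ⟨_, rfl⟩ padd ?_ ?_
      · rw [key, e, Eadd]
      · rintro _ _ _ ⟨z, rfl⟩ ⟨t, rfl⟩ ⟨s, rfl⟩
        exact hsq z t s
      · rintro _ _ ⟨z, rfl⟩ ⟨t, rfl⟩
        exact hns z t
    · have hv0 : v ≠ B3.z := by rintro rfl; exact hv Ez
      obtain ⟨n1, n2⟩ := hno v hv0
      have k0 := key0 v
      rw [ev'] at k0
      have k1 := nz _ n1
      have k2 := nz _ n2
      rw [Eadd] at k2
      rcases two_const hq c with rfl | rfl <;> cases l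
      · apply k1; rw [← k0]; simp [bit]
      · apply k2; rw [← k0]; simp [bit]; linear_combination (E v) * h2
      · apply k2; rw [← k0]; simp [bit]; linear_combination (E v) * h2
      · apply k1; rw [← k0]; simp [bit]; linear_combination (E v) * h2
  · refine module2 hq hΔσ (nzσ _ ha) (keyσ a) (keyσ (f a)) ?_
    rw [keyσ, e, Ez, map_zero]
  · refine module3 hq hΔσ (nzσ _ ha) (nzσ _ hb) (keyσ a) ?_ ?_
    · rw [keyσ, e']
    · rw [keyσ, e, Ez, map_zero]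
  · have ee : (RatFunc.X - RatFunc.C (bit K l)) * E e + g * E e ^ 2 + Δ * E e ^ 4 = 0 := by
      rw [key, e', Ez]
    have ey : (RatFunc.X - RatFunc.C (bit K l)) * E (f x) + g * E (f x) ^ 2 + Δ * E (f x) ^ 4
        = E x + E (f x) := by rw [key, e'', Eadd]
    rcases H with ⟨hsq, hns⟩ | ⟨⟨γ, rfl⟩, -⟩
    · refine module4_sep hq (bit K l) hΔ (nz e he) (nz x hx) ee (key x) ey (fun a => ∃ v, a = E v)
        ⟨_, rfl⟩ ⟨_, rfl⟩ ⟨_, rfl⟩ padd ?_ ?_
      · rintro _ _ _ ⟨z, rfl⟩ ⟨t, rfl⟩ ⟨s, rfl⟩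
        exact hsq z t s
      · rintro _ _ ⟨z, rfl⟩ ⟨t, rfl⟩
        exact hns z t
    · exact module4_insep hq (bit K l) (nz e he) (nz x hx) ee (key x) ey
  · refine module5 hq (nzσ _ ha) (nzσ _ hy) ?_ ?_ ?_ (keyσ a)
    · rw [← map_add, ← Eadd]; exact nzσ _ hay
    · rw [keyσ, e, Ez, map_zero]
    · rw [keyσ, e', Ez, map_zero]
  · refine module6 hq (g := σ g) (Δ := σ Δ) (nzσ _ hx) (nzσ _ hy) ?_ (nzσ _ hw) ?_ ?_ ?_
    · rw [← map_add, ← Eadd]; exact nzσ _ hxy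
    · rw [keyσ, ex, Ez, map_zero]
    · rw [keyσ, ey, Ez, map_zero]
    · rw [keyσ, ew]
  · have k : ∀ v, (RatFunc.X - RatFunc.C (bit K l)) * E v + g * E v ^ 2 + Δ * E v ^ 4 = 0 := by
      intro v; rw [key, hall, Ez]
    have n01 := nz (B3.add (true, false, false) (false, true, false)) (by decide)
    have n02 := nz (B3.add (false, false, true) (true, false, false)) (by decide)
    have n12 := nz (B3.add (false, false, true) (false, true, false)) (by decide)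
    have n012 := nz (B3.add (B3.add (false, false, true) (true, false, false)) (false, true, false))
      (by decide)
    simp only [Eadd] at n01 n02 n12 n012
    have := (two_kernel hq (nz (true, false, false) (by decide)) (nz (false, true, false) (by decide))
      n01 (k _) (k _)).2 (E (false, false, true))
    rw [k] at this
    exact mul_ne_zero hΔ (mul_ne_zero (nz (false, false, true) (by decide))
      (mul_ne_zero (mul_ne_zero n02 n12) n012)) this.symm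

end Pool.Agent.Lib.MP_1b9c20_nt
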