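import Mathlib

/-! Integer valued valuations on the nonzero elements of a field, and the places of `K(T)`. -/

set_option autoImplicit false

namespace Pool.Agent.Lib.MP_1b9c20_nt

open Polynomial

/-- An integer valued valuation; the value at `0` is irrelevant. -/
structure Val (F : Type) [Field F] where
  v : F → ℤ
  mul : ∀ {a b : F}, a ≠ 0 → b ≠ 0 → v (a * b) = v a + v b
  add : ∀ {a b : F}, a ≠ 0 → b ≠ 0 → a + b ≠ 0 → min (v a) (v b) ≤ v (a + b)

namespace Val

variable {F : Type} [Field F] (ν : Val F)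

theorem one : ν.v 1 = 0 := by
  have := ν.mul (one_ne_zero (α := F)) (one_ne_zero (α := F))
  rw [mul_one] at this; omega

theorem neg {a : F} (ha : a ≠ 0) : ν.v (-a) = ν.v a := by
  have h1 : ν.v (-1) = 0 := by
    have := ν.mul (a := (-1 : F)) (b := -1) (by simp) (by simp)
    rw [show (-1 : F) * -1 = 1 by ring, ν.one] at this; omega
  have := ν.mul (a := (-1 : F)) (b := a) (by simp) ha
  rw [show (-1 : F) * a = -a by ring] at this; omega

theorem inv {a : F} (ha : a ≠ 0) : ν.v a⁻¹ = - ν.v a := by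
  have := ν.mul ha (inv_ne_zero ha)
  rw [mul_inv_cancel₀ ha, ν.one] at this; omega

theorem div {a b : F} (ha : a ≠ 0) (hb : b ≠ 0) : ν.v (a / b) = ν.v a - ν.v b := by
  rw [div_eq_mul_inv, ν.mul ha (inv_ne_zero hb), ν.inv hb]; ring

theorem pow {a : F} (ha : a ≠ 0) (n : ℕ) : ν.v (a ^ n) = n * ν.v a := by
  induction n with
  | zero => simp [ν.one]
  | succ n ih => rw [pow_succ, ν.mul (pow_ne_zero _ ha) ha, ih]; push_cast; ring

/-- `f` is zero or has valuation at least `k`. -/
def Ge (k : ℤ) (f : F) : Prop := f = 0 ∨ k ≤ ν.v f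

/-- `f` is nonzero of valuation exactly `k`. -/
def Is (k : ℤ) (f : F) : Prop := f ≠ 0 ∧ ν.v f = k

variable {ν}

theorem is_self {a : F} (ha : a ≠ 0) : ν.Is (ν.v a) a := ⟨ha, rfl⟩

theorem Is.ge {k : ℤ} {a : F} (h : ν.Is k a) : ν.Ge k a := Or.inr h.2.ge

theorem Is.ge' {j k : ℤ} {a : F} (h : ν.Is k a) (hj : j ≤ k) : ν.Ge j a :=
  Or.inr (h.2 ▸ hj)

theorem ge_zero (k : ℤ) : ν.Ge k 0 := Or.inl rfl

theorem Ge.mono {j k : ℤ} {a : F} (h : ν.Ge k a) (hj : j ≤ k) : ν.Ge j a :=
  h.imp id fun h => hj.trans h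

theorem Ge.le {j k : ℤ} {a : F} (h : ν.Ge j a) (h' : ν.Is k a) : j ≤ k := by
  rcases h with h | h
  · exact absurd h h'.1
  · exact h'.2 ▸ h

theorem Ge.le_v {j : ℤ} {a : F} (h : ν.Ge j a) (h' : a ≠ 0) : j ≤ ν.v a := h.le (is_self h')

theorem Is.unique {j k : ℤ} {a : F} (h : ν.Is j a) (h' : ν.Is k a) : j = k := h.2.symm.trans h'.2

theorem Ge.add {k : ℤ} {a b : F} (ha : ν.Ge k a) (hb : ν.Ge k b) : ν.Ge k (a + b) := by
  by_cases h0 : a + b = 0
  · exact Or.inl h0
  by_cases ha0 : a = 0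
  · subst ha0; simpa using hb
  by_cases hb0 : b = 0
  · subst hb0; simpa using ha
  have := ν.add ha0 hb0 h0
  have h1 := ha.le_v ha0
  have h2 := hb.le_v hb0
  exact Or.inr (by omega)

theorem Ge.neg {k : ℤ} {a : F} (ha : ν.Ge k a) : ν.Ge k (-a) := by
  by_cases ha0 : a = 0
  · subst ha0; simpa using ha
  exact Or.inr (by rw [ν.neg ha0]; exact ha.le_v ha0)

theorem Ge.sub {k : ℤ} {a b : F} (ha : ν.Ge k a) (hb : ν.Ge k b) : ν.Ge k (a - b) := by
  rw [sub_eq_add_neg]; exact ha.add hb.neg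

theorem Is.neg {k : ℤ} {a : F} (ha : ν.Is k a) : ν.Is k (-a) :=
  ⟨neg_ne_zero.2 ha.1, by rw [ν.neg ha.1]; exact ha.2⟩

theorem Ge.mul {j k : ℤ} {a b : F} (ha : ν.Ge j a) (hb : ν.Ge k b) : ν.Ge (j + k) (a * b) := by
  by_cases ha0 : a = 0
  · subst ha0; exact Or.inl (by simp)
  by_cases hb0 : b = 0
  · subst hb0; exact Or.inl (by simp)
  have h1 := ha.le_v ha0
  have h2 := hb.le_v hb0
  exact Or.inr (by rw [ν.mul ha0 hb0]; omega)

theorem Is.mul {j k : ℤ} {a b : F} (ha : ν.Is j a) (hb : ν.Is k b) : ν.Is (j + k) (a * b) :=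
  ⟨mul_ne_zero ha.1 hb.1, by rw [ν.mul ha.1 hb.1, ha.2, hb.2]⟩

theorem Is.pow {k : ℤ} {a : F} (ha : ν.Is k a) (n : ℕ) : ν.Is (n * k) (a ^ n) :=
  ⟨pow_ne_zero _ ha.1, by rw [ν.pow ha.1, ha.2]⟩

theorem Is.inv {k : ℤ} {a : F} (ha : ν.Is k a) : ν.Is (-k) a⁻¹ :=
  ⟨inv_ne_zero ha.1, by rw [ν.inv ha.1, ha.2]⟩

theorem Is.div {j k : ℤ} {a b : F} (ha : ν.Is j a) (hb : ν.Is k b) : ν.Is (j - k) (a / b) :=
  ⟨div_ne_zero ha.1 hb.1, by rw [ν.div ha.1 hb.1, ha.2, hb.2]⟩

theorem is_one : ν.Is 0 1 := ⟨one_ne_zero, ν.one⟩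

theorem Ge.pow {k : ℤ} {a : F} (ha : ν.Ge k a) {n : ℕ} (hn : n ≠ 0) : ν.Ge (n * k) (a ^ n) := by
  by_cases ha0 : a = 0
  · subst ha0; exact Or.inl (by simp [hn])
  have h1 := ha.le_v ha0
  refine Or.inr ?_
  rw [ν.pow ha0]
  exact mul_le_mul_of_nonneg_left h1 (by positivity)

theorem Is.add {k : ℤ} {a b : F} (ha : ν.Is k a) (hb : ν.Ge (k + 1) b) : ν.Is k (a + b) := by
  have h0 : a + b ≠ 0 := by
    intro h
    have : a = -b := by linear_combination h
    have h2 := hb.neg.le (this ▸ ha)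
    omega
  refine ⟨h0, ?_⟩
  have h1 : k ≤ ν.v (a + b) := (ha.ge.add (hb.mono (by omega))).le_v h0
  by_contra hne
  have h2 : ν.Ge (k + 1) (a + b) := Or.inr (by omega)
  have h3 := (h2.sub hb).le (by simpa using ha)
  omega

theorem Is.add' {k : ℤ} {a b : F} (ha : ν.Is k a) (hb : ν.Ge (k + 1) b) : ν.Is k (b + a) := by
  rw [add_comm]; exact ha.add hb

theorem Is.sub {k : ℤ} {a b : F} (ha : ν.Is k a) (hb : ν.Ge (k + 1) b) : ν.Is k (a - b) := by
  rw [sub_eq_add_neg]; exact ha.add hb.neg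

theorem Is.sub' {k : ℤ} {a b : F} (ha : ν.Is k a) (hb : ν.Ge (k + 1) b) : ν.Is k (b - a) := by
  rw [sub_eq_add_neg, add_comm]; exact ha.neg.add hb

/-- From a product with a known factor. -/
theorem Ge.of_mul {j k : ℤ} {a b : F} (hab : ν.Ge k (a * b)) (ha : ν.Is j a) :
    ν.Ge (k - j) b := by
  have := hab.mul ha.inv.ge
  rw [show a * b * a⁻¹ = b by field_simp [ha.1]] at this
  exact this.mono (by omega)

theorem Is.of_mul {j k : ℤ} {a b : F} (hab : ν.Is k (a * b)) (ha : ν.Is j a) :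
    ν.Is (k - j) b := by
  have := hab.mul ha.inv
  rw [show a * b * a⁻¹ = b by field_simp [ha.1]] at this
  simpa [sub_eq_add_neg] using this

theorem ge_or_lt (k : ℤ) (a : F) : ν.Ge k a ∨ (a ≠ 0 ∧ ν.v a < k) := by
  by_cases h : a = 0
  · exact Or.inl (Or.inl h)
  by_cases h' : k ≤ ν.v a
  · exact Or.inl (Or.inr h')
  · exact Or.inr ⟨h, by omega⟩

/-- The three ultrametric inequalities of a sum of nonzero elements. -/
theorem tri (ν : Val F) {a b c : F} (h : a + b = c) (ha : a ≠ 0) (hb : b ≠ 0) (hc : c ≠ 0) :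
    min (ν.v a) (ν.v b) ≤ ν.v c ∧ min (ν.v a) (ν.v c) ≤ ν.v b ∧ min (ν.v b) (ν.v c) ≤ ν.v a := by
  refine ⟨h ▸ ν.add ha hb (h ▸ hc), ?_, ?_⟩
  · have := ν.add (neg_ne_zero.2 ha) hc (by rw [← h]; simpa using hb)
    rw [ν.neg ha, show -a + c = b by rw [← h]; ring] at this; exact this
  · have := ν.add (neg_ne_zero.2 hb) hc (by rw [← h]; simpa using ha)
    rw [ν.neg hb, show -b + c = a by rw [← h]; ring] at this; exact this

end Val

variable {K : Type} [Field K]

/-- Constants of a finite field have valuation zero. -/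
theorem Val.is_C [Fintype K] (ν : Val (RatFunc K)) {c : K} (hc : c ≠ 0) :
    ν.Is 0 (RatFunc.C c) := by
  have h0 : (RatFunc.C c : RatFunc K) ≠ 0 := by simpa using hc
  refine ⟨h0, ?_⟩
  have h1 := ν.pow h0 (Fintype.card K - 1)
  rw [← map_pow, FiniteField.pow_card_sub_one_eq_one c hc, map_one, ν.one] at h1
  have h2 : 1 < Fintype.card K := Fintype.one_lt_card
  have h3 : ((Fintype.card K - 1 : ℕ) : ℤ) ≠ 0 := by
    have : Fintype.card K - 1 ≠ 0 := by omega
    exact_mod_cast this
  rcases mul_eq_zero.1 h1.symm with h | h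
  · exact absurd h h3
  · exact h

theorem Val.ge_C [Fintype K] (ν : Val (RatFunc K)) (c : K) : ν.Ge 0 (RatFunc.C c) := by
  by_cases hc : c = 0
  · subst hc; exact Or.inl (by simp)
  · exact (ν.is_C hc).ge

/-- The order of a rational function at the prime polynomial `π`. -/
noncomputable def vP (π : K[X]) (f : RatFunc K) : ℤ :=
  (multiplicity π f.num : ℤ) - multiplicity π f.denom

theorem mult_mul {π a b : K[X]} (hπ : Prime π) (ha : a ≠ 0) (hb : b ≠ 0) :
    multiplicity π (a * b) = multiplicity π a + multiplicity π b :=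
  multiplicity_mul hπ (FiniteMultiplicity.of_prime_left hπ (mul_ne_zero ha hb))

theorem vP_div {π a b : K[X]} (hπ : Prime π) (ha : a ≠ 0) (hb : b ≠ 0) :
    vP π (algebraMap K[X] (RatFunc K) a / algebraMap K[X] (RatFunc K) b)
      = (multiplicity π a : ℤ) - multiplicity π b := by
  set f := algebraMap K[X] (RatFunc K) a / algebraMap K[X] (RatFunc K) b with hf
  have hf0 : f ≠ 0 := div_ne_zero (by simpa using ha) (by simpa using hb)
  have h : f.num * b = a * f.denom := (RatFunc.num_mul_eq_mul_denom_iff hb).2 hf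
  have h1 := mult_mul hπ (RatFunc.num_ne_zero hf0) hb
  have h2 := mult_mul hπ ha (RatFunc.denom_ne_zero f)
  rw [h] at h1
  unfold vP
  omega

theorem mult_add {π a b : K[X]} (hπ : Prime π) (ha : a ≠ 0) (hb : b ≠ 0) (hab : a + b ≠ 0) :
    min (multiplicity π a) (multiplicity π b) ≤ multiplicity π (a + b) := by
  rw [← (FiniteMultiplicity.of_prime_left hπ hab).pow_dvd_iff_le_multiplicity]
  refine dvd_add ?_ ?_
  · rw [(FiniteMultiplicity.of_prime_left hπ ha).pow_dvd_iff_le_multiplicity]; omega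
  · rw [(FiniteMultiplicity.of_prime_left hπ hb).pow_dvd_iff_le_multiplicity]; omega

/-- The finite place attached to a prime polynomial. -/
noncomputable def fin (π : K[X]) (hπ : Prime π) : Val (RatFunc K) where
  v := vP π
  mul := by
    intro a b ha hb
    have e : a * b = algebraMap K[X] (RatFunc K) (a.num * b.num) /
        algebraMap K[X] (RatFunc K) (a.denom * b.denom) := by
      rw [map_mul, map_mul, mul_div_mul_comm, RatFunc.num_div_denom, RatFunc.num_div_denom]
    have hna := RatFunc.num_ne_zero ha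
    have hnb := RatFunc.num_ne_zero hb
    have hda := RatFunc.denom_ne_zero a
    have hdb := RatFunc.denom_ne_zero b
    rw [e, vP_div hπ (mul_ne_zero hna hnb) (mul_ne_zero hda hdb), mult_mul hπ hna hnb,
      mult_mul hπ hda hdb]
    unfold vP; push_cast; ring
  add := by
    intro a b ha hb hab
    have hna := RatFunc.num_ne_zero ha
    have hnb := RatFunc.num_ne_zero hb
    have hda := RatFunc.denom_ne_zero a
    have hdb := RatFunc.denom_ne_zero b
    have e : a + b = algebraMap K[X] (RatFunc K) (a.num * b.denom + a.denom * b.num) /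
        algebraMap K[X] (RatFunc K) (a.denom * b.denom) := by
      rw [map_add, map_mul, map_mul, map_mul, ← div_add_div _ _ (by simpa using hda)
        (by simpa using hdb), RatFunc.num_div_denom, RatFunc.num_div_denom]
    have hn : a.num * b.denom + a.denom * b.num ≠ 0 := by
      intro h; rw [h] at e; simp at e; exact hab e
    have h1 := mult_add hπ (mul_ne_zero hna hdb) (mul_ne_zero hda hnb) hn
    rw [mult_mul hπ hna hdb, mult_mul hπ hda hnb] at h1
    rw [e, vP_div hπ hn (mul_ne_zero hda hdb), mult_mul hπ hda hdb]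
    unfold vP
    omega

theorem fin_poly {π a : K[X]} (hπ : Prime π) (ha : a ≠ 0) :
    (fin π hπ).v (algebraMap K[X] (RatFunc K) a) = multiplicity π a := by
  have := vP_div hπ ha (one_ne_zero (α := K[X]))
  rw [map_one, div_one, multiplicity_eq_zero.2 hπ.not_dvd_one] at this
  simpa [fin] using this

theorem fin_ge_poly {π : K[X]} (hπ : Prime π) (a : K[X]) :
    (fin π hπ).Ge 0 (algebraMap K[X] (RatFunc K) a) := by
  by_cases ha : a = 0
  · subst ha; exact Or.inl (by simp)
  · exact Or.inr (by rw [fin_poly hπ ha]; positivity)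

theorem fin_ge_poly_iff {π : K[X]} (hπ : Prime π) (a : K[X]) (k : ℕ) :
    (fin π hπ).Ge k (algebraMap K[X] (RatFunc K) a) ↔ π ^ k ∣ a := by
  by_cases ha : a = 0
  · subst ha; simp [Val.Ge]
  · rw [(FiniteMultiplicity.of_prime_left hπ ha).pow_dvd_iff_le_multiplicity, Val.Ge,
      fin_poly hπ ha]
    simp [ha]

theorem fin_is_zero {π a : K[X]} (hπ : Prime π) (ha : ¬ π ∣ a) :
    (fin π hπ).Is 0 (algebraMap K[X] (RatFunc K) a) := by
  have h0 : a ≠ 0 := by rintro rfl; exact ha (dvd_zero _)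
  exact ⟨by simpa using h0, by rw [fin_poly hπ h0, multiplicity_eq_zero.2 ha]; rfl⟩

theorem fin_is_self {π : K[X]} (hπ : Prime π) :
    (fin π hπ).Is 1 (algebraMap K[X] (RatFunc K) π) := by
  refine ⟨by simpa using hπ.ne_zero, ?_⟩
  rw [fin_poly hπ hπ.ne_zero, multiplicity_self]; rfl

theorem not_dvd_denom {π : K[X]} (hπ : Prime π) {f : RatFunc K} (hf : (fin π hπ).Ge 0 f) :
    ¬ π ∣ f.denom := by
  intro hd
  by_cases hf0 : f = 0
  · subst hf0; exact hπ.not_dvd_one (by simpa using hd)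
  have hn : ¬ π ∣ f.num := fun hn =>
    hπ.not_isUnit ((RatFunc.isCoprime_num_denom f).isUnit_of_dvd' hn hd)
  have h1 := hf.le_v hf0
  have h2 : multiplicity π f.num = 0 := multiplicity_eq_zero.2 hn
  have h3 : multiplicity π f.denom ≠ 0 := fun h => multiplicity_eq_zero.1 h hd
  simp only [fin, vP] at h1
  omega

/-- A rational function without finite poles is a polynomial. -/
theorem poly_of_ge {f : RatFunc K} (h : ∀ π : K[X], ∀ hπ : Prime π, (fin π hπ).Ge 0 f) :
    ∃ p : K[X], f = algebraMap K[X] (RatFunc K) p := by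
  have hd : f.denom = 1 := by
    by_contra hne
    have hu : ¬ IsUnit f.denom := fun hu => hne ((RatFunc.monic_denom f).isUnit_iff.1 hu)
    obtain ⟨π, hπ, hd⟩ := WfDvdMonoid.exists_irreducible_factor hu (RatFunc.denom_ne_zero f)
    exact not_dvd_denom hπ.prime (h π hπ.prime) hd
  refine ⟨f.num, ?_⟩
  conv_lhs => rw [← RatFunc.num_div_denom f, hd]
  simp

/-- The place at infinity. -/
noncomputable def inf : Val (RatFunc K) where
  v f := - f.intDegree
  mul := by intro a b ha hb; rw [RatFunc.intDegree_mul ha hb]; ring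
  add := by
    intro a b _ hb hab
    have := RatFunc.intDegree_add_le hb hab
    omega

theorem inf_poly (a : K[X]) :
    (inf (K := K)).v (algebraMap K[X] (RatFunc K) a) = - a.natDegree := by
  simp [inf]

theorem inf_is_X : (inf (K := K)).Is (-1) RatFunc.X := ⟨RatFunc.X_ne_zero, by simp [inf]⟩

/-- A nonzero rational function without finite poles does not vanish at infinity. -/
theorem inf_le_of_ge {f : RatFunc K} (hf : f ≠ 0)
    (h : ∀ π : K[X], ∀ hπ : Prime π, (fin π hπ).Ge 0 f) : (inf (K := K)).v f ≤ 0 := by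
  obtain ⟨p, rfl⟩ := poly_of_ge h
  rw [inf_poly]; omega

/-- The residue field at `T = a` is `K`. -/
theorem fin_res (a : K) {f g : RatFunc K} {k : ℤ}
    (hf : (fin (X - C a) (prime_X_sub_C a)).Ge k f) (hg : (fin (X - C a) (prime_X_sub_C a)).Is k g) :
    ∃ c : K, (fin (X - C a) (prime_X_sub_C a)).Ge (k + 1) (f - RatFunc.C c * g) := by
  set ν := fin (X - C a) (prime_X_sub_C a) with hν
  have h1 : ν.Ge 0 (f / g) := by
    have := hf.mul hg.inv.ge
    rw [div_eq_mul_inv]; exact this.mono (by omega)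
  have hd := not_dvd_denom _ h1
  set h := f / g with hh
  have hd' : h.denom.eval a ≠ 0 := fun h0 => hd (dvd_iff_isRoot.2 h0)
  refine ⟨h.num.eval a / h.denom.eval a, ?_⟩
  have e : f - RatFunc.C (h.num.eval a / h.denom.eval a) * g =
      algebraMap K[X] (RatFunc K) (h.num - C (h.num.eval a / h.denom.eval a) * h.denom)
        * (algebraMap K[X] (RatFunc K) h.denom)⁻¹ * g := by
    have hd0 : algebraMap K[X] (RatFunc K) h.denom ≠ 0 := by simpa using RatFunc.denom_ne_zero h
    have e1 : algebraMap K[X] (RatFunc K) h.num = h * algebraMap K[X] (RatFunc K) h.denom := by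
      rw [← div_eq_iff hd0]; exact RatFunc.num_div_denom h
    have e2 : f = h * g := by rw [hh]; field_simp [hg.1]
    rw [map_sub, map_mul, RatFunc.algebraMap_C, e1]
    conv_lhs => rw [e2]
    field_simp
  rw [e]
  have h2 : ν.Ge ((1 : ℕ) : ℤ) (algebraMap K[X] (RatFunc K)
      (h.num - C (h.num.eval a / h.denom.eval a) * h.denom)) := by
    rw [hν, fin_ge_poly_iff, pow_one, dvd_iff_isRoot]
    simp only [IsRoot.def, eval_sub, eval_mul, eval_C]
    field_simp; ring
  have h3 := (h2.mul (fin_is_zero _ hd).inv.ge).mul hg.ge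
  exact h3.mono (by push_cast; omega)

/-- The residue field at infinity is `K`. -/
theorem inf_res {f g : RatFunc K} {k : ℤ} (hf : (inf (K := K)).Is k f) (hg : (inf (K := K)).Is k g) :
    ∃ c : K, (inf (K := K)).Ge (k + 1) (f - RatFunc.C c * g) := by
  set ν := inf (K := K) with hν
  have h1 : ν.Is 0 (f / g) := by simpa using hf.div hg
  set h := f / g with hh
  have hdeg : h.num.natDegree = h.denom.natDegree := by
    have := h1.2
    simp only [hν, inf, RatFunc.intDegree] at this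
    omega
  refine ⟨h.num.leadingCoeff, ?_⟩
  have hd0 : algebraMap K[X] (RatFunc K) h.denom ≠ 0 := by simpa using RatFunc.denom_ne_zero h
  have e : f - RatFunc.C h.num.leadingCoeff * g =
      algebraMap K[X] (RatFunc K) (h.num - C h.num.leadingCoeff * h.denom)
        * (algebraMap K[X] (RatFunc K) h.denom)⁻¹ * g := by
    have e1 : algebraMap K[X] (RatFunc K) h.num = h * algebraMap K[X] (RatFunc K) h.denom := by
      rw [← div_eq_iff hd0]; exact RatFunc.num_div_denom h
    have e2 : f = h * g := by rw [hh]; field_simp [hg.1]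
    rw [map_sub, map_mul, RatFunc.algebraMap_C, e1]
    conv_lhs => rw [e2]
    field_simp
  rw [e]
  have hn0 := RatFunc.num_ne_zero h1.1
  have h2 : ν.Ge (1 - h.denom.natDegree) (algebraMap K[X] (RatFunc K)
      (h.num - C h.num.leadingCoeff * h.denom)) := by
    by_cases h0 : h.num - C h.num.leadingCoeff * h.denom = 0
    · rw [h0]; exact Or.inl (by simp)
    refine Or.inr ?_
    rw [hν, inf_poly]
    have hlc : h.num.leadingCoeff ≠ 0 := leadingCoeff_ne_zero.2 hn0
    have hdlt : (h.num - C h.num.leadingCoeff * h.denom).degree < h.num.degree := by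
      apply degree_sub_lt_left
      · rw [degree_C_mul hlc, degree_eq_natDegree hn0,
          degree_eq_natDegree (RatFunc.denom_ne_zero h), hdeg]
      · exact hn0
      · rw [leadingCoeff_mul, leadingCoeff_C, (RatFunc.monic_denom h).leadingCoeff, mul_one]
    have := natDegree_lt_natDegree h0 hdlt
    omega
  have h3 : ν.Is (-h.denom.natDegree) (algebraMap K[X] (RatFunc K) h.denom) :=
    ⟨hd0, by rw [hν, inf_poly]⟩
  have h4 := (h2.mul h3.inv.ge).mul hg.ge
  exact h4.mono (by omega)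

theorem poly_sq_of_even (n : ℕ) : ∀ P : K[X], P ≠ 0 → P.natDegree ≤ n →
    (∀ π : K[X], Prime π → Even (multiplicity π P)) → ∃ c : K, ∃ b : K[X], P = C c * b ^ 2 := by
  induction n with
  | zero =>
    intro P _ hd _
    exact ⟨P.coeff 0, 1, by rw [one_pow, mul_one]; exact eq_C_of_natDegree_le_zero hd⟩
  | succ n ih =>
    intro P hP hd h
    by_cases hu : IsUnit P
    · obtain ⟨c, -, rfl⟩ := Polynomial.isUnit_iff.1 hu
      exact ⟨c, 1, by simp⟩
    obtain ⟨π, hπ, hdv⟩ := WfDvdMonoid.exists_irreducible_factor hu hP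
    have hp := hπ.prime
    have h5 : multiplicity π P ≠ 0 := fun h => multiplicity_eq_zero.1 h hdv
    have h6 : 2 ≤ multiplicity π P := by obtain ⟨m, hm⟩ := h π hp; omega
    rw [← (FiniteMultiplicity.of_prime_left hp hP).pow_dvd_iff_le_multiplicity] at h6
    obtain ⟨Q, rfl⟩ := h6
    have hQ : Q ≠ 0 := right_ne_zero_of_mul hP
    have hdeg : 0 < π.natDegree := hπ.natDegree_pos
    rw [natDegree_mul (pow_ne_zero 2 hp.ne_zero) hQ, natDegree_pow] at hd
    obtain ⟨c, b, hb⟩ := ih Q hQ (by omega) (by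
      intro ρ hρ
      have h1 := h ρ hρ
      rw [mult_mul hρ (pow_ne_zero 2 hp.ne_zero) hQ, sq, mult_mul hρ hp.ne_zero hp.ne_zero] at h1
      obtain ⟨m, hm⟩ := h1
      exact ⟨m - multiplicity ρ π, by omega⟩)
    exact ⟨c, π * b, by rw [hb]; ring⟩

/-- A rational function all of whose finite orders are even is a constant times a square. -/
theorem sq_of_even {f : RatFunc K} (hf : f ≠ 0)
    (h : ∀ π : K[X], ∀ hπ : Prime π, Even ((fin π hπ).v f)) :
    ∃ c : K, ∃ s : RatFunc K, f = RatFunc.C c * s ^ 2 := by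
  have hn0 := RatFunc.num_ne_zero hf
  have hd0 := RatFunc.denom_ne_zero f
  obtain ⟨c, b, hab⟩ := poly_sq_of_even _ (f.num * f.denom) (mul_ne_zero hn0 hd0) le_rfl (by
    intro π hp
    have h1 := h π hp
    rw [mult_mul hp hn0 hd0]
    simp only [fin, vP] at h1
    obtain ⟨m, hm⟩ := h1
    refine (Nat.even_iff).2 ?_
    omega)
  refine ⟨c, algebraMap K[X] (RatFunc K) b / algebraMap K[X] (RatFunc K) f.denom, ?_⟩
  have hd1 : algebraMap K[X] (RatFunc K) f.denom ≠ 0 := by simpa using hd0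
  have e := congrArg (algebraMap K[X] (RatFunc K)) hab
  rw [map_mul, map_mul, map_pow, RatFunc.algebraMap_C] at e
  conv_lhs => rw [← RatFunc.num_div_denom f]
  field_simp
  linear_combination e

end Pool.Agent.Lib.MP_1b9c20_nt
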